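import Pool.Agent.U775.LG.FinN

set_option autoImplicit false

/-!
# The finite lemma for the second relation
-/

namespace Pool.Agent.U775.LG

theorem exists_enum (l : ℕ) (C : Finset ℤ) (hC : C.card ≤ l) :
    ∃ g : Fin l → ℤ, ∀ c ∈ C, ∃ j, g j = c := by
  refine ⟨fun j => C.toList.getD j 0, fun c hc => ?_⟩
  obtain ⟨n, hn, h⟩ := List.getElem_of_mem (Finset.mem_toList.2 hc)
  rw [Finset.length_toList] at hn
  refine ⟨⟨n, hn.trans_le hC⟩, ?_⟩
  simp only
  rw [List.getD_eq_getElem _ _ (by rwa [Finset.length_toList])]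
  exact h

theorem finite_lemma (l : ℕ) {ε : ℝ} (hε : 0 < ε) : ∃ m : ℕ, ∀ (N : ℕ) (U : Finset ℤ),
    (∀ u ∈ U, 0 ≤ u ∧ u < N) → m ≤ U.card →
    ∃ D : Finset ℤ, (D.card : ℝ) ≤ ε * N ∧ ∀ C : Finset ℤ, C.card ≤ l →
      (∀ c ∈ C, 0 ≤ c ∧ c < N) → ∃ u ∈ U, ∀ c ∈ C, c - u ∈ D := by
  classical
  obtain ⟨q0, hq0⟩ := exists_nat_ge (24 * l / ε)
  set q := q0 + 4 with hq
  have hqpos : 0 < q := by omega
  have hqR : (4 : ℝ) ≤ q := by
    have : 4 ≤ q := by omega
    exact_mod_cast this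
  have hqR0 : (0 : ℝ) < q := by linarith
  have hql : 24 * l ≤ ε * q := by
    have h1 : 24 * l / ε ≤ q := hq0.trans (by rw [hq]; push_cast; linarith)
    rw [div_le_iff₀ hε] at h1
    linarith
  obtain ⟨m, hm⟩ := lacunary q hqpos (q ^ l)
  refine ⟨m, fun N U hU hUm => ?_⟩
  obtain ⟨c0, hc0, u, hu1, hu2⟩ := hm U hUm
  have ht : 0 < q ^ l := by positivity
  set d : ℕ → ℝ := fun i => ((u i - c0 : ℤ) : ℝ) with hd
  have hd0 : (q : ℝ) ≤ |d 0| := by
    have := (hu1 0 ht).2
    simp only [hd]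
    exact_mod_cast this
  have hd0N : |d 0| ≤ N := by
    have h1 := hU _ (hu1 0 ht).1
    have h2 := hU _ hc0
    have h3 : |u 0 - c0| ≤ (N : ℤ) := by
      rw [abs_le]
      constructor <;> omega
    simp only [hd]
    exact_mod_cast h3
  have hd0pos : 0 < |d 0| := hqR0.trans_le hd0
  have hdl : ∀ i, i + 1 < q ^ l → (q : ℝ) * |d i| ≤ |d (i + 1)| := by
    intro i hi
    have := hu2 i hi
    simp only [hd]
    exact_mod_cast this
  -- the multipliers
  let a : Fin l → ℕ → ℝ := fun j i => if h : i < q ^ l then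
    (((finFunctionFinEquiv.symm ⟨i, h⟩ : Fin l → Fin q) j : ℕ) : ℝ) / q else 0
  have hex := fun j : Fin l => exists_theta (r := q) (by linarith) (d := d) (a := a j) (q ^ l)
    (fun _ => abs_pos.1 hd0pos) hdl (2 / |d 0|)
  choose θ hθ1 hθ2 using hex
  have hone : ∀ s : ℕ, (1 : ℝ) - (1 / 2) ^ s ≤ 1 := by
    intro s
    have : (0 : ℝ) < (1 / 2) ^ s := by positivity
    linarith
  have hθ3 : ∀ j, 1 / |d 0| ≤ θ j ∧ θ j ≤ 3 / q := by
    intro j
    have h1 : |θ j - 2 / (|d 0|)| ≤ 1 / |d 0| :=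
      (hθ1 j).trans (mul_le_of_le_one_right (by positivity) (hone _))
    rw [abs_le] at h1
    have e2 : 2 / |d 0| = 2 * (1 / |d 0|) := by ring
    rw [e2] at h1
    have h3 : 1 / |d 0| ≤ 1 / q := one_div_le_one_div_of_le hqR0 hd0
    have e3 : (3 : ℝ) / q = 3 * (1 / q) := by ring
    rw [e3]
    constructor <;> linarith [h1.1, h1.2]
  have hθpos : ∀ j, 0 < θ j := fun j => lt_of_lt_of_le (by positivity) (hθ3 j).1
  have hqN : (q : ℝ) ≤ N := hd0.trans hd0N
  refine ⟨Finset.univ.biUnion fun j : Fin l =>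
    (Finset.Ioo (-(N : ℤ)) N).filter fun y : ℤ => ∃ k : ℤ, |θ j * (y : ℝ) - k| ≤ 2 / q, ?_, ?_⟩
  · refine (Nat.cast_le.2 Finset.card_biUnion_le).trans ?_
    push_cast
    have h1 : ∀ j ∈ (Finset.univ : Finset (Fin l)), (((Finset.Ioo (-(N : ℤ)) N).filter fun y : ℤ =>
        ∃ k : ℤ, |θ j * (y : ℝ) - k| ≤ 2 / q).card : ℝ) ≤ 24 * N / q := by
      intro j _
      have h2 : 1 ≤ θ j * N := by
        calc (1 : ℝ) = 1 / |d 0| * |d 0| := by field_simp
          _ ≤ θ j * N := mul_le_mul (hθ3 j).1 hd0N hd0pos.le (hθpos j).le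
      refine (card_near (hθpos j) h2 (by positivity) ?_).trans ?_
      · rw [div_le_div_iff₀ hqR0 (by norm_num)]
        linarith
      · have h3 : 2 * θ j * N ≤ 2 * (3 / q) * N := by
          apply mul_le_mul_of_nonneg_right _ (by positivity)
          linarith [(hθ3 j).2]
        have h4 : (2 : ℝ) ≤ 2 * N / q := by
          rw [le_div_iff₀ hqR0]
          linarith
        have e : 24 * (N : ℝ) / q = 8 * (2 / q) * N + 2 * (3 / q) * N + 2 * N / q := by ring
        rw [e]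
        linarith
    refine (Finset.sum_le_card_nsmul _ _ _ h1).trans ?_
    rw [nsmul_eq_mul, Finset.card_univ, Fintype.card_fin]
    have e : (l : ℝ) * (24 * N / q) = (24 * l) * N / q := by ring
    rw [e, div_le_iff₀ hqR0]
    calc 24 * (l : ℝ) * N ≤ ε * q * N := mul_le_mul_of_nonneg_right hql (by positivity)
      _ = ε * N * q := by ring
  · intro C hC hCN
    obtain ⟨g, hg⟩ := exists_enum l C hC
    let B : Fin l → ℤ := fun j => round (q * (θ j * ((g j - c0 : ℤ) : ℝ)))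
    have hB : ∀ j, 0 ≤ B j % q ∧ B j % q < q := fun j =>
      ⟨Int.emod_nonneg _ (by omega), Int.emod_lt_of_pos _ (by omega)⟩
    let b : Fin l → Fin q := fun j => ⟨(B j % q).toNat, by have := hB j; omega⟩
    set i : Fin (q ^ l) := finFunctionFinEquiv b with hi
    refine ⟨u i, (hu1 i i.2).1, fun c hc => ?_⟩
    obtain ⟨j, hj⟩ := hg c hc
    refine Finset.mem_biUnion.2 ⟨j, Finset.mem_univ _, Finset.mem_filter.2 ⟨?_, ?_⟩⟩
    · have h1 := hCN c hc
      have h2 := hU _ (hu1 i i.2).1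
      rw [Finset.mem_Ioo]
      constructor <;> omega
    · obtain ⟨k, hk⟩ := hθ2 j i i.2
      have h1 : |θ j * d i - a j i - k| ≤ 1 / q :=
        hk.trans (mul_le_of_le_one_right (by positivity) (hone _))
      have h2 : a j i = ((B j % q : ℤ) : ℝ) / q := by
        simp only [a]
        rw [dif_pos i.2]
        have h3 : (finFunctionFinEquiv.symm (⟨(i : ℕ), i.2⟩ : Fin (q ^ l)) : Fin l → Fin q) = b := by
          rw [hi]
          exact finFunctionFinEquiv.symm_apply_apply b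
        rw [h3]
        have h4 : (((b j : ℕ) : ℤ) : ℝ) = ((B j % q : ℤ) : ℝ) := by
          congr 1
          exact Int.toNat_of_nonneg (hB j).1
        have h5 : ((b j : ℕ) : ℝ) = (((b j : ℕ) : ℤ) : ℝ) := by push_cast; rfl
        rw [h5, h4]
      have h3 : |q * (θ j * ((c - c0 : ℤ) : ℝ)) - B j| ≤ 1 / 2 := by
        have := abs_sub_round (q * (θ j * ((g j - c0 : ℤ) : ℝ)))
        rw [hj] at this
        simp only [B]
        rw [hj]
        exact this
      have h4 : |θ j * ((c - c0 : ℤ) : ℝ) - B j / q| ≤ 1 / 2 / q := by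
        have e : θ j * ((c - c0 : ℤ) : ℝ) - B j / q =
            (q * (θ j * ((c - c0 : ℤ) : ℝ)) - B j) / q := by
          field_simp
        rw [e, abs_div, abs_of_pos hqR0]
        exact div_le_div_of_nonneg_right h3 hqR0.le
      have h5 : (B j : ℝ) / q = ((B j / q : ℤ) : ℝ) + ((B j % q : ℤ) : ℝ) / q := by
        have h6 : (q : ℤ) * (B j / q) + B j % q = B j := Int.mul_ediv_add_emod _ _
        have h7 : (q : ℝ) * ((B j / q : ℤ) : ℝ) + ((B j % q : ℤ) : ℝ) = B j := by exact_mod_cast h6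
        rw [← h7]
        field_simp
      refine ⟨B j / q - k, ?_⟩
      have e : θ j * ((c - u i : ℤ) : ℝ) - ((B j / q - k : ℤ) : ℝ) =
          (θ j * ((c - c0 : ℤ) : ℝ) - B j / q) - (θ j * d i - a j i - k) := by
        rw [h5, h2, hd]
        push_cast
        ring
      rw [e]
      refine (abs_sub _ _).trans ((add_le_add h4 h1).trans ?_)
      have e2 : 1 / 2 / (q : ℝ) + 1 / q = (3 / 2) / q := by ring
      rw [e2]
      exact div_le_div_of_nonneg_right (by norm_num) hqR0.le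

end Pool.Agent.U775.LG
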