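import Pool.Agent.U775.LG.Val
import Pool.Agent.U775.LG.FinN2

set_option autoImplicit false

/-!
# The selection property for the second relation
-/

namespace Pool.Agent.U775.LG

open Cardinal

/-- the sequences of finite sets -/
abbrev DT : Type := {D : ℕ → Finset (ℕ × ℤ) // ∀ k, ∑ p ∈ D k, (1 / 2 : ℝ) ^ p.1 ≤ (1 / 2) ^ k}

theorem mk_DT : #DT ≤ 𝔠 := by
  refine (mk_subtype_le _).trans ?_
  rw [← power_def, mk_nat]
  exact (power_le_power_right (mk_le_aleph0 (α := Finset (ℕ × ℤ)))).trans
    (le_of_eq (aleph0_power_aleph0))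

/-- the sizes of the entries -/
noncomputable def mN (k i : ℕ) : ℕ :=
  (finite_lemma (2 ^ k) (ε := (1 / 2) ^ (k + i + 1)) (by positivity)).choose

theorem sum_biUnion_range_le {ι : Type} [DecidableEq ι] (S : ℕ → Finset ι) (f : ι → ℝ)
    (hf : ∀ i, 0 ≤ f i) (t : ℕ) :
    ∑ p ∈ (Finset.range t).biUnion S, f p ≤ ∑ i ∈ Finset.range t, ∑ p ∈ S i, f p := by
  induction t with
  | zero => simp
  | succ t ih =>
    rw [Finset.range_add_one, Finset.biUnion_insert, Finset.sum_insert (by simp)]
    have h1 := Finset.sum_union_inter (s₁ := S t) (s₂ := (Finset.range t).biUnion S) (f := f)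
    have h2 : 0 ≤ ∑ p ∈ S t ∩ (Finset.range t).biUnion S, f p :=
      Finset.sum_nonneg fun i _ => hf i
    linarith

theorem selN : Sel mN (fun j : DT => RelN j.1) := by
  classical
  intro g T ent hg hg0 hent
  have h1 : ∀ k i, ∃ D : Finset ℤ, i < T k → (D.card : ℝ) ≤ (1 / 2) ^ (k + i + 1) * 2 ^ (ent k i).1 ∧
      ∀ C : Finset (Finset ℕ), C.card ≤ 2 ^ k → (∀ τ ∈ C, τ ⊆ Finset.range (ent k i).1) →
        ∃ σ ∈ (ent k i).2, ∀ τ ∈ C, (val (ent k i).1 τ : ℤ) - val (ent k i).1 σ ∈ D := by
    intro k i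
    by_cases hi : i < T k
    · obtain ⟨⟨h1, h2, h3, h4⟩, h5⟩ := hent k i hi
      set n := (ent k i).1 with hn
      let U : Finset ℤ := (ent k i).2.image fun σ => (val n σ : ℤ)
      have hinj : Set.InjOn (fun σ => (val n σ : ℤ)) ((ent k i).2 : Set (Finset ℕ)) := by
        intro σ hσ τ hτ hστ
        have h6 : (val n σ : ℤ) = val n τ := hστ
        exact val_inj' (by exact_mod_cast h6) (h3 σ hσ) (h3 τ hτ)
      obtain ⟨D, hD1, hD2⟩ := (finite_lemma (2 ^ k) (ε := (1 / 2) ^ (k + i + 1))
        (by positivity)).choose_spec (2 ^ n) U (by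
          intro u hu
          obtain ⟨σ, -, rfl⟩ := Finset.mem_image.1 hu
          have := val_lt n σ
          constructor
          · positivity
          · exact_mod_cast this) (by
          rw [Finset.card_image_of_injOn hinj]
          exact h1)
      refine ⟨D, fun _ => ⟨by push_cast at hD1; exact hD1, fun C hC hCn => ?_⟩⟩
      obtain ⟨u, hu, h6⟩ := hD2 (C.image fun τ => (val n τ : ℤ)) (Finset.card_image_le.trans hC) (by
        intro c hc
        obtain ⟨σ, -, rfl⟩ := Finset.mem_image.1 hc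
        have := val_lt n σ
        constructor
        · positivity
        · exact_mod_cast this)
      obtain ⟨σ, hσ, rfl⟩ := Finset.mem_image.1 hu
      exact ⟨σ, hσ, fun τ hτ => h6 _ (Finset.mem_image_of_mem _ hτ)⟩
    · exact ⟨∅, fun h => absurd h hi⟩
  choose D hD using h1
  refine ⟨⟨fun k => (Finset.range (T k)).biUnion fun i => (D k i).image fun y =>
    ((ent k i).1, y), fun k => ?_⟩, fun k i hi C hC hCn => ?_⟩
  · refine (sum_biUnion_range_le _ _ (fun p => by positivity) _).trans ?_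
    have h2 : ∀ i ∈ Finset.range (T k), ∑ p ∈ (D k i).image (fun y => ((ent k i).1, y)),
        (1 / 2 : ℝ) ^ p.1 ≤ (1 / 2) ^ (k + i + 1) := by
      intro i hi
      rw [Finset.sum_image (by
        intro y _ y' _ h
        exact (Prod.mk.inj h).2)]
      simp only
      rw [Finset.sum_const, nsmul_eq_mul]
      have h3 := (hD k i (Finset.mem_range.1 hi)).1
      calc ((D k i).card : ℝ) * (1 / 2) ^ (ent k i).1 ≤
          (1 / 2) ^ (k + i + 1) * 2 ^ (ent k i).1 * (1 / 2) ^ (ent k i).1 :=
            mul_le_mul_of_nonneg_right h3 (by positivity)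
        _ = (1 / 2) ^ (k + i + 1) := by
            rw [mul_assoc, ← mul_pow]
            norm_num
    refine (Finset.sum_le_sum h2).trans ?_
    have h3 : ∀ t : ℕ, ∑ i ∈ Finset.range t, (1 / 2 : ℝ) ^ (k + i + 1) =
        (1 / 2) ^ k * (1 - (1 / 2) ^ t) := by
      intro t
      induction t with
      | zero => simp
      | succ t ih =>
        rw [Finset.sum_range_succ, ih]
        ring
    rw [h3]
    exact mul_le_of_le_one_right (by positivity) (by
      have : (0 : ℝ) < (1 / 2) ^ (T k) := by positivity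
      linarith)
  · obtain ⟨σ, hσ, h2⟩ := (hD k i hi).2 C hC hCn
    refine ⟨σ, hσ, fun τ hτ => ?_⟩
    exact Finset.mem_biUnion.2 ⟨i, Finset.mem_range.2 hi, Finset.mem_image.2 ⟨_, h2 τ hτ, rfl⟩⟩

end Pool.Agent.U775.LG
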