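import Pool.Agent.U775.LG.Force
import Pool.Agent.U775.LG.SelN

set_option autoImplicit false

/-!
# The principle is forced
-/

namespace Pool.Agent.U775.LG

open Set Cardinal Pool.Agent.R594.Rai Pool.Agent.Helper126.Sus.Forc
open Pool.Agent.R594.Star (exists_gt_K1 mk_K1 countable_Iio_K1)

theorem exists_forcing2 : ∃ (P : Type) (_ : Preorder P), Nonempty P ∧ ∀ p : P,
    p ∈ ForcedPrinciple P (fun a : KT => a.1) (fun C : Wt => C.1) (fun h : HT => h.1)
      (fun D : DT => D.1) := by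
  have hK1 : Nonempty K1 := ⟨(exists_gt_K1 (C := ∅) countable_empty).choose⟩
  have hKT : Nonempty KT := by
    obtain ⟨ξ⟩ := hK1
    have h1 : #{a : KT | a.1 = ξ} ≠ 0 := by
      rw [mk_level]
      exact (beth_pos _).ne'
    obtain ⟨a, _⟩ := mk_ne_zero_iff.1 h1
    exact ⟨a⟩
  have hlt : ∀ ξ : K1, ¬ #{a : KT | a.1 = ξ} ≤ 2 ^ 𝔠 := by
    intro ξ
    rw [mk_level]
    exact not_le.2 (two_power_continuum_lt _)
  refine ⟨Col Wt × SC KT, inferInstance, ⟨⟨⟨fun _ => none, hK1.some, fun _ _ => rfl⟩,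
    ⟨fun _ _ => none, ?_, ?_⟩⟩⟩, fun p => ⟨loc_forced p, dist_forced p, size_forced (mk_col mk_Wt) ?_
    ?_ p, fun ξ => esc (col_closed Wt) (mk_col mk_Wt) (hlt ξ) mk_HT selM p,
    fun ξ => esc (col_closed Wt) (mk_col mk_Wt) (hlt ξ) mk_DT selN p⟩⟩
  · have h1 : {ξ : KT | ∃ n : ℕ, (none : Option Bool) ≠ none} = ∅ := by
      ext ξ; simp
    rw [h1]
    exact countable_empty
  · intro ξ
    have h1 : {n : ℕ | (none : Option Bool) = none} = Set.univ := by
      ext n; simp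
    rw [h1]
    exact infinite_univ
  · intro ξ η h
    rw [mk_level, mk_level]
    apply beth_strictMono
    exact (add_lt_add_iff_left _).2 ((Ordinal.typein_lt_typein (· < ·)).2 h)
  · intro ξ
    exact (cantor 𝔠).le.trans (not_le.1 (hlt ξ)).le

end Pool.Agent.U775.LG
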