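import Mathlib

set_option autoImplicit false

/-!
# Slaloms and null sets
-/

namespace Pool.Agent.U775.LG

open Set MeasureTheory Filter Topology
open scoped ENNReal

section

variable {X : Type} (B : ℕ → Set X)

/-- a finite union of basic sets minus a finite union of basic sets, given by its code -/
def del (c : ℕ) : Set X :=
  (⋃ i ∈ ((Encodable.decode (α := Finset ℕ × Finset ℕ) c).getD (∅, ∅)).1, B i) \
    ⋃ i ∈ ((Encodable.decode (α := Finset ℕ × Finset ℕ) c).getD (∅, ∅)).2, B i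

theorem del_encode (p : Finset ℕ × Finset ℕ) :
    del B (Encodable.encode p) = (⋃ i ∈ p.1, B i) \ ⋃ i ∈ p.2, B i := by
  unfold del
  rw [Encodable.encodek]
  rfl

variable [MeasurableSpace X] (μ : Measure X)

/-- the null set of a slalom -/
def nullR (C : ℕ → Finset ℕ) : Set X :=
  {z | ∃ᶠ k in atTop, ∃ c ∈ C k, μ (del B c) ≤ (1 / 4) ^ k ∧ z ∈ del B c}

theorem nullR_null {C : ℕ → Finset ℕ} (hC : ∀ k, (C k).card ≤ 2 ^ k) : μ (nullR B μ C) = 0 := by
  classical
  apply measure_setOf_frequently_eq_zero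
  have h1 : ∀ k, μ {z | ∃ c ∈ C k, μ (del B c) ≤ (1 / 4) ^ k ∧ z ∈ del B c} ≤ (1 / 2) ^ k := by
    intro k
    have h2 : {z | ∃ c ∈ C k, μ (del B c) ≤ (1 / 4) ^ k ∧ z ∈ del B c} ⊆
        ⋃ c ∈ (C k).filter fun c => μ (del B c) ≤ (1 / 4) ^ k, del B c := by
      rintro z ⟨c, hc, h3, h4⟩
      exact mem_biUnion (Finset.mem_filter.2 ⟨hc, h3⟩) h4
    refine (measure_mono h2).trans ((measure_biUnion_finset_le _ _).trans ?_)
    refine (Finset.sum_le_card_nsmul _ _ _ fun c hc => (Finset.mem_filter.1 hc).2).trans ?_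
    rw [nsmul_eq_mul]
    have h3 : (((C k).filter fun c => μ (del B c) ≤ (1 / 4) ^ k).card : ℝ≥0∞) ≤ 2 ^ k := by
      have := (Finset.card_filter_le (C k) fun c => μ (del B c) ≤ (1 / 4) ^ k).trans (hC k)
      exact_mod_cast this
    refine (mul_le_mul_left h3 _).trans (le_of_eq ?_)
    rw [← mul_pow]
    congr 1
    rw [one_div, one_div, show (4 : ℝ≥0∞) = 2 * 2 by norm_num,
      ENNReal.mul_inv (by simp) (by simp), ← mul_assoc, ENNReal.mul_inv_cancel (by simp) (by simp),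
      one_mul]
  refine ne_top_of_le_ne_top ?_ (ENNReal.tsum_le_tsum h1)
  rw [ENNReal.tsum_geometric]
  simp

variable [TopologicalSpace X] [OpensMeasurableSpace X] [μ.OuterRegular]

theorem exists_codeR (hB : TopologicalSpace.IsTopologicalBasis (range B)) {N : Set X}
    (hN : μ N = 0) : ∃ f : ℕ → ℕ, ∀ C : ℕ → Finset ℕ, (∀ k, f k ∈ C k) → N ⊆ nullR B μ C := by
  classical
  have hpos : ∀ k : ℕ, (0 : ℝ≥0∞) < (1 / 4) ^ k := by
    intro k
    apply ENNReal.pow_pos
    simp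
  have h1 : ∀ j : ℕ, ∃ V ⊇ N, IsOpen V ∧ μ V < (1 / 4) ^ (Nat.pair j 0) := by
    intro j
    exact N.exists_isOpen_lt_of_lt _ (by rw [hN]; exact hpos _)
  choose V hNV hVo hV using h1
  let S : ℕ → ℕ → Finset ℕ := fun j m => (Finset.range m).filter fun i => B i ⊆ V j
  have hSo : ∀ j m, MeasurableSet (⋃ i ∈ S j m, B i) := fun j m =>
    (isOpen_biUnion fun i _ => hB.isOpen ⟨i, rfl⟩).measurableSet
  have hSV : ∀ j m, (⋃ i ∈ S j m, B i) ⊆ V j := fun j m =>
    iUnion₂_subset fun i hi => (Finset.mem_filter.1 hi).2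
  have hSm : ∀ j z, z ∈ V j → ∃ i, ∀ m, i < m → z ∈ ⋃ i ∈ S j m, B i := by
    intro j z hz
    obtain ⟨_, ⟨i, rfl⟩, h2, h3⟩ := hB.exists_subset_of_mem_open hz (hVo j)
    exact ⟨i, fun m hm => mem_biUnion (Finset.mem_filter.2 ⟨Finset.mem_range.2 hm, h3⟩) h2⟩
  have h2 : ∀ j l : ℕ, ∃ m, l ≤ m ∧ μ (V j \ ⋃ i ∈ S j m, B i) ≤ (1 / 4) ^ (Nat.pair j (l + 1)) := by
    intro j l
    have h3 : Tendsto (fun m => μ (V j \ ⋃ i ∈ S j m, B i)) atTop
        (𝓝 (μ (⋂ m, V j \ ⋃ i ∈ S j m, B i))) := by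
      refine tendsto_measure_iInter_atTop (fun m => ((hVo j).measurableSet.diff
        (hSo j m)).nullMeasurableSet) ?_ ⟨0, ?_⟩
      · intro m m' hm
        refine diff_subset_diff_right (iUnion₂_subset fun i hi => ?_)
        rw [Finset.mem_filter, Finset.mem_range] at hi
        exact subset_biUnion_of_mem (u := fun i => B i) (Finset.mem_coe.2 (Finset.mem_filter.2
          ⟨Finset.mem_range.2 (hi.1.trans_le hm), hi.2⟩))
      · exact ((measure_mono diff_subset).trans_lt (hV j)).ne_top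
    have h4 : (⋂ m, V j \ ⋃ i ∈ S j m, B i) = ∅ := by
      rw [eq_empty_iff_forall_notMem]
      intro z hz
      obtain ⟨i, hi⟩ := hSm j z (mem_iInter.1 hz 0).1
      exact (mem_iInter.1 hz (i + 1)).2 (hi (i + 1) (by omega))
    rw [h4, measure_empty] at h3
    obtain ⟨m, hm1, hm2⟩ := ((h3.eventually (gt_mem_nhds (hpos (Nat.pair j (l + 1))))).and
      (eventually_ge_atTop l)).exists
    exact ⟨m, hm2, hm1.le⟩
  choose m hm1 hm2 using h2
  let f : ℕ → ℕ := fun k => Encodable.encode (S (Nat.unpair k).1 (m (Nat.unpair k).1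
    (Nat.unpair k).2), if (Nat.unpair k).2 = 0 then ∅ else
      S (Nat.unpair k).1 (m (Nat.unpair k).1 ((Nat.unpair k).2 - 1)))
  have hf : ∀ j l, del B (f (Nat.pair j l)) = (⋃ i ∈ S j (m j l), B i) \
      ⋃ i ∈ (if l = 0 then ∅ else S j (m j (l - 1))), B i := by
    intro j l
    simp only [f, Nat.unpair_pair]
    rw [del_encode]
  refine ⟨f, fun C hC z hz => ?_⟩
  rw [nullR, mem_ofPred_eq, frequently_atTop]
  intro j
  have hex : ∃ l, z ∈ ⋃ i ∈ S j (m j l), B i := by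
    obtain ⟨i, hi⟩ := hSm j z (hNV j hz)
    exact ⟨i + 1, hi _ (Nat.lt_of_succ_le (hm1 j (i + 1)))⟩
  set l := Nat.find hex with hl
  have h3 := Nat.find_spec hex
  rw [← hl] at h3
  refine ⟨Nat.pair j l, Nat.left_le_pair j l, f (Nat.pair j l), hC _, ?_, ?_⟩
  · rw [hf]
    rcases Nat.eq_zero_or_pos l with h4 | h4
    · rw [h4]
      exact (measure_mono (diff_subset.trans (hSV _ _))).trans (hV j).le
    · rw [if_neg h4.ne']
      refine (measure_mono (diff_subset_diff_left (hSV j (m j l)))).trans ?_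
      have h5 := hm2 j (l - 1)
      rwa [Nat.sub_add_cancel h4] at h5
  · rw [hf]
    refine ⟨h3, ?_⟩
    split_ifs with h4
    · simp
    · exact Nat.find_min hex (by omega)

end

end Pool.Agent.U775.LG
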