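import Pool.Agent.U775.LG.Defs

set_option autoImplicit false

/-!
# No subgroup is a Luzin set
-/

namespace Pool.Agent.U775.LG

open Set Cardinal Filter MeasureTheory

/-- the binary digits of the fractional part of a real number -/
def dg (y : ℝ) (i : ℕ) : Prop := ⌊2 ^ (i + 1) * Int.fract y⌋ % 2 = 1

theorem floor_two_mul (a : ℝ) : ⌊2 * a⌋ = 2 * ⌊a⌋ + ⌊2 * a⌋ % 2 := by
  have h1 : ⌊2 * a⌋ / 2 = ⌊a⌋ := by
    have h2 := Int.floor_le a
    have h3 := Int.lt_floor_add_one a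
    have h4 : 2 * ⌊a⌋ ≤ ⌊2 * a⌋ := by
      rw [Int.le_floor]
      push_cast
      linarith
    have h5 : ⌊2 * a⌋ < 2 * ⌊a⌋ + 2 := by
      rw [Int.floor_lt]
      push_cast
      linarith
    omega
  omega

theorem floor_eq_val {y : ℝ} {n : ℕ} {σ : Finset ℕ} (h : ∀ i < n, dg y i ↔ i ∈ σ) :
    ⌊2 ^ n * Int.fract y⌋ = val n σ := by
  induction n with
  | zero =>
    rw [pow_zero, one_mul, val, Int.floor_eq_iff]
    refine ⟨?_, ?_⟩
    · simpa using Int.fract_nonneg y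
    · simpa using Int.fract_lt_one y
  | succ n ih =>
    have h1 := ih (fun i hi => h i (by omega))
    have h2 := floor_two_mul (2 ^ n * Int.fract y)
    rw [← mul_assoc, ← pow_succ', h1] at h2
    have h3 : ⌊2 ^ (n + 1) * Int.fract y⌋ % 2 = if n ∈ σ then 1 else 0 := by
      have h5 := h n (by omega)
      unfold dg at h5
      split_ifs with h3
      · exact h5.2 h3
      · have h4 : ¬ ⌊2 ^ (n + 1) * Int.fract y⌋ % 2 = 1 := fun h6 => h3 (h5.1 h6)
        omega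
    rw [h3] at h2
    rw [h2, val]
    push_cast
    rfl

/-- the difference of the digits -/
theorem diff_bounds {y y' : ℝ} {n : ℕ} {σ τ : Finset ℕ} (hσ : ∀ i < n, dg y' i ↔ i ∈ σ)
    (hτ : ∀ i < n, dg y i ↔ i ∈ τ) :
    |2 ^ n * (y - y' - (⌊y⌋ - ⌊y'⌋ : ℤ)) - ((val n τ : ℝ) - val n σ)| < 1 := by
  have h1 := floor_eq_val hσ
  have h2 := floor_eq_val hτ
  have h3 : (val n σ : ℝ) ≤ 2 ^ n * Int.fract y' ∧ 2 ^ n * Int.fract y' < val n σ + 1 := by
    have := Int.floor_eq_iff.1 h1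
    exact_mod_cast this
  have h4 : (val n τ : ℝ) ≤ 2 ^ n * Int.fract y ∧ 2 ^ n * Int.fract y < val n τ + 1 := by
    have := Int.floor_eq_iff.1 h2
    exact_mod_cast this
  have e : 2 ^ n * (y - y' - (⌊y⌋ - ⌊y'⌋ : ℤ)) = 2 ^ n * Int.fract y - 2 ^ n * Int.fract y' := by
    unfold Int.fract
    push_cast
    ring
  rw [e, abs_lt]
  constructor <;> linarith

theorem dg_inj {y y' : ℝ} (h : ∀ i, dg y i ↔ dg y' i) (hf : ⌊y⌋ = ⌊y'⌋) : y = y' := by
  classical
  have key : ∀ n : ℕ, |2 ^ n * (y - y')| < 1 := by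
    intro n
    have h1 := diff_bounds (y := y) (y' := y') (n := n)
      (σ := (Finset.range n).filter fun i => dg y' i) (τ := (Finset.range n).filter fun i => dg y' i)
      (fun i hi => by simp [hi]) (fun i hi => by simp [hi, h i])
    rw [hf] at h1
    simpa using h1
  by_contra hne
  have h2 : 0 < |y - y'| := abs_pos.2 (sub_ne_zero.2 hne)
  obtain ⟨n, hn⟩ := pow_unbounded_of_one_lt (1 / |y - y'|) (one_lt_two)
  have h3 := key n
  rw [abs_mul, abs_of_pos (by positivity : (0 : ℝ) < 2 ^ n)] at h3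
  rw [div_lt_iff₀ h2] at hn
  linarith

/-- the exceptional meagre set -/
def badM (h : ℕ → ℕ) : Set ℝ :=
  {y | ∃ k0 : ℕ, ∀ k ≥ k0, ∀ l : ℤ, (1 / 2 : ℝ) ^ (h (k + 1) - h k) ≤ |2 ^ h k * y - l|}

theorem badM_meagre {h : ℕ → ℕ} (hh : StrictMono h) : IsMeagre (badM h) := by
  have h1 : (badM h)ᶜ = ⋂ k0 : ℕ, ⋃ k : {k // k0 ≤ k}, ⋃ l : ℤ,
      {y : ℝ | |2 ^ h k.1 * y - l| < (1 / 2 : ℝ) ^ (h (k.1 + 1) - h k.1)} := by
    ext y
    simp only [badM, mem_compl_iff, mem_ofPred_eq, not_exists, not_forall, not_le, mem_iInter,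
      mem_iUnion]
    constructor
    · intro h2 k0
      obtain ⟨k, hk, l, hl⟩ := h2 k0
      exact ⟨⟨k, hk⟩, l, hl⟩
    · intro h2 k0
      obtain ⟨⟨k, hk⟩, l, hl⟩ := h2 k0
      exact ⟨k, hk, l, hl⟩
  show (badM h)ᶜ ∈ residual ℝ
  rw [h1]
  refine countable_iInter_mem.2 fun k0 => residual_of_dense_open ?_ ?_
  · refine isOpen_iUnion fun k => isOpen_iUnion fun l => ?_
    exact isOpen_lt (by fun_prop) continuous_const
  · rw [Metric.dense_iff]
    intro y ε hε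
    obtain ⟨k1, hk1⟩ := exists_pow_lt_of_lt_one hε (by norm_num : (1 / 2 : ℝ) < 1)
    set k := max k0 k1 with hk
    have h2 : k ≤ h k := hh.le_apply
    have hpos : (0 : ℝ) < 2 ^ h k := by positivity
    refine ⟨⌊2 ^ h k * y⌋ / 2 ^ h k, ?_, ?_⟩
    · rw [Metric.mem_ball, Real.dist_eq]
      have h3 := Int.floor_le (2 ^ h k * y)
      have h4 := Int.lt_floor_add_one (2 ^ h k * y)
      have h5 : |(⌊2 ^ h k * y⌋ : ℝ) / 2 ^ h k - y| < 1 / 2 ^ h k := by
        have e : (⌊2 ^ h k * y⌋ : ℝ) / 2 ^ h k - y = (⌊2 ^ h k * y⌋ - 2 ^ h k * y) / 2 ^ h k := by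
          field_simp
        rw [e, abs_div, abs_of_pos hpos]
        apply div_lt_div_of_pos_right _ hpos
        rw [abs_lt]
        constructor <;> linarith
      have h6 : (1 : ℝ) / 2 ^ h k ≤ (1 / 2) ^ k1 := by
        rw [one_div_pow]
        apply one_div_le_one_div_of_le (by positivity)
        exact pow_le_pow_right₀ (by norm_num) ((le_max_right k0 k1).trans h2)
      linarith
    · refine mem_iUnion.2 ⟨⟨k, le_max_left _ _⟩, mem_iUnion.2 ⟨⌊2 ^ h k * y⌋, ?_⟩⟩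
      show |2 ^ h k * ((⌊2 ^ h k * y⌋ : ℝ) / 2 ^ h k) - ⌊2 ^ h k * y⌋| < _
      rw [mul_div_cancel₀ _ hpos.ne', sub_self, abs_zero]
      positivity

theorem badM_of {h : ℕ → ℕ} {y y' : ℝ} (hr : ∀ k, ∃ n σ τ, RelM h k n σ τ ∧
    (∀ i < n, dg y' i ↔ i ∈ σ) ∧ ∀ i < n, dg y i ↔ i ∈ τ) : y - y' ∈ badM h := by
  refine ⟨0, fun k _ l => ?_⟩
  obtain ⟨n, σ, τ, ⟨h1, h2, h3⟩, hσ, hτ⟩ := hr k
  by_contra hcon
  rw [not_le] at hcon
  obtain ⟨d, rfl⟩ : ∃ d, n = h k + d := ⟨n - h k, by omega⟩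
  have h4 := diff_bounds hσ hτ
  set q : ℤ := ⌊y⌋ - ⌊y'⌋ with hq
  -- the multiple of `2 ^ d`
  have h5 : |2 ^ (h k + d) * (y - y') - 2 ^ d * (l : ℝ)| < 1 := by
    have e : 2 ^ (h k + d) * (y - y') - 2 ^ d * (l : ℝ) = 2 ^ d * (2 ^ h k * (y - y') - l) := by
      rw [pow_add]; ring
    rw [e, abs_mul, abs_of_pos (by positivity : (0 : ℝ) < 2 ^ d)]
    have h6 : (1 / 2 : ℝ) ^ (h (k + 1) - h k) ≤ (1 / 2) ^ d :=
      pow_le_pow_of_le_one (by norm_num) (by norm_num) (by omega)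
    calc 2 ^ d * |2 ^ h k * (y - y') - (l : ℝ)| < 2 ^ d * (1 / 2 : ℝ) ^ d :=
          mul_lt_mul_of_pos_left (hcon.trans_le h6) (by positivity)
      _ = 1 := by rw [← mul_pow]; norm_num
  have h6 : |(((val (h k + d) τ : ℤ) - val (h k + d) σ - 2 ^ d * (l - 2 ^ h k * q) : ℤ) : ℝ)|
      < 2 := by
    push_cast
    have e : ((val (h k + d) τ : ℝ) - val (h k + d) σ - 2 ^ d * (l - 2 ^ h k * q)) =
        -(2 ^ (h k + d) * (y - y' - q) - ((val (h k + d) τ : ℝ) - val (h k + d) σ)) +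
        (2 ^ (h k + d) * (y - y') - 2 ^ d * (l : ℝ)) := by
      rw [pow_add]; ring
    rw [e]
    refine (abs_add_le _ _).trans_lt ?_
    rw [abs_neg]
    linarith
  set j : ℤ := (val (h k + d) τ : ℤ) - val (h k + d) σ - 2 ^ d * (l - 2 ^ h k * q) with hj
  have h7 : |j| ≤ 1 := by
    have : |j| < 2 := by exact_mod_cast h6
    omega
  refine h3 j h7 ⟨l - 2 ^ h k * q, ?_⟩
  rw [show h k + d - h k = d by omega, hj]
  ring

/-- the exceptional null set -/
def badN (D : ℕ → Finset (ℕ × ℤ)) : Set ℝ :=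
  {y | ∃ l : ℤ, ∃ᶠ k in atTop, ∃ p ∈ D k, |2 ^ p.1 * (y - l) - p.2| ≤ 1}

theorem badN_of {D : ℕ → Finset (ℕ × ℤ)} {y y' : ℝ} (hr : ∀ k, ∃ n σ τ, RelN D k n σ τ ∧
    (∀ i < n, dg y' i ↔ i ∈ σ) ∧ ∀ i < n, dg y i ↔ i ∈ τ) : y - y' ∈ badN D := by
  refine ⟨⌊y⌋ - ⌊y'⌋, Eventually.frequently (Eventually.of_forall fun k => ?_)⟩
  obtain ⟨n, σ, τ, h1, hσ, hτ⟩ := hr k
  refine ⟨_, h1, ?_⟩
  have := diff_bounds hσ hτ
  simp only
  push_cast at this ⊢
  exact this.le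

theorem badN_null {D : ℕ → Finset (ℕ × ℤ)} (hD : ∀ k, ∑ p ∈ D k, (1 / 2 : ℝ) ^ p.1 ≤ (1 / 2) ^ k) :
    volume (badN D) = 0 := by
  have h1 : badN D = ⋃ l : ℤ, {y : ℝ | ∃ᶠ k in atTop, ∃ p ∈ D k, |2 ^ p.1 * (y - l) - p.2| ≤ 1} := by
    ext y
    simp [badN]
  rw [h1, measure_iUnion_null_iff]
  intro l
  apply measure_setOf_frequently_eq_zero
  have h2 : ∀ k, volume {y : ℝ | ∃ p ∈ D k, |2 ^ p.1 * (y - l) - p.2| ≤ 1} ≤
      ENNReal.ofReal (2 * (1 / 2) ^ k) := by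
    intro k
    have h3 : {y : ℝ | ∃ p ∈ D k, |2 ^ p.1 * (y - l) - p.2| ≤ 1} ⊆
        ⋃ p ∈ D k, Metric.closedBall (l + p.2 / 2 ^ p.1) ((1 / 2) ^ p.1) := by
      rintro y ⟨p, hp, hy⟩
      refine mem_biUnion hp ?_
      rw [Metric.mem_closedBall, Real.dist_eq]
      have hpos : (0 : ℝ) < 2 ^ p.1 := by positivity
      have e : y - ((l : ℝ) + p.2 / 2 ^ p.1) = (2 ^ p.1 * (y - l) - p.2) / 2 ^ p.1 := by
        field_simp
        ring
      rw [e, abs_div, abs_of_pos hpos, one_div_pow]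
      exact div_le_div_of_nonneg_right hy hpos.le
    refine (measure_mono h3).trans ((measure_biUnion_finset_le _ _).trans ?_)
    simp only [Real.volume_closedBall]
    rw [← ENNReal.ofReal_sum_of_nonneg (fun _ _ => by positivity)]
    apply ENNReal.ofReal_le_ofReal
    rw [← Finset.mul_sum]
    exact mul_le_mul_of_nonneg_left (hD k) (by norm_num)
  refine ne_top_of_le_ne_top ?_ (ENNReal.tsum_le_tsum h2)
  rw [← ENNReal.ofReal_tsum_of_nonneg (fun _ => by positivity)]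
  · exact ENNReal.ofReal_ne_top
  · exact (summable_geometric_two).mul_left 2

/-- No subgroup is a Luzin set for the ideal `I`. -/
theorem no_group {n : ℕ} {I : Set (Fin n → ℝ) → Prop} {K J : Type} {T : Set K}
    {Rel : J → ℕ → ℕ → Finset ℕ → Finset ℕ → Prop} {bad : J → Set ℝ}
    (hbad : ∀ j (y y' : ℝ), (∀ k, ∃ n σ τ, Rel j k n σ τ ∧
      (∀ i < n, dg y' i ↔ i ∈ σ) ∧ ∀ i < n, dg y i ↔ i ∈ τ) → y - y' ∈ bad j)
    (hI : ∀ j (i : Fin n), I {v | v i ∈ bad j}) (hesc : Esc T Rel) (hT : T.Infinite)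
    {κ : Cardinal.{0}} (hTκ : #T < κ) (G : AddSubgroup (Fin n → ℝ)) (hG : κ ≤ #G)
    (hG2 : ∀ A, I A → #(↥((G : Set (Fin n → ℝ)) ∩ A)) < κ) : False := by
  classical
  have hT0 : ℵ₀ ≤ #T := by
    have : Infinite T := hT.to_subtype
    exact aleph0_le_mk T
  have hκ : ℵ₀ ≤ κ := hT0.trans hTκ.le
  -- a coordinate with many digit sequences
  obtain ⟨i, hi⟩ : ∃ i : Fin n, #T ≤ #(↥((fun v : Fin n → ℝ => dg (v i)) '' (G : Set _))) := by
    by_contra hcon
    push Not at hcon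
    have h1 : ∀ i : Fin n, #(↥((fun v : Fin n → ℝ => dg (v i)) '' (G : Set _)) × ℤ) ≤ #T := by
      intro i
      rw [mk_prod, lift_id, lift_id, mk_int]
      exact (mul_le_mul' (hcon i).le hT0).trans (mul_eq_self hT0).le
    have h2 : ∀ i : Fin n, Nonempty ((↥((fun v : Fin n → ℝ => dg (v i)) '' (G : Set _)) × ℤ) ↪ T) :=
      fun i => (Cardinal.le_def _ _).1 (h1 i)
    let F : G → (Fin n → T) := fun v i => (h2 i).some
      (⟨dg (v.1 i), ⟨v.1, v.2, rfl⟩⟩, ⌊v.1 i⌋)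
    have hF : Function.Injective F := by
      intro v v' hvv
      apply Subtype.ext
      funext i
      have h3 := (h2 i).some.injective (congrFun hvv i)
      simp only [Prod.mk.injEq, Subtype.mk.injEq] at h3
      exact dg_inj (fun k => iff_of_eq (congrFun h3.1 k)) h3.2
    have h4 : #G ≤ #T := by
      refine (mk_le_of_injective hF).trans ?_
      rw [← power_def, mk_fin]
      exact power_nat_le hT0
    exact absurd (hG.trans h4) (not_le.2 hTκ)
  obtain ⟨e⟩ := (Cardinal.le_def _ _).1 hi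
  choose g hg1 hg2 using fun a : T => (e a).2
  have hg2' : ∀ a : T, dg (g a i) = (e a).1 := hg2
  -- the elements which are not covered
  have hv : ∀ j, ∃ v ∈ G, ∀ a : T, (v - g a) i ∉ bad j := by
    intro j
    by_contra hcon
    push Not at hcon
    have : Nonempty T := hT.nonempty.to_subtype
    choose! a ha using hcon
    let A : Set (Fin n → ℝ) := {v | v i ∈ bad j}
    let F : G → T × ↥((G : Set (Fin n → ℝ)) ∩ A) := fun v =>
      (a v.1, ⟨v.1 - g (a v.1), G.sub_mem v.2 (hg1 _), ha v.1 v.2⟩)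
    have hF : Function.Injective F := by
      intro v v' h
      have h1 : a v.1 = a v'.1 := congrArg Prod.fst h
      have h2 : v.1 - g (a v.1) = v'.1 - g (a v'.1) := congrArg (fun p => p.2.1) h
      rw [h1] at h2
      exact Subtype.ext (sub_left_injective h2)
    have h3 : #G ≤ #T * #(↥((G : Set (Fin n → ℝ)) ∩ A)) := by
      refine (mk_le_of_injective hF).trans ?_
      rw [mk_prod, lift_id, lift_id]
    exact absurd (hG.trans h3) (not_le.2 (mul_lt_of_lt hκ hTκ (hG2 A (hI j i))))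
  choose v hv1 hv2 using hv
  obtain ⟨j, α, hα, h⟩ := hesc (fun a => if h : a ∈ T then dg (g ⟨a, h⟩ i) else fun _ => True)
    (fun j => dg (v j i)) (by
      rintro a b ⟨ha, hb, hab⟩
      beta_reduce
      rw [dif_pos ha, dif_pos hb, hg2', hg2']
      by_contra hcon
      push Not at hcon
      have h1 : (e ⟨a, ha⟩).1 = (e ⟨b, hb⟩).1 := by
        funext k
        exact propext (hcon k)
      exact hab (congrArg Subtype.val (e.injective (Subtype.ext h1))))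
  refine hv2 j ⟨α, hα⟩ (hbad j _ _ fun k => ?_)
  obtain ⟨m, σ, τ, h1, h2, h3⟩ := h k
  refine ⟨m, σ, τ, h1, fun l hl => ?_, h3⟩
  have h4 := h2 l hl
  rw [dif_pos hα] at h4
  exact h4

end Pool.Agent.U775.LG
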