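import Pool.Agent.U775.LG.Exist
import Pool.Agent.U775.LG.Group
import Pool.Agent.U775.LG.CofN

set_option autoImplicit false

/-!
# Luzin sets for the ideal of null sets
-/

namespace Pool.Agent.U775.LG

open Set Cardinal Filter Topology MeasureTheory

theorem exists_basis (X : Type) [TopologicalSpace X] [SecondCountableTopology X] [Nonempty X] :
    ∃ B : ℕ → Set X, TopologicalSpace.IsTopologicalBasis (range B) := by
  obtain ⟨b, h1, -, h2⟩ := TopologicalSpace.exists_countable_basis X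
  obtain ⟨f, hf⟩ := h1.exists_eq_range (by
    obtain ⟨x⟩ := (inferInstance : Nonempty X)
    obtain ⟨u, hu, -⟩ := h2.exists_subset_of_mem_open (mem_univ x) isOpen_univ
    exact ⟨u, hu⟩)
  exact ⟨f, hf ▸ h2⟩

theorem continuum_le_of_null {n : ℕ} (hn : 0 < n) {N : Set (Fin n → ℝ)} (hN : volume N = 0) :
    𝔠 ≤ #(↥Nᶜ) := by
  have h : ∀ x : Fin n → ℝ, ∃ y ∉ N, x - y ∉ N := by
    intro x
    have h1 : volume ((fun y : Fin n → ℝ => x - y) ⁻¹' N) = 0 :=
      (Measure.measurePreserving_sub_left volume x).quasiMeasurePreserving.preimage_null hN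
    have h2 : volume (N ∪ (fun y : Fin n → ℝ => x - y) ⁻¹' N) = 0 := measure_union_null hN h1
    have h3 : N ∪ (fun y : Fin n → ℝ => x - y) ⁻¹' N ≠ Set.univ := by
      intro h4
      rw [h4] at h2
      exact NeZero.ne (volume : Measure (Fin n → ℝ)) (Measure.measure_univ_eq_zero.1 h2)
    obtain ⟨y, hy⟩ := (ne_univ_iff_exists_notMem _).1 h3
    exact ⟨y, fun h => hy (Or.inl h), fun h => hy (Or.inr h)⟩
  choose y h1 h2 using h
  let f : ℝ → ↥Nᶜ × ↥Nᶜ := fun x => (⟨y fun _ => x, h1 _⟩, ⟨(fun _ => x) - y fun _ => x, h2 _⟩)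
  have hf : Function.Injective f := by
    intro x x' hxx
    have h3 : (y fun _ => x) = y fun _ => x' := congrArg (fun p => p.1.1) hxx
    have h4 : ((fun _ => x) - y fun _ => x) = (fun _ => x') - y fun _ => x' :=
      congrArg (fun p => p.2.1) hxx
    rw [h3] at h4
    exact congrFun (sub_left_injective h4) ⟨0, hn⟩
  have h3 := mk_le_of_injective hf
  rw [← mul_def, mk_real] at h3
  have h5 : ℵ₀ ≤ #(↥Nᶜ) := by
    by_contra hcon
    rw [not_le] at hcon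
    exact absurd (aleph0_le_continuum.trans h3) (not_le.2 (mul_lt_aleph0 hcon hcon))
  exact h3.trans (mul_eq_self h5).le

theorem mk_le_continuum' {K : Type}
    (hd : ∃ s : K → ℕ → Prop, ∀ a b, a ≠ b → ∃ i, ¬ (s a i ↔ s b i)) :
    #K ≤ 𝔠 := by
  obtain ⟨s, hs⟩ := hd
  have h1 : Function.Injective s := by
    intro a b hab
    by_contra hne
    obtain ⟨i, hi⟩ := hs a b hne
    rw [hab] at hi
    exact hi Iff.rfl
  have h2 := mk_le_of_injective h1
  simpa using h2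

variable {Ω K W H Δ : Type} [LinearOrder Ω] {r : K → Ω} {C : W → ℕ → Finset ℕ}

/-- Luzin sets for the null ideal in `ℝⁿ` -/
theorem luzinN [Nonempty Ω] (hΩ : ∀ ξ : Ω, (Iio ξ).Countable) (hmax : ∀ ξ : Ω, ∃ η, ξ < η)
    (hinf : ∀ ξ, {a | r a = ξ}.Infinite) (hC : ∀ w k, (C w k).card ≤ 2 ^ k)
    (hloc : ∃ g : Ω → W, ∀ f : ℕ → ℕ, ∃ ξ, ∀ n, f n ∈ C (g ξ) n)
    (hdist : ∃ s : K → ℕ → Prop, ∀ a b, a ≠ b → ∃ i, ¬ (s a i ↔ s b i))
    (hsize : ∀ ξ η, ξ < η → ∀ F : K → K, ∃ b, r b = η ∧ ∀ a, r a = ξ → F a ≠ b)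
    {n : ℕ} (hn : 0 < n) :
    ∃ A : Set (Fin n → ℝ), #K ≤ #A ∧ ∀ B, volume B = 0 → #(↥(A ∩ B)) < #K := by
  obtain ⟨g, hg⟩ := hloc
  have hlt : ∀ ξ η, ξ < η → #{a | r a = ξ} < #{a | r a = η} :=
    fun ξ η h => level_lt hinf hsize h
  obtain ⟨U, hU⟩ := exists_basis (Fin n → ℝ)
  obtain ⟨A, h1, h2⟩ := exists_luzin hΩ hmax hinf hlt (I := fun B : Set (Fin n → ℝ) => volume B = 0)
    (F := fun ξ => nullR U volume (C (g ξ))) (fun B hB => by
      obtain ⟨f, hf⟩ := exists_codeR U volume hU hB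
      obtain ⟨ξ, h3⟩ := hg f
      exact ⟨ξ, hf _ h3⟩) (fun ξ => by
      refine (mk_le_continuum' hdist).trans ?_
      have h3 : (Iic ξ).Countable := by
        have h3 : Iic ξ ⊆ insert ξ (Iio ξ) := fun s hs => (show s ≤ ξ from hs).eq_or_lt
        exact ((hΩ ξ).insert ξ).mono h3
      have h4 : volume (⋃ η ∈ Iic ξ, nullR U volume (C (g η))) = 0 :=
        (measure_biUnion_null_iff h3).2 fun η _ => nullR_null U volume (hC _)
      refine (continuum_le_of_null hn h4).trans (mk_le_mk_of_subset ?_)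
      intro x hx η hη hcon
      exact hx (mem_biUnion (show η ∈ Iic ξ from hη) hcon))
  exact ⟨A, h1, h2⟩

/-- No subgroup is a Luzin set for the null ideal. -/
theorem no_luzinN [Nonempty Ω] {D : Δ → ℕ → Finset (ℕ × ℤ)} (hmax : ∀ ξ : Ω, ∃ η, ξ < η)
    (hinf : ∀ ξ, {a | r a = ξ}.Infinite)
    (hD : ∀ j k, ∑ p ∈ D j k, (1 / 2 : ℝ) ^ p.1 ≤ (1 / 2) ^ k)
    (hsize : ∀ ξ η, ξ < η → ∀ F : K → K, ∃ b, r b = η ∧ ∀ a, r a = ξ → F a ≠ b)
    (hesc : ∀ ξ, Esc {a | r a = ξ} (fun j => RelN (D j)))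
    {n : ℕ} (G : AddSubgroup (Fin n → ℝ)) (hG : #K ≤ #G)
    (hG2 : ∀ A, volume A = 0 → #(↥((G : Set (Fin n → ℝ)) ∩ A)) < #K) : False := by
  obtain ⟨ξ⟩ := (inferInstance : Nonempty Ω)
  have hlt : ∀ ξ η, ξ < η → #{a | r a = ξ} < #{a | r a = η} :=
    fun ξ η h => level_lt hinf hsize h
  refine no_group (I := fun A => volume A = 0) (bad := fun j => badN (D j)) (fun j y y' h1 =>
    badN_of h1) (fun j i => ?_) (hesc ξ) (hinf ξ) (level_lt_mk hmax hlt ξ) G hG hG2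
  exact (Measure.quasiMeasurePreserving_eval (fun _ : Fin n => (volume : Measure ℝ)) i).preimage_null
    (badN_null (hD j))

end Pool.Agent.U775.LG
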