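import Mathlib
import Pool.Agent.Helper126.Sus.Forc
import Pool.Agent.W876.Two.Gen

set_option autoImplicit false

/-!
# The combinatorial principle, and its translation into the forcing language
-/

namespace Pool.Agent.U775.LG

open Pool.Agent.Helper126.Sus.Forc
open Pool.Agent.W876.Two.Gen (IsFun)

/-- The natural number with the `n` binary digits given by `σ`: the digit with the weight
`2 ^ (n - 1 - i)` is `1` if and only if `i` belongs to `σ`. -/
def val : ℕ → Finset ℕ → ℕ
  | 0, _ => 0
  | n + 1, σ => 2 * val n σ + (if n ∈ σ then 1 else 0)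

/-- The binary numbers given by the digits of `τ` and of `σ` with the indices in the interval
`[h k, n)`, where `h k ≤ n ≤ h (k + 1)`, differ by more than `1` modulo `2 ^ (n - h k)`. -/
def RelM (h : ℕ → ℕ) (k n : ℕ) (σ τ : Finset ℕ) : Prop :=
  h k ≤ n ∧ n ≤ h (k + 1) ∧
    ∀ j : ℤ, |j| ≤ 1 → ¬ (2 : ℤ) ^ (n - h k) ∣ (val n τ : ℤ) - val n σ - j

/-- The difference of the binary numbers given by `τ` and `σ` belongs to a given set. -/
def RelN (D : ℕ → Finset (ℕ × ℤ)) (k n : ℕ) (σ τ : Finset ℕ) : Prop :=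
  (n, (val n τ : ℤ) - val n σ) ∈ D k

/-- For all subsets `x α` of `ℕ` which are different for different `α` in `T` and all subsets `z j`
of `ℕ` there are `j` and `α` in `T` such that for every `k` there are `n`, `σ`, `τ` with
`Rel j k n σ τ` such that `x α` agrees with `σ` and `z j` agrees with `τ` below `n`. -/
def Esc {ι J : Type} (T : Set ι) (Rel : J → ℕ → ℕ → Finset ℕ → Finset ℕ → Prop) : Prop :=
  ∀ (x : ι → ℕ → Prop) (z : J → ℕ → Prop),
    (∀ α β, α ∈ T ∧ β ∈ T ∧ α ≠ β → ∃ i, ¬ (x α i ↔ x β i)) →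
    ∃ j, ∃ α ∈ T, ∀ k, ∃ n σ τ, Rel j k n σ τ ∧ (∀ i < n, x α i ↔ i ∈ σ) ∧
      ∀ i < n, z j i ↔ i ∈ τ

/-- The principle for a map `r` from `K` to `Ω` (its fibers are the levels of `K`), slaloms `C w`,
strictly increasing functions `h j`, and sequences `D j` of finite sets. -/
structure Principle {Ω K W H Δ : Type} [LT Ω] (r : K → Ω) (C : W → ℕ → Finset ℕ)
    (h : H → ℕ → ℕ) (D : Δ → ℕ → Finset (ℕ × ℤ)) : Prop where
  /-- Every function from `ℕ` to `ℕ` is captured by one of the slaloms `C (g ξ)`, `ξ` in `Ω`. -/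
  loc : ∃ g : Ω → W, ∀ f : ℕ → ℕ, ∃ ξ, ∀ n, f n ∈ C (g ξ) n
  /-- There are at least as many sets of natural numbers as elements of `K`. -/
  dist : ∃ s : K → ℕ → Prop, ∀ a b, a ≠ b → ∃ i, ¬ (s a i ↔ s b i)
  /-- No function maps a level of `K` onto a higher level. -/
  size : ∀ ξ η, ξ < η → ∀ F : K → K, ∃ b, r b = η ∧ ∀ a, r a = ξ → F a ≠ b
  /-- The escape property for the first relation. -/
  escM : ∀ ξ, Esc {a | r a = ξ} (fun j => RelM (h j))
  /-- The escape property for the second relation. -/
  escN : ∀ ξ, Esc {a | r a = ξ} (fun j => RelN (D j))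

section

variable {P : Type} [Preorder P]

/-- `φ` if and only if `ψ` -/
def fiff (φ ψ : Set P) : Set P := fand (fimp φ ψ) (fimp ψ φ)

/-- The sentence: the subset of `ℕ` with the name `x` agrees with `σ` below `n`. -/
def AgN (x : ℕ → Set P) (n : ℕ) (σ : Finset ℕ) : Set P :=
  fall fun i => fimp (fground (i < n)) (fiff (meets (x i)) (fground (i ∈ σ)))

/-- The sentence which expresses `Esc T Rel`. -/
def EscN {ι J : Type} (T : Set ι) (Rel : J → ℕ → ℕ → Finset ℕ → Finset ℕ → Prop) :
    Set P :=
  fall fun x : ι → ℕ → Set P => fall fun z : J → ℕ → Set P =>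
    fimp (fall fun α => fall fun β => fall fun _ : α ∈ T ∧ β ∈ T ∧ α ≠ β =>
      fex fun i => fnot (fiff (meets (x α i)) (meets (x β i))))
    (fex fun j => fex fun α => fex fun _ : α ∈ T => fall fun k => fex fun n => fex fun σ =>
      fex fun τ => fand (fground (Rel j k n σ τ)) (fand (AgN (x α) n σ) (AgN (z j) n τ)))

/-- The sentence which expresses the first part of the principle. -/
def LocN (Ω : Type) {W : Type} (C : W → ℕ → Finset ℕ) : Set P :=
  fex fun g : Ω → W → Set P => fand (IsFun g) (fall fun f : ℕ → ℕ → Set P => fimp (IsFun f)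
    (fex fun ξ => fex fun w => fand (meets (g ξ w))
      (fall fun n => fex fun v => fand (fground (v ∈ C w n)) (meets (f n v)))))

/-- The sentence which expresses the second part of the principle. -/
def DistN (K : Type) : Set P :=
  fex fun s : K → ℕ → Set P => fall fun a => fall fun b => fall fun _ : a ≠ b =>
    fex fun i => fnot (fiff (meets (s a i)) (meets (s b i)))

/-- The sentence which expresses the third part of the principle. -/
def SizeN {Ω K : Type} [LT Ω] (r : K → Ω) : Set P :=
  fall fun ξ => fall fun η => fall fun _ : ξ < η => fall fun F : K → K → Set P =>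
    fimp (IsFun F) (fex fun b => fand (fground (r b = η))
      (fall fun a => fall fun _ : r a = ξ => fnot (meets (F a b))))

end

/-- The principle in the forcing language. -/
def ForcedPrinciple (P : Type) [Preorder P] {Ω K W H Δ : Type} [LT Ω] (r : K → Ω)
    (C : W → ℕ → Finset ℕ) (h : H → ℕ → ℕ) (D : Δ → ℕ → Finset (ℕ × ℤ)) : Set P :=
  fand (LocN Ω C) (fand (DistN K) (fand (SizeN r)
    (fand (fall fun ξ => EscN {a | r a = ξ} (fun j => RelM (h j)))
      (fall fun ξ => EscN {a | r a = ξ} (fun j => RelN (D j))))))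

end Pool.Agent.U775.LG
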