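import Pool.Agent.U775.LG.Fus
import Pool.Agent.U775.MH.Family
import Pool.Agent.U775.LG.Defs

set_option autoImplicit false

/-!
# Small antichains, small sets of coordinates, undecided names
-/

namespace Pool.Agent.U775.LG

open Set Cardinal Pool.Agent.R594.Rai Pool.Agent.Helper126.Sus.Forc Pool.Agent.Helper669.KDelta
open Pool.Agent.U775.MH (pigeon)

variable {K : Type} {Q : Type} [Preorder Q]

open Classical in
/-- the restriction of a condition to a set of coordinates -/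
noncomputable def rs (p : SC K) (S : Set K) : SC K where
  f ξ n := if ξ ∈ S then p.f ξ n else none
  countable := by
    refine p.countable.mono ?_
    rintro ξ ⟨n, hn⟩
    by_cases h : ξ ∈ S
    · rw [if_pos h] at hn
      exact ⟨n, hn⟩
    · rw [if_neg h] at hn
      exact absurd rfl hn
  infinite ξ := by
    refine (p.infinite ξ).mono ?_
    intro n hn
    show (if ξ ∈ S then p.f ξ n else none) = none
    split_ifs
    · exact hn
    · rfl

theorem rs_of {p : SC K} {S : Set K} {ξ : K} (h : ξ ∈ S) (n : ℕ) : (rs p S).f ξ n = p.f ξ n := by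
  classical
  show (if ξ ∈ S then p.f ξ n else none) = _
  rw [if_pos h]

theorem rs_not {p : SC K} {S : Set K} {ξ : K} (h : ξ ∉ S) (n : ℕ) : (rs p S).f ξ n = none := by
  classical
  show (if ξ ∈ S then p.f ξ n else none) = _
  rw [if_neg h]

theorem in_rs (p : SC K) (S : Set K) : In S (rs p S) := fun _ hξ n => rs_not hξ n

theorem rs_le (p : SC K) (S : Set K) : p ≤ rs p S := by
  intro ξ n b hb
  by_cases h : ξ ∈ S
  · rwa [rs_of h] at hb
  · rw [rs_not h] at hb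
    exact absurd hb (by simp)

theorem rs_le_of {p p0 : SC K} {S : Set K} (hp0 : In S p0) (h : p ≤ p0) : rs p S ≤ p0 := by
  intro ξ n b hb
  have hξ : ξ ∈ S := by
    by_contra hcon
    rw [hp0 ξ hcon n] at hb
    exact absurd hb (by simp)
  rw [rs_of hξ]
  exact h ξ n b hb

theorem rs_eq_iff {p q : SC K} {S : Set K} : rs p S = rs q S ↔ ∀ ξ ∈ S, ∀ n, p.f ξ n = q.f ξ n := by
  constructor
  · intro h ξ hξ n
    rw [← rs_of hξ, h, rs_of hξ]
  · intro h
    have h1 : (rs p S).f = (rs q S).f := by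
      funext ξ n
      by_cases hξ : ξ ∈ S
      · rw [rs_of hξ, rs_of hξ, h ξ hξ n]
      · rw [rs_not hξ, rs_not hξ]
    generalize rs p S = a at *
    generalize rs q S = b at *
    obtain ⟨f, h1', h2'⟩ := a
    obtain ⟨f', h1'', h2''⟩ := b
    simp only at h1
    subst h1
    rfl

/-- two conditions which agree on the common support are compatible -/
theorem exists_common {p q : SC K} (h : ∀ ξ n m, p.f ξ n ≠ none → q.f ξ m ≠ none →
    ∀ l, p.f ξ l = q.f ξ l) : ∃ r, r ≤ p ∧ r ≤ q := by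
  classical
  refine ⟨⟨fun ξ n => if ∃ m, p.f ξ m ≠ none then p.f ξ n else q.f ξ n, ?_, ?_⟩, ?_, ?_⟩
  · refine (p.countable.union q.countable).mono ?_
    rintro ξ ⟨n, hn⟩
    by_cases h1 : ∃ m, p.f ξ m ≠ none
    · exact Or.inl h1
    · rw [if_neg h1] at hn
      exact Or.inr ⟨n, hn⟩
  · intro ξ
    by_cases h1 : ∃ m, p.f ξ m ≠ none
    · simp only [if_pos h1]
      exact p.infinite ξ
    · simp only [if_neg h1]
      exact q.infinite ξ
  · intro ξ n b hb
    have h1 : ∃ m, p.f ξ m ≠ none := ⟨n, by rw [hb]; simp⟩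
    show (if ∃ m, p.f ξ m ≠ none then p.f ξ n else q.f ξ n) = some b
    rw [if_pos h1, hb]
  · intro ξ n b hb
    show (if ∃ m, p.f ξ m ≠ none then p.f ξ n else q.f ξ n) = some b
    by_cases h1 : ∃ m, p.f ξ m ≠ none
    · obtain ⟨m, hm⟩ := h1
      rw [if_pos ⟨m, hm⟩, h ξ m n hm (by rw [hb]; simp) n, hb]
    · rw [if_neg h1, hb]

/-- a large family of conditions contains two compatible ones -/
theorem cc [Nonempty K] (hQ : #Q ≤ 𝔠) {ι : Type} {T : Set ι} (hT : ¬ #T ≤ 𝔠)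
    (w : ι → Q × SC K) : ∃ i ∈ T, ∃ j ∈ T, i ≠ j ∧ ∃ r, r ≤ w i ∧ r ≤ w j := by
  obtain ⟨T1, R, h1, h2, h3⟩ := weak_delta (c := 𝔠) (E := T) aleph0_le_continuum hT
    (fun i => {ξ | ∃ n, (w i.1).2.f ξ n ≠ none}) (fun i => lt_of_le_of_lt
      (le_aleph0_iff_set_countable.2 (w i.1).2.countable) aleph0_lt_continuum)
  obtain ⟨⟨c, p⟩, h4⟩ := pigeon (Y := Q × {p : SC K // In R p}) h1 (by
      rw [mk_prod, lift_id, lift_id]
      exact (mul_le_mul' hQ (mk_in_le h2)).trans (by rw [continuum_mul_self]))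
    (fun i => ((w i.1).1, ⟨rs (w i.1).2 R, in_rs _ _⟩))
  have h5 : ¬ {i | i ∈ T1 ∧ ((w i.1).1, (⟨rs (w i.1).2 R, in_rs _ _⟩ : {p : SC K // In R p})) =
      (c, p)}.Subsingleton := fun h => h4 (small_subsingleton aleph0_le_continuum h)
  rw [Set.not_subsingleton_iff] at h5
  obtain ⟨i, ⟨hi1, hi2⟩, j, ⟨hj1, hj2⟩, hij⟩ := h5
  have h6 : (w i.1).1 = (w j.1).1 := (congrArg Prod.fst hi2).trans (congrArg Prod.fst hj2).symm
  have h7 : rs (w i.1).2 R = rs (w j.1).2 R := by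
    have := (congrArg Prod.snd hi2).trans (congrArg Prod.snd hj2).symm
    exact congrArg Subtype.val this
  rw [rs_eq_iff] at h7
  obtain ⟨r, hr1, hr2⟩ := exists_common (p := (w i.1).2) (q := (w j.1).2) (by
    intro ξ n m hn hm l
    exact h7 ξ (h3 i hi1 j hj1 hij ⟨⟨n, hn⟩, ⟨m, hm⟩⟩) l)
  exact ⟨i.1, i.2, j.1, j.2, fun h => hij (Subtype.ext h), ((w i.1).1, r), ⟨le_rfl, hr1⟩,
    ⟨h6.le, hr2⟩⟩

theorem closed [Nonempty K] (hQ : #Q ≤ 𝔠) {ι : Type} (hι : #ι ≤ 𝔠) (D : ι → Set (Q × SC K))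
    (hD : ∀ i p, ∃ q ≤ p, q ∈ D i) {S0 : Set K} (hS0 : #S0 ≤ 𝔠) :
    ∃ S : Set K, S0 ⊆ S ∧ #S ≤ 𝔠 ∧ ∀ i w, In S w.2 → ∃ q ≤ w, In S q.2 ∧ q ∈ D i := by
  obtain ⟨S, h1, h2, h3⟩ := exists_closed (ι := ι × Q) (by
    rw [mk_prod, lift_id, lift_id]
    exact (mul_le_mul' hι hQ).trans (by rw [continuum_mul_self]))
    (fun i => {p | ∃ c ≤ i.2, (c, p) ∈ D i.1}) (by
      rintro ⟨i, c⟩ p
      obtain ⟨q, hq, hq'⟩ := hD i (c, p)
      exact ⟨q.2, hq.2, q.1, hq.1, hq'⟩) hS0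
  refine ⟨S, h1, h2, fun i w hw => ?_⟩
  obtain ⟨q, hq1, hq2, c, hc, hq3⟩ := h3 (i, w.1) w.2 hw
  exact ⟨(c, q), ⟨hc, hq1⟩, hq2, hq3⟩

section

variable {P : Type} [Preorder P]

/-- the condition decides that the subset of `ℕ` with the name `x` agrees with `σ` below `n` -/
def Ag (x : ℕ → Set P) (n : ℕ) (σ : Finset ℕ) : Set P :=
  {w | ∀ i < n, (i ∈ σ → w ∈ meets (x i)) ∧ (i ∉ σ → w ∈ fnot (meets (x i)))}

theorem Ag_down {x : ℕ → Set P} {n : ℕ} {σ : Finset ℕ} {w w' : P} (h : w ∈ Ag x n σ)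
    (hw : w' ≤ w) : w' ∈ Ag x n σ := fun i hi =>
  ⟨fun hσ => meets_down ((h i hi).1 hσ) hw, fun hσ => fnot_down ((h i hi).2 hσ) hw⟩

theorem Ag_mono {x : ℕ → Set P} {n m : ℕ} {σ : Finset ℕ} {w : P} (h : w ∈ Ag x n σ)
    (hm : m ≤ n) : w ∈ Ag x m (σ ∩ Finset.range m) := by
  intro i hi
  constructor
  · intro h1
    exact (h i (hi.trans_le hm)).1 (Finset.mem_inter.1 h1).1
  · intro h1
    refine (h i (hi.trans_le hm)).2 fun h2 => h1 (Finset.mem_inter.2 ⟨h2, Finset.mem_range.2 hi⟩)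

/-- a sentence is decided by an extension -/
theorem exists_decides (φ : Set P) (w : P) : ∃ w' ≤ w, w' ∈ meets φ ∨ w' ∈ fnot (meets φ) := by
  by_cases h : w ∈ fnot (meets φ)
  · exact ⟨w, le_rfl, Or.inr h⟩
  · simp only [mem_fnot, not_forall, not_not] at h
    obtain ⟨w', h1, h2⟩ := h
    exact ⟨w', h1, Or.inl h2⟩

theorem not_both {φ : Set P} {w : P} (h : w ∈ meets φ) (h' : w ∈ fnot (meets φ)) : False :=
  h' w le_rfl h

/-- two decisions by compatible conditions agree -/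
theorem Ag_iff {x : ℕ → Set P} {n m : ℕ} {σ τ : Finset ℕ} {w w' r : P} (h : w ∈ Ag x n σ)
    (h' : w' ∈ Ag x m τ) (hr : r ≤ w) (hr' : r ≤ w') {i : ℕ} (hi : i < n) (hi' : i < m) :
    i ∈ σ ↔ i ∈ τ := by
  have h1 := Ag_down h hr
  have h2 := Ag_down h' hr'
  constructor
  · intro h3
    by_contra h4
    exact not_both ((h1 i hi).1 h3) ((h2 i hi').2 h4)
  · intro h3
    by_contra h4
    exact not_both ((h2 i hi').1 h3) ((h1 i hi).2 h4)

theorem Ag_eq {x : ℕ → Set P} {n : ℕ} {σ τ : Finset ℕ} {w w' r : P} (h : w ∈ Ag x n σ)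
    (h' : w' ∈ Ag x n τ) (hr : r ≤ w) (hr' : r ≤ w') (hσ : σ ⊆ Finset.range n)
    (hτ : τ ⊆ Finset.range n) : σ = τ := by
  ext i
  constructor
  · intro h3
    exact (Ag_iff h h' hr hr' (Finset.mem_range.1 (hσ h3)) (Finset.mem_range.1 (hσ h3))).1 h3
  · intro h3
    exact (Ag_iff h h' hr hr' (Finset.mem_range.1 (hτ h3)) (Finset.mem_range.1 (hτ h3))).2 h3

end

/-- in a closed set of coordinates, or with all coordinates, initial segments can be decided -/
theorem exists_Ag {S : Set K} {x : ℕ → Set (Q × SC K)} (hx : ∀ i (w : Q × SC K), In S w.2 →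
    ∃ q ≤ w, In S q.2 ∧ (q ∈ meets (x i) ∨ q ∈ fnot (meets (x i)))) (n : ℕ) {w : Q × SC K}
    (hw : In S w.2) : ∃ q ≤ w, In S q.2 ∧ ∃ σ ⊆ Finset.range n, q ∈ Ag x n σ := by
  classical
  induction n with
  | zero => exact ⟨w, le_rfl, hw, ∅, Finset.empty_subset _, fun i hi => absurd hi (by omega)⟩
  | succ n ih =>
    obtain ⟨q, h1, h2, σ, h3, h4⟩ := ih
    obtain ⟨r, h5, h6, h7⟩ := hx n q h2
    have h8 := Ag_down h4 h5
    rcases h7 with h7 | h7
    · refine ⟨r, h5.trans h1, h6, insert n σ, ?_, ?_⟩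
      · intro i hi
        rcases Finset.mem_insert.1 hi with rfl | hi
        · exact Finset.mem_range.2 (by omega)
        · exact Finset.mem_range.2 ((Finset.mem_range.1 (h3 hi)).trans (by omega))
      · intro i hi
        by_cases hin : i = n
        · subst hin
          exact ⟨fun _ => h7, fun h => absurd (Finset.mem_insert_self _ _) h⟩
        · refine ⟨fun h => (h8 i (by omega)).1 ((Finset.mem_insert.1 h).resolve_left hin),
            fun h => (h8 i (by omega)).2 fun h' => h (Finset.mem_insert_of_mem h')⟩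
    · refine ⟨r, h5.trans h1, h6, σ, fun i hi => ?_, ?_⟩
      · exact Finset.mem_range.2 ((Finset.mem_range.1 (h3 hi)).trans (by omega))
      · intro i hi
        by_cases hin : i = n
        · subst hin
          exact ⟨fun h => absurd (Finset.mem_range.1 (h3 h)) (by omega), fun _ => h7⟩
        · exact h8 i (by omega)

/-- Below `w0` the name `x` is nowhere determined by the coordinates in `S`. -/
def Und (S : Set K) (x : ℕ → Set (Q × SC K)) (w0 : Q × SC K) : Prop :=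
  ∀ w ≤ w0, ∃ (i : ℕ) (c : Q) (p1 p2 : SC K), (c, p1) ≤ w ∧ (c, p2) ≤ w ∧ rs p1 S = rs p2 S ∧
    (c, p1) ∈ meets (x i) ∧ (c, p2) ∈ fnot (meets (x i))

/-- the names `x α` (`α` in `T`) are pairwise different -/
def InjN {ι : Type} (T : Set ι) (x : ι → ℕ → Set (Q × SC K)) : Set (Q × SC K) :=
  fall fun α => fall fun β => fall fun _ : α ∈ T ∧ β ∈ T ∧ α ≠ β =>
    fex fun i => fnot (fiff (meets (x α i)) (meets (x β i)))

theorem exists_und [Nonempty K] (hQ : #Q ≤ 𝔠) {ι : Type} {T : Set ι} (hT : ¬ #T ≤ 2 ^ 𝔠)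
    {S : Set K} (hS : #S ≤ 𝔠) {x : ι → ℕ → Set (Q × SC K)} {w0 : Q × SC K} (hx : w0 ∈ InjN T x) :
    ∃ α ∈ T, Und S (x α) w0 := by
  classical
  by_contra hcon
  push Not at hcon
  have h1 : ∀ α : T, ∃ w ≤ w0, ∀ (i : ℕ) (c : Q) (p1 p2 : SC K), (c, p1) ≤ w → (c, p2) ≤ w →
      rs p1 S = rs p2 S → (c, p1) ∈ meets (x α i) → (c, p2) ∉ fnot (meets (x α i)) := by
    intro α
    have h2 := hcon α.1 α.2
    unfold Und at h2
    push Not at h2
    exact h2
  choose w hw hd using h1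
  -- the part of the name which is read from `S`
  let Y : Type := Set (Q × {p : SC K // In S p} × ℕ × Bool)
  let F : T → Y := fun α => {y | ∃ p, rs p S = y.2.1.1 ∧ (y.1, p) ≤ w α ∧
    (if y.2.2.2 then (y.1, p) ∈ meets (x α y.2.2.1) else (y.1, p) ∈ fnot (meets (x α y.2.2.1)))}
  have hY : #Y ≤ 2 ^ 𝔠 := by
    show #(Set _) ≤ _
    rw [mk_set]
    refine power_le_power_left two_ne_zero ?_
    simp only [mk_prod, lift_id, mk_nat]
    refine (mul_le_mul' hQ (mul_le_mul' (mk_in_le hS) (mul_le_mul' aleph0_le_continuum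
      (mk_le_aleph0.trans aleph0_le_continuum)))).trans ?_
    simp [continuum_mul_self]
  have hc2 : 𝔠 ≤ 2 ^ 𝔠 := (cantor 𝔠).le
  obtain ⟨y, hy⟩ : ∃ y, ¬ #{α | F α = y} ≤ 𝔠 := by
    by_contra hcon
    push Not at hcon
    apply hT
    have h3 : (Set.univ : Set T) ⊆ ⋃ y, {α | F α = y} := fun α _ => mem_iUnion.2 ⟨F α, rfl⟩
    rw [← mk_univ (α := T)]
    exact small_mono h3 (small_iUnion (aleph0_le_continuum.trans hc2) hY _
      (fun y => (hcon y).trans hc2))
  obtain ⟨α, hα, β, hβ, hαβ, r, hr1, hr2⟩ := cc hQ hy w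
  have hne : α.1 ≠ β.1 := fun h => hαβ (Subtype.ext h)
  -- a difference
  obtain ⟨r', hr', i, hi⟩ := mem_fex.1 (hx α.1 β.1 ⟨α.2, β.2, hne⟩) r (hr1.trans (hw α))
  obtain ⟨s, hs, h4⟩ := exists_decides (x α i) r'
  obtain ⟨t, ht, h5⟩ := exists_decides (x β i) s
  have htα : t ≤ w α := ht.trans (hs.trans (hr'.trans hr1))
  have htβ : t ≤ w β := ht.trans (hs.trans (hr'.trans hr2))
  have h4' : t ∈ meets (x α i) ∨ t ∈ fnot (meets (x α i)) :=
    h4.imp (fun h => meets_down h ht) (fun h => fnot_down h ht)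
  have hnot := fnot_down hi (ht.trans hs)
  -- the decisions are different
  have key : ∀ (γ δ : T), γ ∈ {α | F α = y} → δ ∈ {α | F α = y} → t ≤ w γ → t ≤ w δ →
      t ∈ meets (x γ i) → t ∈ fnot (meets (x δ i)) → False := by
    intro γ δ hγ hδ hγt hδt h6 h7
    have h8 : ((t.1, ⟨rs t.2 S, in_rs _ _⟩, i, true) : Q × {p : SC K // In S p} × ℕ × Bool) ∈
        F γ := ⟨t.2, rfl, hγt, by simpa using h6⟩
    rw [show F γ = F δ from hγ.trans hδ.symm] at h8
    obtain ⟨p, hp1, hp2, hp3⟩ := h8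
    simp only [if_true] at hp1 hp2 hp3
    exact hd δ i t.1 p t.2 hp2 hδt hp1 hp3 h7
  rcases h4' with h6 | h6
  · rcases h5 with h7 | h7
    · apply hnot t le_rfl
      refine ⟨?_, ?_⟩
      · rw [mem_fimp]
        exact fun u hu _ => ⟨u, le_rfl, meets_down h7 hu⟩
      · rw [mem_fimp]
        exact fun u hu _ => ⟨u, le_rfl, meets_down h6 hu⟩
    · exact key α β hα hβ htα htβ h6 h7
  · rcases h5 with h7 | h7
    · exact key β α hβ hα htβ htα h7 h6
    · apply hnot t le_rfl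
      refine ⟨?_, ?_⟩
      · rw [mem_fimp]
        exact fun u hu h => absurd h (h6 u hu)
      · rw [mem_fimp]
        exact fun u hu h => absurd h (h7 u hu)

end Pool.Agent.U775.LG
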