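import Pool.Agent.U775.MH.Cantor

set_option autoImplicit false

/-!
# Slaloms and meagre sets
-/

namespace Pool.Agent.U775.LG

open Set Filter Pool.Agent.U775.MH

/-- a block: a position and a finite sequence of bits -/
abbrev Blk : Type := ℕ × List Bool

/-- the point `z` has the bits of the block at the position of the block -/
def Mt (z : ℕ → Bool) (b : Blk) : Prop := ∀ i < b.2.length, z (b.1 + i) = b.2.getD i false

/-- separated blocks -/
def Sp (b b' : Blk) : Prop := b.1 + b.2.length ≤ b'.1 ∨ b'.1 + b'.2.length ≤ b.1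

theorem exists_ext {D : ℕ → List Bool → Prop} (hD : ∀ j s, ∃ t, s <+: t ∧ D j t)
    (L : List (List Bool × ℕ)) : ∃ u : List Bool, ∀ p ∈ L, ∃ t, t <+: p.1 ++ u ∧ D p.2 t := by
  induction L with
  | nil => exact ⟨[], fun p hp => absurd hp (by simp)⟩
  | cons q L ih =>
    obtain ⟨u, hu⟩ := ih
    obtain ⟨t, ht, h1⟩ := hD q.2 (q.1 ++ u)
    obtain ⟨r, rfl⟩ := ht
    refine ⟨u ++ r, fun p hp => ?_⟩
    rcases List.mem_cons.1 hp with rfl | hp
    · exact ⟨_, by rw [List.append_assoc], h1⟩
    · obtain ⟨t, ht, h2⟩ := hu p hp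
      refine ⟨t, ht.trans ?_, h2⟩
      rw [← List.append_assoc]
      exact List.prefix_append _ _

theorem exists_blocks {M : Set (ℕ → Bool)} (h : IsMeagre M) :
    ∃ u : ℕ → List Bool, ∀ z ∈ M, ∃ j, ∀ a ≥ j, ¬ Mt z (a, u a) := by
  classical
  obtain ⟨D, hD1, hD2⟩ := exists_code h
  choose u hu using fun a : ℕ => exists_ext hD1
    (((Finset.univ : Finset (Fin a → Bool)) ×ˢ Finset.range (a + 1)).toList.map
      fun p => (List.ofFn p.1, p.2))
  refine ⟨u, fun z hz => ?_⟩
  obtain ⟨j, hj⟩ := hD2 z hz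
  refine ⟨j, fun a ha hm => ?_⟩
  obtain ⟨t, ht, h1⟩ := hu a (ini z a, j) (List.mem_map.2 ⟨((fun i => z i), j),
    Finset.mem_toList.2 (Finset.mem_product.2 ⟨Finset.mem_univ _, Finset.mem_range.2 (by
      simp only; omega)⟩), rfl⟩)
  refine hj t (cyl_mono ht ?_) h1
  intro i hi
  rw [List.length_append, length_ini] at hi
  by_cases hia : i < a
  · rw [List.getD_append _ _ _ _ (by rwa [length_ini]), getD_ini hia]
  · rw [List.getD_append_right _ _ _ _ (by rw [length_ini]; omega), length_ini]
    have := hm (i - a) (by simp only; omega)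
    simp only at this
    rw [← this]
    congr 1
    omega

theorem greedy {ι : Type*} (m : ℕ) : ∀ (s : Finset ι) (F : ι → Finset Blk), s.card = m →
    (∀ i ∈ s, m ≤ (F i).card ∧ ∀ b ∈ F i, ∀ b' ∈ F i, b ≠ b' → Sp b b') →
    ∃ c : ι → Blk, (∀ i ∈ s, c i ∈ F i) ∧ ∀ i ∈ s, ∀ j ∈ s, i ≠ j → Sp (c i) (c j) := by
  classical
  induction m with
  | zero =>
    intro s F hs _
    rw [Finset.card_eq_zero] at hs
    subst hs
    exact ⟨fun _ => (0, []), fun i hi => absurd hi (Finset.notMem_empty i), fun i hi => absurd hi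
      (Finset.notMem_empty i)⟩
  | succ m ih =>
    intro s F hs hF
    have hne : (s.sigma F).Nonempty := by
      obtain ⟨i, hi⟩ := Finset.card_pos.1 (by omega : 0 < s.card)
      obtain ⟨b, hb⟩ := Finset.card_pos.1 (by have := (hF i hi).1; omega : 0 < (F i).card)
      exact ⟨⟨i, b⟩, Finset.mem_sigma.2 ⟨hi, hb⟩⟩
    obtain ⟨⟨i0, b0⟩, h0, hmin⟩ := Finset.exists_min_image (s.sigma F)
      (fun p => p.2.1 + p.2.2.length) hne
    obtain ⟨hi0, hb0⟩ := Finset.mem_sigma.1 h0
    simp only at hi0 hb0 hmin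
    obtain ⟨c, hc1, hc2⟩ := ih (s.erase i0) (fun i => (F i).filter fun b => Sp b0 b)
      (by rw [Finset.card_erase_of_mem hi0]; omega) (by
        intro i hi
        have his := Finset.mem_of_mem_erase hi
        refine ⟨?_, fun b hb b' hb' hne => (hF i his).2 b (Finset.mem_filter.1 hb).1 b'
          (Finset.mem_filter.1 hb').1 hne⟩
        have h1 : ((F i).filter fun b => ¬ Sp b0 b).card ≤ 1 := by
          rw [Finset.card_le_one]
          intro b hb b' hb'
          rw [Finset.mem_filter] at hb hb'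
          by_contra hne
          have h2 := hmin ⟨i, b⟩ (Finset.mem_sigma.2 ⟨his, hb.1⟩)
          have h3 := hmin ⟨i, b'⟩ (Finset.mem_sigma.2 ⟨his, hb'.1⟩)
          have h4 := hb.2
          have h5 := hb'.2
          simp only [Sp, not_or, not_le] at h2 h3 h4 h5
          rcases (hF i his).2 b hb.1 b' hb'.1 hne with h6 | h6 <;> omega
        have h2 := Finset.card_filter_add_card_filter_not (s := F i) (fun b => Sp b0 b)
        have h3 := (hF i his).1
        omega)
    refine ⟨fun i => if i = i0 then b0 else c i, fun i hi => ?_, fun i hi j hj hij => ?_⟩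
    · beta_reduce
      split_ifs with h1
      · subst h1
        exact hb0
      · exact (Finset.mem_filter.1 (hc1 i (Finset.mem_erase.2 ⟨h1, hi⟩))).1
    · beta_reduce
      split_ifs with h1 h2 h2
      · exact absurd (h1.trans h2.symm) hij
      · exact (Finset.mem_filter.1 (hc1 j (Finset.mem_erase.2 ⟨h2, hj⟩))).2
      · exact (Finset.mem_filter.1 (hc1 i (Finset.mem_erase.2 ⟨h1, hi⟩))).2.symm
      · exact hc2 i (Finset.mem_erase.2 ⟨h1, hi⟩) j (Finset.mem_erase.2 ⟨h2, hj⟩) hij

/-- the set of blocks is admissible at `k` -/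
def Adm (k : ℕ) (F : Finset Blk) : Prop :=
  2 ^ k ≤ F.card ∧ (∀ b ∈ F, k ≤ b.1) ∧ ∀ b ∈ F, ∀ b' ∈ F, b ≠ b' → Sp b b'

open Classical in
/-- the admissible sets of blocks with codes in a finite set -/
noncomputable def cand (k : ℕ) (A : Finset ℕ) : Finset (Finset Blk) :=
  (A.image fun c => (Encodable.decode (α := Finset Blk) c).getD ∅).filter (Adm k)

theorem exists_sel (k : ℕ) (A : Finset ℕ) : ∃ c : Finset Blk → Blk, A.card ≤ 2 ^ k →
    (∀ F ∈ cand k A, c F ∈ F) ∧ ∀ F ∈ cand k A, ∀ F' ∈ cand k A, F ≠ F' → Sp (c F) (c F') := by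
  classical
  by_cases hA : A.card ≤ 2 ^ k
  · have h1 : (cand k A).card ≤ 2 ^ k :=
      (Finset.card_filter_le _ _).trans (Finset.card_image_le.trans hA)
    obtain ⟨c, h2, h3⟩ := greedy (cand k A).card (cand k A) id rfl (by
      intro F hF
      have h4 := (Finset.mem_filter.1 hF).2
      exact ⟨h1.trans h4.1, h4.2.2⟩)
    exact ⟨c, fun _ => ⟨h2, h3⟩⟩
  · exact ⟨fun _ => (0, []), fun h => absurd h hA⟩

/-- the selected blocks -/
noncomputable def sel (k : ℕ) (A : Finset ℕ) : Finset Blk → Blk := (exists_sel k A).choose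

/-- the meagre set of a slalom -/
def meagOf (C : ℕ → Finset ℕ) : Set (ℕ → Bool) :=
  {z | ∃ k0, ∀ k ≥ k0, ∃ F ∈ cand k (C k), ¬ Mt z (sel k (C k) F)}

theorem meagOf_meagre {C : ℕ → Finset ℕ} (hC : ∀ k, (C k).card ≤ 2 ^ k) :
    IsMeagre (meagOf C) := by
  classical
  have h1 : meagOf C = ⋃ k0, {z | ∀ k ≥ k0, ∃ F ∈ cand k (C k), ¬ Mt z (sel k (C k) F)} := by
    ext z
    simp [meagOf]
  rw [h1]
  refine isMeagre_iUnion fun k0 => isMeagre_of_ext fun s => ?_
  set k := max k0 s.length with hk
  obtain ⟨h2, h3⟩ := (exists_sel k (C k)).choose_spec (hC k)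
  -- a point with all the selected blocks
  let Z : ℕ → Bool := fun i => if i < s.length then s.getD i false else
    if h : ∃ F ∈ cand k (C k), (sel k (C k) F).1 ≤ i ∧
      i < (sel k (C k) F).1 + (sel k (C k) F).2.length then
      (sel k (C k) h.choose).2.getD (i - (sel k (C k) h.choose).1) false else false
  have hZ : ∀ F ∈ cand k (C k), Mt Z (sel k (C k) F) := by
    intro F hF i hi
    have h4 : k ≤ (sel k (C k) F).1 := (Finset.mem_filter.1 hF).2.2.1 _ (h2 F hF)
    have h5 : ¬ ((sel k (C k) F).1 + i < s.length) := by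
      have := le_max_right k0 s.length
      omega
    have hex : ∃ F' ∈ cand k (C k), (sel k (C k) F').1 ≤ (sel k (C k) F).1 + i ∧
      (sel k (C k) F).1 + i < (sel k (C k) F').1 + (sel k (C k) F').2.length :=
      ⟨F, hF, by omega, by omega⟩
    show (if (sel k (C k) F).1 + i < s.length then _ else _) = _
    rw [if_neg h5, dif_pos hex]
    have h6 := hex.choose_spec
    have h7 : hex.choose = F := by
      by_contra hne
      have h8 : Sp (sel k (C k) hex.choose) (sel k (C k) F) := h3 _ h6.1 F hF hne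
      rcases h8 with h8 | h8 <;> omega
    rw [h7]
    congr 1
    omega
  set N := max s.length ((cand k (C k)).sup fun F =>
    (sel k (C k) F).1 + (sel k (C k) F).2.length) with hN
  refine ⟨ini Z N, ?_, ?_⟩
  · have h4 : s = ini Z s.length := by
      apply List.ext_getElem (by rw [length_ini])
      intro i hi _
      rw [← List.getD_eq_getElem s false hi, ← List.getD_eq_getElem _ false
        (by rwa [length_ini]), getD_ini hi]
      show _ = (if i < s.length then _ else _)
      rw [if_pos hi]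
    rw [List.prefix_iff_eq_take]
    apply List.ext_getElem
    · rw [List.length_take, length_ini]
      omega
    · intro i hi hi'
      rw [List.getElem_take, ← List.getD_eq_getElem s false hi,
        ← List.getD_eq_getElem _ false (by rw [length_ini]; omega), getD_ini (by omega)]
      show _ = (if i < s.length then _ else _)
      rw [if_pos hi]
  · intro z hz hcon
    obtain ⟨F, hF, h4⟩ := hcon k (le_max_left _ _)
    apply h4
    intro i hi
    have h5 : (sel k (C k) F).1 + (sel k (C k) F).2.length ≤ N :=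
      (Finset.le_sup (f := fun F => (sel k (C k) F).1 + (sel k (C k) F).2.length) hF).trans
        (le_max_right _ _)
    rw [← hZ F hF i hi, hz _ (by rw [length_ini]; omega), getD_ini (by omega)]

theorem exists_codeM {M : Set (ℕ → Bool)} (h : IsMeagre M) :
    ∃ f : ℕ → ℕ, ∀ C : ℕ → Finset ℕ, (∀ k, (C k).card ≤ 2 ^ k) → (∀ k, f k ∈ C k) →
      M ⊆ meagOf C := by
  classical
  obtain ⟨u, hu⟩ := exists_blocks h
  -- the positions
  let p : ℕ → ℕ → ℕ := fun k i => Nat.rec k (fun _ a => a + (u a).length + 1) i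
  have hp : ∀ k i, p k (i + 1) = p k i + (u (p k i)).length + 1 := fun k i => rfl
  have hpm : ∀ k i j, i < j → p k i + (u (p k i)).length < p k j := by
    intro k i j hij
    induction j, hij using Nat.le_induction with
    | base =>
      rw [Nat.succ_eq_add_one, hp]
      omega
    | succ j _ ih =>
      rw [hp]
      omega
  have hp0 : ∀ k i, k ≤ p k i := by
    intro k i
    induction i with
    | zero => exact le_rfl
    | succ i ih =>
      rw [hp]
      omega
  let F : ℕ → Finset Blk := fun k => (Finset.range (2 ^ k)).image fun i => (p k i, u (p k i))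
  have hadm : ∀ k, Adm k (F k) := by
    intro k
    refine ⟨?_, ?_, ?_⟩
    · rw [Finset.card_image_of_injective, Finset.card_range]
      intro i j hij
      have h1 : p k i = p k j := congrArg Prod.fst hij
      rcases lt_trichotomy i j with h2 | h2 | h2
      · have := hpm k i j h2
        omega
      · exact h2
      · have := hpm k j i h2
        omega
    · intro b hb
      obtain ⟨i, -, rfl⟩ := Finset.mem_image.1 hb
      exact hp0 k i
    · intro b hb b' hb' hne
      obtain ⟨i, -, rfl⟩ := Finset.mem_image.1 hb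
      obtain ⟨j, -, rfl⟩ := Finset.mem_image.1 hb'
      rcases lt_trichotomy i j with h2 | h2 | h2
      · exact Or.inl (hpm k i j h2).le
      · subst h2
        exact absurd rfl hne
      · exact Or.inr (hpm k j i h2).le
  refine ⟨fun k => Encodable.encode (F k), fun C hC hf z hz => ?_⟩
  obtain ⟨j, hj⟩ := hu z hz
  refine ⟨j, fun k hk => ?_⟩
  have h1 : F k ∈ cand k (C k) := by
    refine Finset.mem_filter.2 ⟨Finset.mem_image.2 ⟨_, hf k, ?_⟩, hadm k⟩
    rw [Encodable.encodek]
    rfl
  refine ⟨F k, h1, ?_⟩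
  have h2 : sel k (C k) (F k) ∈ F k := ((exists_sel k (C k)).choose_spec (hC k)).1 (F k) h1
  obtain ⟨i, -, h3⟩ := Finset.mem_image.1 h2
  rw [← h3]
  exact hj _ (hk.trans (hp0 k i))

end Pool.Agent.U775.LG
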