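import Pool.Agent.U775.LG.Phase1

set_option autoImplicit false

/-!
# The escape sentence is forced
-/

namespace Pool.Agent.U775.LG

open Set Cardinal Pool.Agent.R594.Rai Pool.Agent.Helper126.Sus.Forc

section

variable {P : Type} [Preorder P]

theorem Ag_subset {x : ℕ → Set P} {n : ℕ} {σ : Finset ℕ} {w : P} (h : w ∈ Ag x n σ) :
    w ∈ AgN x n σ := by
  intro i
  rw [mem_fimp]
  intro q hq hi
  have h1 := Ag_down h hq i hi
  refine ⟨q, le_rfl, ?_, ?_⟩
  · rw [mem_fimp]
    intro u hu hux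
    refine ⟨u, le_rfl, ?_⟩
    show i ∈ σ
    by_contra hcon
    exact h1.2 hcon u hu hux
  · rw [mem_fimp]
    intro u hu hiσ
    exact ⟨u, le_rfl, meets_down (h1.1 hiσ) hu⟩

theorem fex_intro {ι : Sort*} {φ : ι → Set P} {p : P} (i : ι) (h : ∀ q ≤ p, q ∈ φ i) :
    p ∈ fex φ := by
  rw [mem_fex]
  exact fun q hq => ⟨q, le_rfl, i, h q hq⟩

theorem fex_of_dense {ι : Sort*} {φ : ι → Set P} {p : P} (h : ∀ q ≤ p, ∃ r ≤ q, r ∈ fex φ) :
    p ∈ fex φ := by
  rw [mem_fex]
  intro q hq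
  obtain ⟨r, hr, h1⟩ := h q hq
  obtain ⟨s, hs, i, h2⟩ := mem_fex.1 h1 r le_rfl
  exact ⟨s, hs.trans hr, i, h2⟩

end

variable {K : Type} {Q : Type} [Preorder Q]

/-- the selection property -/
def Sel {J : Type} (m : ℕ → ℕ → ℕ) (Rel : J → ℕ → ℕ → Finset ℕ → Finset ℕ → Prop) : Prop :=
  ∀ (g T : ℕ → ℕ) (ent : ℕ → ℕ → Entry), StrictMono g → g 0 = 0 →
    (∀ k, ∀ i < T k, Ok (m k i) (g k) (ent k i) ∧ (ent k i).1 ≤ g (k + 1)) →
    ∃ j : J, ∀ k, ∀ i < T k, ∀ C : Finset (Finset ℕ), C.card ≤ 2 ^ k →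
      (∀ τ ∈ C, τ ⊆ Finset.range (ent k i).1) →
      ∃ σ ∈ (ent k i).2, ∀ τ ∈ C, Rel j k (ent k i).1 σ τ

theorem esc [Nonempty K] (hQ : SClosed Q) (hQc : #Q ≤ 𝔠) {ι J : Type} {T : Set ι}
    (hT : ¬ #T ≤ 2 ^ 𝔠) (hJ : #J ≤ 𝔠) {Rel : J → ℕ → ℕ → Finset ℕ → Finset ℕ → Prop}
    {m : ℕ → ℕ → ℕ} (hsel : Sel m Rel) (w : Q × SC K) : w ∈ EscN T Rel := by
  classical
  intro x z
  rw [mem_fimp]
  intro q _ hinj
  refine ⟨q, le_rfl, ?_⟩
  rw [mem_fex]
  intro r hr
  have hinj' : r ∈ InjN T x := fun α β h => fex_down (hinj α β h) hr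
  -- the closed set of coordinates
  obtain ⟨S, hS0, hS1, hS2⟩ := closed hQc (ι := J × ℕ) (by
      rw [mk_prod, lift_id, lift_id, mk_nat]
      exact (mul_le_mul' hJ aleph0_le_continuum).trans (by rw [continuum_mul_self]))
    (fun i => {u : Q × SC K | u ∈ meets (z i.1 i.2) ∨ u ∈ fnot (meets (z i.1 i.2))})
    (fun i p => exists_decides _ _) (S0 := {ξ | ∃ n, r.2.f ξ n ≠ none})
    (r.2.countable.le_aleph0.trans aleph0_le_continuum)
  obtain ⟨α, hα, hund⟩ := exists_und hQc hT hS1 hinj'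
  obtain ⟨w1, hw1, W, V, g, T', ent, hg, hg0, hVW, hWm, hVS, hWf, hVd, hinf, hent, hmenu⟩ :=
    phase1 hQ hund m
  obtain ⟨j, hj⟩ := hsel g T' ent hg hg0 hent
  -- the name `z j` is captured
  obtain ⟨u, hu1, hu2, C, hC1, hC2⟩ := sacks hQ (S := S) (Y := Finset ℕ)
    (φ := fun k τ => {u | u ∈ Ag (z j) (g (k + 1)) τ ∧ τ ⊆ Finset.range (g (k + 1))})
    (fun k τ p hp q hq => ⟨Ag_down hp.1 hq, hp.2⟩) (w := (w1.1, rs w1.2 S)) (in_rs _ _) (by
      intro k q hq hqS
      obtain ⟨v, h1, h2, τ, h3, h4⟩ := exists_Ag (S := S) (x := z j)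
        (fun i w hw => hS2 (j, i) w hw) (g (k + 1)) hqS
      exact ⟨v, h1, h2, τ, h4, h3⟩)
  -- the choices
  have hch : ∀ k i, ∃ σ, i < T' k → σ ∈ (ent k i).2 ∧ ∀ τ ∈ C k,
      Rel j k (ent k i).1 σ (τ ∩ Finset.range (ent k i).1) := by
    intro k i
    by_cases hi : i < T' k
    · obtain ⟨σ, h1, h2⟩ := hj k i hi ((C k).image fun τ => τ ∩ Finset.range (ent k i).1)
        (Finset.card_image_le.trans (hC1 k)) (by
          intro τ hτ
          obtain ⟨τ', -, rfl⟩ := Finset.mem_image.1 hτ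
          exact Finset.inter_subset_right)
      exact ⟨σ, fun _ => ⟨h1, fun τ hτ => h2 _ (Finset.mem_image_of_mem _ hτ)⟩⟩
    · exact ⟨∅, fun h => absurd h hi⟩
  choose χ hχ using hch
  choose β hβ1 hβ2 using fun k => hmenu k (χ k) (fun i hi => (hχ k i hi).1)
  have hβV : ∀ k (a : K × ℕ), a ∈ V k → ((∃ l, a ∈ β l) ↔ a ∈ β k) := by
    intro k a ha
    constructor
    · rintro ⟨l, hl⟩
      rcases lt_trichotomy l k with h | h | h
      · exact absurd (hWm (show l + 1 ≤ k from h) (hVW l (hβ1 l hl)))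
          (Finset.disjoint_left.1 (hVd k) ha)
      · subst h
        exact hl
      · exact absurd (hWm (show k + 1 ≤ l from h) (hVW k ha))
          (Finset.disjoint_left.1 (hVd l) (hβ1 l hl))
    · exact fun h => ⟨k, h⟩
  -- the condition
  let p2 : SC K :=
    { f := fun ξ n => if ξ ∈ S then u.2.f ξ n else
        if ∃ k, (ξ, n) ∈ V k then some (decide (∃ k, (ξ, n) ∈ β k)) else w1.2.f ξ n
      countable := by
        refine ((u.2.countable.union w1.2.countable).union (countable_iUnion fun k =>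
          ((V k).image Prod.fst).countable_toSet)).mono ?_
        rintro ξ ⟨n, hn⟩
        by_cases h1 : ξ ∈ S
        · rw [if_pos h1] at hn
          exact Or.inl (Or.inl ⟨n, hn⟩)
        · rw [if_neg h1] at hn
          by_cases h2 : ∃ k, (ξ, n) ∈ V k
          · obtain ⟨k, hk⟩ := h2
            refine Or.inr (mem_iUnion.2 ⟨k, ?_⟩)
            rw [Finset.mem_coe, Finset.mem_image]
            exact ⟨_, hk, rfl⟩
          · rw [if_neg h2] at hn
            exact Or.inl (Or.inr ⟨n, hn⟩)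
      infinite := by
        intro ξ
        by_cases h1 : ξ ∈ S
        · simp only [if_pos h1]
          exact u.2.infinite ξ
        · simp only [if_neg h1]
          refine (hinf ξ).mono ?_
          rintro n ⟨h2, h3⟩
          show (if ∃ k, (ξ, n) ∈ V k then _ else w1.2.f ξ n) = none
          rw [if_neg (by push Not; exact h3)]
          exact h2 }
  have hp2u : p2 ≤ u.2 := by
    intro ξ n b hb
    have hξ : ξ ∈ S := by
      by_contra hcon
      rw [hu2 ξ hcon n] at hb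
      exact absurd hb (by simp)
    show (if ξ ∈ S then u.2.f ξ n else _) = some b
    rw [if_pos hξ]
    exact hb
  have hp2w : p2 ≤ w1.2 := by
    intro ξ n b hb
    show (if ξ ∈ S then u.2.f ξ n else if ∃ k, (ξ, n) ∈ V k then _ else w1.2.f ξ n) = some b
    by_cases h1 : ξ ∈ S
    · rw [if_pos h1]
      apply hu1.2
      show (rs w1.2 S).f ξ n = some b
      rw [rs_of h1]
      exact hb
    · rw [if_neg h1, if_neg, hb]
      rintro ⟨k, hk⟩
      have h2 := hWf (k + 1) _ (hVW k hk)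
      rw [hb] at h2
      exact absurd h2 (by simp)
  have hp2V : ∀ k, ∀ a ∈ V k, p2.f a.1 a.2 = some (decide (a ∈ β k)) := by
    intro k a ha
    show (if a.1 ∈ S then u.2.f a.1 a.2 else if ∃ k, (a.1, a.2) ∈ V k then
      some (decide (∃ k, (a.1, a.2) ∈ β k)) else w1.2.f a.1 a.2) = some (decide (a ∈ β k))
    rw [if_neg (hVS k a ha), if_pos ⟨k, ha⟩]
    congr 1
    exact decide_eq_decide.2 (hβV k a ha)
  have hle : ((u.1, p2) : Q × SC K) ≤ r := ⟨hu1.1.trans hw1.1, hp2w.trans hw1.2⟩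
  refine ⟨(u.1, p2), hle, j, ?_⟩
  -- the main claim
  have main : ∀ v ≤ ((u.1, p2) : Q × SC K), v ∈ fall fun k => fex fun n => fex fun σ =>
      fex fun τ => fand (fground (Rel j k n σ τ)) (fand (AgN (x α) n σ) (AgN (z j) n τ)) := by
    intro v hv k
    refine fex_of_dense fun v' hv' => ?_
    have hv'2 : v' ≤ ((u.1, p2) : Q × SC K) := hv'.trans hv
    obtain ⟨s, hs, τ, hτ, hs1, hs2⟩ := hC2 k v' ⟨hv'2.1, hv'2.2.trans hp2u⟩
    obtain ⟨e, he, h1, -⟩ := exists_node (W k) s.2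
    obtain ⟨i, hi, h2⟩ := hβ2 k e he
    have hsp : s.2 ≤ p2 := hs.2.trans hv'2.2
    have h3 : ((s.1, fx s.2 (W k) e) : Q × SC K) ≤
        (w1.1, fx w1.2 (W k ∪ V k) (e ∪ β k)) := by
      refine ⟨(hs.1.trans hv'2.1).trans hu1.1, le_fx (h1.trans (hsp.trans hp2w)) ?_ ?_⟩
      · intro a ha ha'
        by_cases haW : a ∈ W k
        · refine fx_f_of haW ?_
          rcases Finset.mem_union.1 ha' with h | h
          · exact h
          · exact absurd haW (Finset.disjoint_left.1 (hVd k) (hβ1 k h))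
        · have haV : a ∈ V k := (Finset.mem_union.1 ha).resolve_left haW
          rw [fx_f_of_not haW]
          apply hsp
          rw [hp2V k a haV]
          congr 1
          rcases Finset.mem_union.1 ha' with h | h
          · exact absurd (he h) haW
          · exact decide_eq_true h
      · intro a ha ha'
        by_cases haW : a ∈ W k
        · exact fx_f_of' haW (fun h => ha' (Finset.mem_union_left _ h))
        · have haV : a ∈ V k := (Finset.mem_union.1 ha).resolve_left haW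
          rw [fx_f_of_not haW]
          apply hsp
          rw [hp2V k a haV]
          congr 1
          exact decide_eq_false (fun h => ha' (Finset.mem_union_right _ h))
    have hsle : ((s.1, fx s.2 (W k) e) : Q × SC K) ≤ s := ⟨le_rfl, h1⟩
    refine ⟨(s.1, fx s.2 (W k) e), hsle.trans hs, ?_⟩
    refine fex_intro (ent k i).1 fun a ha => fex_intro (χ k i) fun b hb =>
      fex_intro (τ ∩ Finset.range (ent k i).1) fun c hc => ⟨(hχ k i hi).2 τ hτ, ?_, ?_⟩
    · exact Ag_subset (Ag_down h2 ((hc.trans (hb.trans ha)).trans h3))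
    · exact Ag_subset (Ag_mono (Ag_down hs1 ((hc.trans (hb.trans ha)).trans hsle))
        (hent k i hi).2)
  exact fex_intro α fun a ha => fex_intro hα fun b hb => main b (hb.trans ha)

end Pool.Agent.U775.LG
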