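import Pool.Agent.U775.LG.Force

set_option autoImplicit false

/-!
# The existence of Luzin sets
-/

namespace Pool.Agent.U775.LG

open Set Cardinal
open Pool.Agent.Helper669.KDelta (small_mono)

theorem mk_le_aleph_one {Ω : Type} [LinearOrder Ω] (h : ∀ ξ : Ω, (Iio ξ).Countable) :
    #Ω ≤ ℵ_ 1 := by
  by_contra hcon
  rw [not_le] at hcon
  obtain ⟨S, hS⟩ := le_mk_iff_exists_set.1 hcon.le
  have h1 : ∀ ξ, ∃ s ∈ S, ξ < s := by
    intro ξ
    by_contra h2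
    push Not at h2
    have h3 : S ⊆ insert ξ (Iio ξ) := fun s hs => (h2 s hs).eq_or_lt
    have h4 : #S ≤ ℵ₀ := le_aleph0_iff_set_countable.2 (((h ξ).insert ξ).mono h3)
    rw [hS] at h4
    exact absurd h4 (not_le.2 aleph0_lt_aleph_one)
  have h2 : #(Set.univ : Set Ω) ≤ ℵ_ 1 := by
    have h3 : (Set.univ : Set Ω) ⊆ ⋃ s : S, Iio s.1 := by
      intro ξ _
      obtain ⟨s, hs, h4⟩ := h1 ξ
      exact mem_iUnion.2 ⟨⟨s, hs⟩, h4⟩
    exact small_mono h3 (Pool.Agent.Helper669.KDelta.small_iUnion aleph0_lt_aleph_one.le hS.le _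
      fun s => (le_aleph0_iff_set_countable.2 (h s.1)).trans aleph0_lt_aleph_one.le)
  rw [mk_univ] at h2
  exact absurd h2 (not_le.2 hcon)

section

variable {Ω K : Type} [LinearOrder Ω] {r : K → Ω}

theorem level_lt (hinf : ∀ ξ, {a | r a = ξ}.Infinite)
    (hs : ∀ ξ η, ξ < η → ∀ F : K → K, ∃ b, r b = η ∧ ∀ a, r a = ξ → F a ≠ b) {ξ η : Ω}
    (h : ξ < η) : #{a | r a = ξ} < #{a | r a = η} := by
  classical
  by_contra hcon
  rw [not_lt] at hcon
  have hne : Nonempty {a | r a = η} := (hinf η).nonempty.to_subtype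
  obtain ⟨e⟩ := (Cardinal.le_def _ _).1 hcon
  obtain ⟨b, hb, hF⟩ := hs ξ η h (fun a => if ha : r a = ξ then
    (Function.invFun e ⟨a, ha⟩).1 else a)
  refine hF (e ⟨b, hb⟩).1 (e ⟨b, hb⟩).2 ?_
  rw [dif_pos (show r (e ⟨b, hb⟩).1 = ξ from (e ⟨b, hb⟩).2)]
  have h1 : Function.invFun e (e ⟨b, hb⟩) = ⟨b, hb⟩ := Function.leftInverse_invFun e.injective _
  exact congrArg Subtype.val h1

variable (hΩ : ∀ ξ : Ω, (Iio ξ).Countable) (hmax : ∀ ξ : Ω, ∃ η, ξ < η)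
  (hinf : ∀ ξ, {a | r a = ξ}.Infinite)
  (hlt : ∀ ξ η, ξ < η → #{a | r a = ξ} < #{a | r a = η})

include hmax hlt in
theorem level_lt_mk (ξ : Ω) : #{a | r a = ξ} < #K := by
  obtain ⟨η, h⟩ := hmax ξ
  exact (hlt ξ η h).trans_le (mk_set_le _)

include hΩ hmax hinf hlt in
theorem below_lt_mk (ξ : Ω) : #{a | r a ≤ ξ} < #K := by
  have h1 : {a | r a ≤ ξ} ⊆ ⋃ η : Iic ξ, {a | r a = η.1} :=
    fun a ha => mem_iUnion.2 ⟨⟨r a, ha⟩, rfl⟩
  have h0 : ℵ₀ ≤ #{a | r a = ξ} := by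
    have := (hinf ξ).to_subtype
    exact aleph0_le_mk _
  have h2 : (Iic ξ).Countable := by
    have h3 : Iic ξ ⊆ insert ξ (Iio ξ) := fun s hs => (show s ≤ ξ from hs).eq_or_lt
    exact ((hΩ ξ).insert ξ).mono h3
  refine (small_mono h1 (Pool.Agent.Helper669.KDelta.small_iUnion h0
    ((le_aleph0_iff_set_countable.2 h2).trans h0) _ fun η => ?_)).trans_lt
    (level_lt_mk hmax hlt ξ)
  rcases (show η.1 ≤ ξ from η.2).eq_or_lt with h3 | h3
  · rw [h3]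
  · exact (hlt _ _ h3).le

include hΩ hmax hinf hlt in
theorem exists_luzin [Nonempty Ω] {X : Type} {I : Set X → Prop} {F : Ω → Set X}
    (hF : ∀ B, I B → ∃ ξ, B ⊆ F ξ) (hbig : ∀ ξ, #K ≤ #(↥{x | ∀ η ≤ ξ, x ∉ F η})) :
    ∃ A : Set X, #K ≤ #A ∧ ∀ B, I B → #(↥(A ∩ B)) < #K := by
  classical
  have h1 : ∀ ξ, ∃ e : {a | r a = ξ} ↪ X, ∀ a, ∀ η ≤ ξ, e a ∉ F η := by
    intro ξ
    obtain ⟨e⟩ := (Cardinal.le_def _ _).1 ((mk_set_le {a | r a = ξ}).trans (hbig ξ))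
    exact ⟨e.trans (Function.Embedding.subtype _), fun a => (e a).2⟩
  choose e he using h1
  let f : K → X := fun a => e (r a) ⟨a, rfl⟩
  have hfe : ∀ (ξ : Ω) (a : {a | r a = ξ}), f a.1 = e ξ a := by
    rintro ξ ⟨a, rfl⟩
    rfl
  refine ⟨range f, ?_, fun B hB => ?_⟩
  · have h2 : ∀ ξ, #{a | r a = ξ} ≤ #(range f) := by
      intro ξ
      refine mk_le_of_injective (f := fun a : {a | r a = ξ} => (⟨f a.1, a.1, rfl⟩ : range f)) ?_
      intro a b h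
      have h3 : f a.1 = f b.1 := congrArg Subtype.val h
      rw [hfe, hfe] at h3
      exact (e ξ).injective h3
    obtain ⟨ξ0⟩ := (inferInstance : Nonempty Ω)
    obtain ⟨ξ1, h01⟩ := hmax ξ0
    have h3 : ℵ_ 1 ≤ #(range f) := by
      rw [← succ_aleph0]
      apply Order.succ_le_of_lt
      refine lt_of_le_of_lt ?_ ((hlt ξ0 ξ1 h01).trans_le (h2 ξ1))
      have := (hinf ξ0).to_subtype
      exact aleph0_le_mk _
    have h4 : #K = Cardinal.sum fun ξ => #{a | r a = ξ} := by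
      rw [← mk_congr (Equiv.sigmaFiberEquiv r), mk_sigma]
      rfl
    rw [h4]
    calc (Cardinal.sum fun ξ => #{a | r a = ξ}) ≤ Cardinal.sum fun _ : Ω => #(range f) :=
          sum_le_sum _ _ h2
      _ = #Ω * #(range f) := sum_const' _ _
      _ ≤ #(range f) * #(range f) := mul_le_mul_left ((mk_le_aleph_one hΩ).trans h3) _
      _ = #(range f) := mul_eq_self (aleph0_lt_aleph_one.le.trans h3)
  · obtain ⟨ξ, h2⟩ := hF B hB
    have h3 : range f ∩ B ⊆ f '' {a | r a ≤ ξ} := by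
      rintro x ⟨⟨a, rfl⟩, hx⟩
      refine ⟨a, ?_, rfl⟩
      by_contra hcon
      simp only [mem_ofPred_eq, not_le] at hcon
      exact he (r a) ⟨a, rfl⟩ ξ hcon.le (h2 hx)
    exact (mk_le_mk_of_subset h3).trans_lt (mk_image_le.trans_lt
      (below_lt_mk hΩ hmax hinf hlt ξ))

end

end Pool.Agent.U775.LG
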