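import Mathlib

set_option autoImplicit false

/-!
# The finite combinatorics for the second relation
-/

namespace Pool.Agent.U775.LG

/-- Every large finite set of integers has a long lacunary sequence. -/
theorem lacunary (q : ℕ) {r : ℕ} (hr : 0 < r) (t : ℕ) : ∃ m : ℕ, ∀ U : Finset ℤ, m ≤ U.card →
    ∃ c ∈ U, ∃ u : ℕ → ℤ, (∀ i < t, u i ∈ U ∧ (q : ℤ) ≤ |u i - c|) ∧
      ∀ i, i + 1 < t → (r : ℤ) * |u i - c| ≤ |u (i + 1) - c| := by
  classical
  induction t with
  | zero =>
    refine ⟨1, fun U hU => ?_⟩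
    obtain ⟨c, hc⟩ := Finset.card_pos.1 hU
    exact ⟨c, hc, fun _ => 0, fun i hi => absurd hi (by omega), fun i hi => absurd hi (by omega)⟩
  | succ t ih =>
    obtain ⟨m, hm⟩ := ih
    refine ⟨2 * r * m + 2 * q + 1, fun U hU => ?_⟩
    have hne : U.Nonempty := Finset.card_pos.1 (by omega)
    set a := U.min' hne with ha
    set b := U.max' hne with hb
    have hab : ∀ u ∈ U, a ≤ u ∧ u ≤ b := fun u hu => ⟨U.min'_le u hu, U.le_max' u hu⟩
    have hΔ : 2 * (q : ℤ) ≤ b - a := by
      have h1 : U ⊆ Finset.Icc a b := fun u hu => Finset.mem_Icc.2 (hab u hu)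
      have h2 := Finset.card_le_card h1
      rw [Int.card_Icc] at h2
      omega
    have hab0 : 0 ≤ b - a := by
      have := hab a (U.min'_mem hne)
      omega
    -- a small piece with many points
    obtain ⟨c, hc, u, hu1, hu2, hu3⟩ : ∃ c ∈ U, ∃ u : ℕ → ℤ,
        (∀ i < t, u i ∈ U ∧ (q : ℤ) ≤ |u i - c|) ∧
        (∀ i, i + 1 < t → (r : ℤ) * |u i - c| ≤ |u (i + 1) - c|) ∧
        ∀ i < t, (2 * r : ℤ) * |u i - c| ≤ b - a := by
      let f : ℤ → ℤ := fun u => (u - a) * (2 * r) / (b - a + 1)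
      have hf : ∀ u ∈ U, f u ∈ Finset.Ico (0 : ℤ) (2 * r) := by
        intro u hu
        obtain ⟨h1, h2⟩ := hab u hu
        rw [Finset.mem_Ico]
        constructor
        · apply Int.ediv_nonneg
          · have : (0 : ℤ) ≤ u - a := by omega
            positivity
          · omega
        · apply Int.ediv_lt_of_lt_mul (by omega)
          have h3 : (0 : ℤ) < 2 * r := by positivity
          nlinarith
      obtain ⟨y, -, hy⟩ := Finset.exists_lt_card_fiber_of_mul_lt_card_of_maps_to (n := m) hf (by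
        rw [Int.card_Ico]
        have : ((2 * (r : ℤ) - 0).toNat) = 2 * r := by omega
        rw [this]
        omega)
      obtain ⟨c, hc, u, h1, h2⟩ := hm _ hy.le
      rw [Finset.mem_filter] at hc
      refine ⟨c, hc.1, u, fun i hi => ⟨(Finset.mem_filter.1 (h1 i hi).1).1, (h1 i hi).2⟩, h2,
        fun i hi => ?_⟩
      have h3 := (Finset.mem_filter.1 (h1 i hi).1).2
      rw [← hc.2] at h3
      have h4 : (0 : ℤ) < b - a + 1 := by omega
      have h5 := Int.mul_ediv_add_emod ((u i - a) * (2 * r)) (b - a + 1)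
      have h6 := Int.mul_ediv_add_emod ((c - a) * (2 * r)) (b - a + 1)
      have h7 := Int.emod_nonneg ((u i - a) * (2 * r)) h4.ne'
      have h8 := Int.emod_nonneg ((c - a) * (2 * r)) h4.ne'
      have h9 := Int.emod_lt_of_pos ((u i - a) * (2 * r)) h4
      have h10 := Int.emod_lt_of_pos ((c - a) * (2 * r)) h4
      simp only [f] at h3
      rw [h3] at h5
      have h11 : (2 * r : ℤ) * |u i - c| = |(2 * r : ℤ) * (u i - c)| := by
        rw [abs_mul, abs_of_nonneg (by positivity : (0 : ℤ) ≤ 2 * r)]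
      rw [h11]
      have h12 : |(2 * r : ℤ) * (u i - c)| < b - a + 1 := by
        rw [abs_lt]
        constructor <;> nlinarith
      omega
    -- the last point
    obtain ⟨w, hw, h1⟩ : ∃ w ∈ U, b - a ≤ 2 * |w - c| := by
      rcases le_total (c - a) (b - c) with h | h
      · refine ⟨b, U.max'_mem hne, ?_⟩
        have := (hab c hc).2
        rw [abs_of_nonneg (by omega)]
        omega
      · refine ⟨a, U.min'_mem hne, ?_⟩
        have := (hab c hc).1
        rw [abs_of_nonpos (by omega)]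
        omega
    refine ⟨c, hc, fun i => if i < t then u i else w, fun i hi => ?_, fun i hi => ?_⟩
    · beta_reduce
      split_ifs with h2
      · exact hu1 i h2
      · exact ⟨hw, by omega⟩
    · have h2 : i < t := by omega
      beta_reduce
      rw [if_pos h2]
      split_ifs with h3
      · exact hu2 i h3
      · have := hu3 i h2
        nlinarith

/-- A number whose multiples of the members of a lacunary sequence are near given numbers modulo
`1`. -/
theorem exists_theta {r : ℝ} (hr : 2 ≤ r) {d a : ℕ → ℝ} (t : ℕ) (hd0 : 0 < t → d 0 ≠ 0)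
    (hd : ∀ i, i + 1 < t → r * |d i| ≤ |d (i + 1)|) (θ0 : ℝ) :
    ∃ θ : ℝ, |θ - θ0| ≤ 1 / |d 0| * (1 - (1 / 2) ^ t) ∧
      ∀ i < t, ∃ k : ℤ, |θ * d i - a i - k| ≤ 1 / r * (1 - (1 / 2) ^ (t - i - 1)) := by
  have hr0 : 0 < r := by linarith
  induction t with
  | zero => exact ⟨θ0, by simp, fun i hi => absurd hi (by omega)⟩
  | succ t ih =>
    obtain ⟨θ, h1, h2⟩ := ih (fun _ => hd0 (by omega)) (fun i hi => hd i (by omega))
    have h0 : 0 < |d 0| := abs_pos.2 (hd0 (by omega))
    -- the sequence increases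
    have hmon : ∀ i ≤ t, ∀ j ≤ t, i ≤ j → r ^ (j - i) * |d i| ≤ |d j| := by
      intro i hi j hj hij
      induction j, hij using Nat.le_induction with
      | base => simp
      | succ j hij ihj =>
        have h3 := ihj (by omega)
        have h4 := hd j (by omega)
        rw [show j + 1 - i = (j - i) + 1 by omega, pow_succ]
        calc r ^ (j - i) * r * |d i| = r * (r ^ (j - i) * |d i|) := by ring
          _ ≤ r * |d j| := mul_le_mul_of_nonneg_left h3 hr0.le
          _ ≤ _ := h4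
    have hdt : 0 < |d t| := by
      have := hmon 0 (by omega) t le_rfl (by omega)
      exact lt_of_lt_of_le (by positivity) this
    have hdt0 : d t ≠ 0 := abs_pos.1 hdt
    set f : ℝ := θ * d t - a t - round (θ * d t - a t) with hf
    have hf1 : |f| ≤ 1 / 2 := abs_sub_round _
    have hstep : |(θ - f / d t) - θ| ≤ 1 / 2 / |d t| := by
      rw [show (θ - f / d t) - θ = - (f / d t) by ring, abs_neg, abs_div]
      exact div_le_div_of_nonneg_right hf1 hdt.le
    refine ⟨θ - f / d t, ?_, fun i hi => ?_⟩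
    · have h3 : 1 / 2 / |d t| ≤ 1 / |d 0| * (1 / 2) ^ (t + 1) := by
        have h4 := hmon 0 (by omega) t le_rfl (by omega)
        rw [Nat.sub_zero] at h4
        have h5 : (2 : ℝ) ^ t * |d 0| ≤ |d t| :=
          (mul_le_mul_of_nonneg_right (pow_le_pow_left₀ (by norm_num) hr t) h0.le).trans h4
        have e : 1 / |d 0| * (1 / 2) ^ (t + 1) = 1 / 2 / (2 ^ t * |d 0|) := by
          rw [pow_succ, one_div_pow]
          field_simp
        rw [e]
        exact div_le_div_of_nonneg_left (by norm_num) (by positivity) h5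
      have e : (θ - f / d t) - θ0 = ((θ - f / d t) - θ) + (θ - θ0) := by ring
      rw [e]
      refine (abs_add_le _ _).trans ((add_le_add (hstep.trans h3) h1).trans (le_of_eq ?_))
      rw [pow_succ]
      ring
    · rcases Nat.lt_succ_iff_lt_or_eq.1 hi with h3 | h3
      · obtain ⟨k, hk⟩ := h2 i h3
        refine ⟨k, ?_⟩
        have e : (θ - f / d t) * d i - a i - k = ((θ - f / d t) - θ) * d i + (θ * d i - a i - k) := by
          ring
        rw [e]
        have h4 : |((θ - f / d t) - θ) * d i| ≤ 1 / r * (1 / 2) ^ (t - i) := by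
          rw [abs_mul]
          have h5 := hmon i (by omega) t le_rfl h3.le
          have h6 : |(θ - f / d t) - θ| * |d i| ≤ 1 / 2 / |d t| * |d i| :=
            mul_le_mul_of_nonneg_right hstep (abs_nonneg _)
          refine h6.trans ?_
          obtain ⟨e, he⟩ : ∃ e, t - i = e + 1 := ⟨t - i - 1, by omega⟩
          rw [he] at h5 ⊢
          have h7 : r * 2 ^ e * |d i| ≤ |d t| := by
            refine le_trans ?_ h5
            rw [pow_succ, mul_comm (r ^ e) r]
            apply mul_le_mul_of_nonneg_right _ (abs_nonneg _)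
            exact mul_le_mul_of_nonneg_left (pow_le_pow_left₀ (by norm_num) hr e) hr0.le
          rw [div_mul_eq_mul_div, div_le_iff₀ hdt]
          calc 1 / 2 * |d i| = 1 / r * (1 / 2) ^ (e + 1) * (r * 2 ^ e * |d i|) := by
                rw [pow_succ, one_div_pow]
                field_simp
            _ ≤ _ := mul_le_mul_of_nonneg_left h7 (by positivity)
        refine (abs_add_le _ _).trans ((add_le_add h4 hk).trans (le_of_eq ?_))
        obtain ⟨e, he⟩ : ∃ e, t - i = e + 1 := ⟨t - i - 1, by omega⟩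
        rw [show t + 1 - i - 1 = e + 1 by omega, show t - i - 1 = e by omega, he, pow_succ]
        ring
      · subst h3
        refine ⟨round (θ * d i - a i), ?_⟩
        have e : (θ - f / d i) * d i - a i - round (θ * d i - a i) = 0 := by
          rw [sub_mul, div_mul_cancel₀ _ hdt0, hf]
          ring
        rw [e, abs_zero]
        simp

open Classical in
/-- the integers `y` for which `θ y` is near an integer -/
theorem card_near {N : ℕ} {θ δ : ℝ} (hθ : 0 < θ) (hθN : 1 ≤ θ * N) (hδ : 0 ≤ δ) (hδ2 : δ ≤ 1 / 2) :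
    (((Finset.Ioo (-(N : ℤ)) N).filter fun y : ℤ => ∃ k : ℤ, |θ * (y : ℝ) - k| ≤ δ).card : ℝ) ≤
      8 * δ * N + 2 * θ * N + 2 := by
  have h1 : ((Finset.Ioo (-(N : ℤ)) N).filter fun y : ℤ => ∃ k : ℤ, |θ * (y : ℝ) - k| ≤ δ) ⊆
      (Finset.Icc ⌈-(θ * N + δ)⌉ ⌊θ * N + δ⌋).biUnion fun k : ℤ =>
        Finset.Icc ⌈((k : ℝ) - δ) / θ⌉ ⌊((k : ℝ) + δ) / θ⌋ := by
    intro y hy
    obtain ⟨h2, k, hk⟩ := Finset.mem_filter.1 hy
    rw [Finset.mem_Ioo] at h2
    have h3 : (-(N : ℝ)) < y := by exact_mod_cast h2.1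
    have h4 : (y : ℝ) < N := by exact_mod_cast h2.2
    rw [abs_le] at hk
    rw [Finset.mem_biUnion]
    refine ⟨k, ?_, ?_⟩
    · rw [Finset.mem_Icc, Int.ceil_le, Int.le_floor]
      constructor <;> nlinarith
    · rw [Finset.mem_Icc, Int.ceil_le, Int.le_floor, div_le_iff₀ hθ, le_div_iff₀ hθ]
      constructor <;> linarith
  have hcard : ∀ x y : ℝ, x ≤ y + 1 → ((Finset.Icc ⌈x⌉ ⌊y⌋).card : ℝ) ≤ y - x + 1 := by
    intro x y hxy
    rw [Int.card_Icc]
    have h2 := Int.floor_le y
    have h3 := Int.le_ceil x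
    rcases le_total (⌊y⌋ + 1 - ⌈x⌉) 0 with h | h
    · rw [Int.toNat_of_nonpos h]
      push_cast
      linarith
    · have h4 : (((⌊y⌋ + 1 - ⌈x⌉).toNat : ℤ) : ℝ) = ((⌊y⌋ + 1 - ⌈x⌉ : ℤ) : ℝ) := by
        rw [Int.toNat_of_nonneg h]
      push_cast at h4
      rw [h4]
      linarith
  have h2 : (((Finset.Icc ⌈-(θ * N + δ)⌉ ⌊θ * N + δ⌋).biUnion fun k : ℤ =>
      Finset.Icc ⌈((k : ℝ) - δ) / θ⌉ ⌊((k : ℝ) + δ) / θ⌋).card : ℝ) ≤
      (2 * (θ * N + δ) + 1) * (2 * δ / θ + 1) := by
    refine (Nat.cast_le.2 Finset.card_biUnion_le).trans ?_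
    push_cast
    have h3 : ∀ k ∈ Finset.Icc ⌈-(θ * N + δ)⌉ ⌊θ * N + δ⌋,
        ((Finset.Icc ⌈((k : ℝ) - δ) / θ⌉ ⌊((k : ℝ) + δ) / θ⌋).card : ℝ) ≤ 2 * δ / θ + 1 := by
      intro k _
      have h4 : ((k : ℝ) - δ) / θ ≤ (k + δ) / θ := by
        apply div_le_div_of_nonneg_right _ hθ.le
        linarith
      refine (hcard _ _ (by linarith)).trans (le_of_eq ?_)
      ring
    refine (Finset.sum_le_card_nsmul _ _ _ h3).trans ?_
    rw [nsmul_eq_mul]
    apply mul_le_mul_of_nonneg_right _ (by positivity)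
    refine (hcard _ _ (by nlinarith)).trans (le_of_eq ?_)
    ring
  refine (Nat.cast_le.2 (Finset.card_le_card h1)).trans (h2.trans ?_)
  have h3 : 1 / θ ≤ N := by
    rw [div_le_iff₀ hθ]
    linarith
  have h4 : (2 * (θ * N + δ) + 1) * (2 * δ / θ + 1) =
      4 * δ * N + 2 * θ * N + (2 * δ + 1) * (2 * δ * (1 / θ) + 1) := by
    field_simp
    ring
  rw [h4]
  have h5 : (2 * δ + 1) * (2 * δ * (1 / θ) + 1) ≤ 2 * (2 * δ * N + 1) := by
    apply mul_le_mul _ _ (by positivity) (by norm_num)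
    · linarith
    · have := mul_le_mul_of_nonneg_left h3 (by positivity : 0 ≤ 2 * δ)
      linarith
  linarith

end Pool.Agent.U775.LG
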