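import Pool.Agent.U775.LG.Val
import Pool.Agent.R594.Star.CH

set_option autoImplicit false

/-!
# The forcing notion, and the other sentences
-/

namespace Pool.Agent.U775.LG

open Set Cardinal Pool.Agent.R594.Rai Pool.Agent.Helper126.Sus.Forc Pool.Agent.Helper669.KDelta
open Pool.Agent.W876.Two.Gen (IsFun)
open Pool.Agent.R594.Star (exists_gt_K1 mk_K1 countable_Iio_K1)

/-- The conditions are partial functions from `ω₁` to `W` with bounded domain (undefined points have
the value `none`). -/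
structure Col (W : Type) where
  /-- the partial function -/
  f : K1 → Option W
  /-- the domain is bounded -/
  bdd : ∃ b, ∀ ξ, b ≤ ξ → f ξ = none

/-- Stronger conditions extend the partial functions. -/
instance (W : Type) : Preorder (Col W) where
  le q p := ∀ ξ w, p.f ξ = some w → q.f ξ = some w
  le_refl _ _ _ h := h
  le_trans _ _ _ h h' ξ w hw := h ξ w (h' ξ w hw)

theorem col_closed (W : Type) : SClosed (Col W) := by
  classical
  intro q hq
  have key : ∀ ξ k w, (q k).f ξ = some w → ∀ (h : ∃ k, (q k).f ξ ≠ none),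
      (q h.choose).f ξ = some w := by
    intro ξ k w hw h
    have h1 := h.choose_spec
    rcases le_total h.choose k with h2 | h2
    · cases h3 : (q h.choose).f ξ with
      | none => exact absurd h3 h1
      | some c =>
        have h4 := hq h2 ξ c h3
        rw [hw] at h4
        exact h4.symm
    · exact hq h2 ξ w hw
  choose b hb using fun k => (q k).bdd
  obtain ⟨c, hc⟩ := exists_gt_K1 (countable_range b)
  refine ⟨⟨fun ξ => if h : ∃ k, (q k).f ξ ≠ none then (q h.choose).f ξ else none, c, ?_⟩, ?_⟩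
  · intro ξ hξ
    rw [dif_neg]
    rintro ⟨k, hk⟩
    exact hk (hb k ξ ((hc _ ⟨k, rfl⟩).le.trans hξ))
  · intro k ξ w hw
    have h : ∃ k, (q k).f ξ ≠ none := ⟨k, by rw [hw]; simp⟩
    show (if h : ∃ k, (q k).f ξ ≠ none then (q h.choose).f ξ else none) = some w
    rw [dif_pos h]
    exact key ξ k w hw h

theorem mk_option_le {W : Type} (hW : #W ≤ 𝔠) : #(Option W) ≤ 𝔠 := by
  rw [mk_option]
  exact (add_le_add hW (one_le_aleph0.trans aleph0_le_continuum)).trans
    (by rw [continuum_add_self])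

theorem mk_col {W : Type} (hW : #W ≤ 𝔠) : #(Col W) ≤ 𝔠 := by
  classical
  choose b hb using fun q : Col W => q.bdd
  let F : Col W → Σ b : K1, (Iio b → Option W) := fun q => ⟨b q, fun ξ => q.f ξ.1⟩
  have hF : Function.Injective F := by
    intro q q' h
    have h1 : b q = b q' := congrArg Sigma.fst h
    have h2 : ∀ ξ, q.f ξ = q'.f ξ := by
      intro ξ
      by_cases hξ : ξ < b q
      · have h3 : ∀ (a a' : Σ b : K1, (Iio b → Option W)), a = a' → ∀ (h : ξ < a.1)
            (h' : ξ < a'.1), a.2 ⟨ξ, h⟩ = a'.2 ⟨ξ, h'⟩ := by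
          rintro a a' rfl _ _
          rfl
        have h4 : ξ < b q' := by rw [← h1]; exact hξ
        exact h3 _ _ h hξ h4
      · rw [hb q ξ (not_lt.1 hξ), hb q' ξ (by rw [← h1]; exact not_lt.1 hξ)]
    obtain ⟨f, hf⟩ := q
    obtain ⟨f', hf'⟩ := q'
    have : f = f' := funext h2
    subst this
    rfl
  refine (mk_le_of_injective hF).trans ?_
  rw [mk_sigma]
  refine (sum_le_mk_mul_iSup _).trans ?_
  refine (mul_le_mul' (mk_K1.le.trans aleph_one_le_continuum) (ciSup_le' fun b => ?_)).trans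
    (by rw [continuum_mul_self])
  rw [← power_def]
  have h1 : #(Iio b) ≤ ℵ₀ := le_aleph0_iff_set_countable.2 (countable_Iio_K1 b)
  have hne : #(Option W) ≠ 0 := mk_ne_zero _
  calc #(Option W) ^ #(Iio b) ≤ #(Option W) ^ (ℵ₀ : Cardinal.{0}) := power_le_power_left hne h1
    _ ≤ 𝔠 ^ (ℵ₀ : Cardinal.{0}) := power_le_power_right (mk_option_le hW)
    _ = 𝔠 := continuum_power_aleph0

/-- the slaloms of the ground model -/
abbrev Wt : Type := {C : ℕ → Finset ℕ // ∀ n, (C n).card ≤ 2 ^ n}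

theorem mk_fun_le {X : Type} (hX : #X ≤ 𝔠) : #(ℕ → X) ≤ 𝔠 := by
  rw [← power_def, mk_nat]
  exact (power_le_power_right hX).trans (by rw [continuum_power_aleph0])

theorem mk_Wt : #Wt ≤ 𝔠 :=
  (mk_subtype_le _).trans (mk_fun_le (mk_le_aleph0.trans aleph0_le_continuum))

theorem mk_HT : #HT ≤ 𝔠 :=
  (mk_subtype_le _).trans (mk_fun_le (mk_le_aleph0.trans aleph0_le_continuum))

variable {K : Type}

/-- a lower bound of the domain -/
theorem exists_free {W : Type} (c : Col W) : ∃ ξ, c.f ξ = none := by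
  obtain ⟨b, hb⟩ := c.bdd
  exact ⟨b, hb b le_rfl⟩

open Classical in
/-- add a value -/
noncomputable def upd {W : Type} (c : Col W) (ξ : K1) (w : W) : Col W where
  f := Function.update c.f ξ (some w)
  bdd := by
    obtain ⟨b, hb⟩ := c.bdd
    obtain ⟨d, hd⟩ := exists_gt_K1 (C := {b, ξ}) (by simp)
    refine ⟨d, fun η hη => ?_⟩
    have h1 : η ≠ ξ := (lt_of_lt_of_le (hd ξ (by simp)) hη).ne'
    rw [Function.update_of_ne h1]
    exact hb η ((hd b (by simp)).le.trans hη)

theorem upd_le {W : Type} {c : Col W} {ξ : K1} (h : c.f ξ = none) (w : W) : upd c ξ w ≤ c := by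
  classical
  intro η v hv
  have h1 : η ≠ ξ := fun h' => by rw [h', h] at hv; exact absurd hv (by simp)
  show Function.update c.f ξ (some w) η = some v
  rw [Function.update_of_ne h1]
  exact hv

theorem upd_self {W : Type} (c : Col W) (ξ : K1) (w : W) : (upd c ξ w).f ξ = some w := by
  classical
  exact Function.update_self _ _ _

theorem loc_forced [Nonempty K] (w : Col Wt × SC K) : w ∈ LocN K1 (fun C : Wt => C.1) := by
  classical
  let gN : K1 → Wt → Set (Col Wt × SC K) := fun ξ C => {u | u.1.f ξ = some C}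
  refine fex_intro gN fun q hq => ⟨⟨fun ξ => ?_, fun ξ C C' => ?_⟩, fun f => ?_⟩
  · rw [mem_fex]
    intro v hv
    cases h : v.1.f ξ with
    | some C => exact ⟨v, le_rfl, C, meets_of_mem h⟩
    | none =>
      have C : Wt := ⟨fun _ => ∅, fun n => by simp⟩
      exact ⟨(upd v.1 ξ C, v.2), ⟨upd_le h C, le_rfl⟩, C,
        meets_of_mem (show (upd v.1 ξ C).f ξ = some C from upd_self _ _ _)⟩
  · rw [mem_fimp]
    rintro v hv ⟨h1, h2⟩
    obtain ⟨r, hr, s, hs, hrs⟩ := h1 v le_rfl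
    obtain ⟨r', hr', s', hs', hrs'⟩ := h2 r hr
    refine ⟨r', hr'.trans hr, ?_⟩
    have e1 : r'.1.f ξ = some C := (hr'.trans hrs).1 ξ C hs
    have e2 : r'.1.f ξ = some C' := hrs'.1 ξ C' hs'
    rw [e1] at e2
    exact Option.some.inj e2
  · rw [mem_fimp]
    intro v hv hf
    obtain ⟨s, hs, -, C, hC, h⟩ := sacks (col_closed Wt) (S := Set.univ)
      (φ := fun n v => meets (f n v)) (fun n v u hu t ht => meets_down hu ht) (w := v)
      (in_univ _) (by
        intro n t ht _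
        obtain ⟨u, hu, v, hv⟩ := mem_fex.1 (hf.1 n) t ht
        exact ⟨u, hu, in_univ _, v, hv⟩)
    obtain ⟨ξ, hξ⟩ := exists_free s.1
    refine ⟨(upd s.1 ξ ⟨C, hC⟩, s.2), ?_, fex_intro ξ fun a ha => fex_intro ⟨C, hC⟩ fun b hb =>
      ⟨?_, fun n => ?_⟩⟩
    · exact (show ((upd s.1 ξ ⟨C, hC⟩, s.2) : Col Wt × SC K) ≤ s from
        ⟨upd_le hξ _, le_rfl⟩).trans hs
    · exact meets_of_le (show (upd s.1 ξ ⟨C, hC⟩, s.2) ∈ gN ξ ⟨C, hC⟩ from upd_self _ _ _)
        (hb.trans ha)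
    · rw [mem_fex]
      intro t ht
      have hts : t ≤ s := (ht.trans (hb.trans ha)).trans
        (show ((upd s.1 ξ ⟨C, hC⟩, s.2) : Col Wt × SC K) ≤ s from ⟨upd_le hξ _, le_rfl⟩)
      obtain ⟨u, hu, v, hv, hv'⟩ := h n t hts
      exact ⟨u, hu, v, hv, hv'⟩

variable {Q : Type} [Preorder Q]

/-- the name of the generic set with the index `a` -/
def gen (a : K) (i : ℕ) : Set (Q × SC K) := {u | u.2.f a i = some true}

theorem gen_true {a : K} {i : ℕ} {u : Q × SC K} (h : u.2.f a i = some true) :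
    u ∈ meets (gen a i) := meets_of_mem h

theorem gen_false {a : K} {i : ℕ} {u : Q × SC K} (h : u.2.f a i = some false) :
    u ∈ fnot (meets (gen a i)) := by
  intro v hv hm
  obtain ⟨r, hr, s, hs, hrs⟩ := hm v le_rfl
  have h1 := hrs.2 a i true hs
  have h2 := (hr.trans hv).2 a i false h
  rw [h1] at h2
  exact absurd h2 (by simp)

theorem opp_fiff {P : Type} [Preorder P] {φ ψ : Set P} {w : P}
    (h : (w ∈ meets φ ∧ w ∈ fnot (meets ψ)) ∨ (w ∈ fnot (meets φ) ∧ w ∈ meets ψ)) :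
    w ∈ fnot (fiff (meets φ) (meets ψ)) := by
  intro v hv hiff
  rcases h with ⟨h1, h2⟩ | ⟨h1, h2⟩
  · obtain ⟨r, hr, h3⟩ := mem_fimp.1 hiff.1 v le_rfl (meets_down h1 hv)
    exact h2 r (hr.trans hv) h3
  · obtain ⟨r, hr, h3⟩ := mem_fimp.1 hiff.2 v le_rfl (meets_down h2 hv)
    exact h1 r (hr.trans hv) h3

theorem dist_forced (w : Q × SC K) : w ∈ DistN K := by
  classical
  refine fex_intro gen fun q hq a b hab => ?_
  rw [mem_fex]
  intro v hv
  obtain ⟨i, hi⟩ := (v.2.infinite a).nonempty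
  -- a value at the point `(b, i)`
  obtain ⟨p, hp, hpa, c, hc⟩ : ∃ p ≤ v.2, p.f a i = none ∧ ∃ c, p.f b i = some c := by
    cases h : v.2.f b i with
    | some c => exact ⟨v.2, le_rfl, hi, c, h⟩
    | none =>
      have hf : Free {(b, i)} v.2 := by
        intro u hu
        rw [Finset.mem_singleton] at hu
        subst hu
        exact h
      refine ⟨fx v.2 {(b, i)} ∅, fx_le hf _, ?_, false,
        fx_f_of' (Finset.mem_singleton_self _) (Finset.notMem_empty _)⟩
      rw [fx_f_of_not (by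
        rw [Finset.mem_singleton, Prod.mk.injEq]
        exact fun h => hab h.1)]
      exact hi
  have hf : Free {(a, i)} p := by
    intro u hu
    rw [Finset.mem_singleton] at hu
    subst hu
    exact hpa
  have hb : ∀ A : Finset (K × ℕ), (fx p {(a, i)} A).f b i = some c := by
    intro A
    rw [fx_f_of_not (by
      rw [Finset.mem_singleton, Prod.mk.injEq]
      exact fun h => hab h.1.symm)]
    exact hc
  cases c with
  | true =>
    refine ⟨(v.1, fx p {(a, i)} ∅), ⟨le_rfl, (fx_le hf _).trans hp⟩, i, opp_fiff (Or.inr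
      ⟨gen_false ?_, gen_true (hb _)⟩)⟩
    exact fx_f_of' (Finset.mem_singleton_self _) (Finset.notMem_empty _)
  | false =>
    refine ⟨(v.1, fx p {(a, i)} {(a, i)}), ⟨le_rfl, (fx_le hf _).trans hp⟩, i, opp_fiff (Or.inl
      ⟨gen_true ?_, gen_false (hb _)⟩)⟩
    exact fx_f_of (Finset.mem_singleton_self _) (Finset.mem_singleton_self _)

theorem size_forced [Nonempty K] (hQ : #Q ≤ 𝔠) {Ω : Type} [LT Ω] {r : K → Ω}
    (h1 : ∀ ξ η, ξ < η → #{a | r a = ξ} < #{a | r a = η}) (h2 : ∀ ξ, 𝔠 ≤ #{a | r a = ξ})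
    (w : Q × SC K) : w ∈ SizeN r := by
  classical
  intro ξ η hξη F
  rw [mem_fimp]
  intro q _ hF
  refine ⟨q, le_rfl, ?_⟩
  by_contra hcon
  rw [mem_fex] at hcon
  push Not at hcon
  obtain ⟨v, hv, h3⟩ := hcon
  have h4 : ∀ b : {a | r a = η}, ∃ a : {a | r a = ξ}, ∃ s ≤ v, s ∈ meets (F a.1 b.1) := by
    intro b
    have h5 := h3 v le_rfl b.1
    have h6 : ¬ (v ∈ fall fun a => fall fun _ : r a = ξ => fnot (meets (F a b.1))) :=
      fun h => h5 ⟨b.2, h⟩
    simp only [fall, mem_ofPred_eq, not_forall] at h6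
    obtain ⟨a, ha, h7⟩ := h6
    simp only [mem_fnot, not_forall, not_not] at h7
    obtain ⟨s, hs, h8⟩ := h7
    exact ⟨⟨a, ha⟩, s, hs, h8⟩
  choose α s hs hm using h4
  obtain ⟨a, ha⟩ : ∃ a, ¬ #{b | α b = a} ≤ 𝔠 := by
    by_contra hcon
    push Not at hcon
    have h5 : (Set.univ : Set {a | r a = η}) ⊆ ⋃ a, {b | α b = a} :=
      fun b _ => mem_iUnion.2 ⟨α b, rfl⟩
    have h6 : #{a | r a = η} ≤ #{a | r a = ξ} := by
      rw [← mk_univ (α := {a | r a = η})]
      exact small_mono h5 (small_iUnion (aleph0_le_continuum.trans (h2 ξ)) le_rfl _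
        (fun a => (hcon a).trans (h2 ξ)))
    exact absurd h6 (not_le.2 (h1 ξ η hξη))
  obtain ⟨b, hb, b', hb', hne, t, ht, ht'⟩ := cc hQ ha s
  have hb1 : α b = a := hb
  have hb2 : α b' = a := hb'
  obtain ⟨u, hu, h5⟩ := mem_fimp.1 (hF.2 a.1 b.1 b'.1) t (ht.trans ((hs b).trans hv))
    ⟨meets_down (hb1 ▸ hm b) ht, meets_down (hb2 ▸ hm b') ht'⟩
  exact hne (Subtype.ext h5)

/-- the underlying set of the forcing notion: the union of `ω₁` levels of increasing sizes -/
abbrev KT : Type := Σ ξ : K1, (ℶ_ (3 + Ordinal.typein (α := K1) (· < ·) ξ) : Cardinal.{0}).out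

theorem mk_level (ξ : K1) : #{a : KT | a.1 = ξ} = ℶ_ (3 + Ordinal.typein (α := K1) (· < ·) ξ) := by
  have e : {a : KT | a.1 = ξ} ≃ (ℶ_ (3 + Ordinal.typein (α := K1) (· < ·) ξ) : Cardinal.{0}).out :=
    { toFun := fun a => a.2 ▸ a.1.2
      invFun := fun b => ⟨⟨ξ, b⟩, rfl⟩
      left_inv := by
        rintro ⟨⟨η, b⟩, h⟩
        have : η = ξ := h
        subst this
        rfl
      right_inv := fun b => rfl }
  rw [mk_congr e, mk_out]

theorem two_power_continuum_lt (o : Ordinal.{0}) : (2 : Cardinal.{0}) ^ 𝔠 < ℶ_ (3 + o) := by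
  have h1 : ℶ_ (2 : Ordinal.{0}) = 2 ^ 𝔠 := by
    have : (2 : Ordinal.{0}) = Order.succ 1 := by
      rw [Order.succ_eq_add_one, one_add_one_eq_two]
    rw [this, beth_succ, beth_one]
  rw [← h1]
  apply beth_strictMono
  have : (2 : Ordinal.{0}) < 3 := by
    have h2 : (3 : Ordinal.{0}) = 2 + 1 := by norm_num
    rw [h2]
    exact lt_add_one _
  exact this.trans_le le_self_add

theorem exists_forcing : ∃ (P : Type) (_ : Preorder P), Nonempty P ∧ ∀ p : P,
    p ∈ fand (LocN K1 (fun C : Wt => C.1)) (fand (DistN KT) (fand (SizeN (fun a : KT => a.1))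
      (fall fun ξ => EscN {a : KT | a.1 = ξ} (fun j : HT => RelM j.1)))) := by
  have hK1 : Nonempty K1 := ⟨(exists_gt_K1 (C := ∅) countable_empty).choose⟩
  have hKT : Nonempty KT := by
    obtain ⟨ξ⟩ := hK1
    have h1 : #{a : KT | a.1 = ξ} ≠ 0 := by
      rw [mk_level]
      exact (beth_pos _).ne'
    obtain ⟨a, _⟩ := mk_ne_zero_iff.1 h1
    exact ⟨a⟩
  have hlt : ∀ ξ : K1, ¬ #{a : KT | a.1 = ξ} ≤ 2 ^ 𝔠 := by
    intro ξ
    rw [mk_level]
    exact not_le.2 (two_power_continuum_lt _)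
  refine ⟨Col Wt × SC KT, inferInstance, ⟨⟨⟨fun _ => none, hK1.some, fun _ _ => rfl⟩,
    ⟨fun _ _ => none, ?_, ?_⟩⟩⟩, fun p => ⟨loc_forced p, dist_forced p, size_forced (mk_col mk_Wt) ?_
    ?_ p, fun ξ => esc (col_closed Wt) (mk_col mk_Wt) (hlt ξ) mk_HT selM p⟩⟩
  · have h1 : {ξ : KT | ∃ n : ℕ, (none : Option Bool) ≠ none} = ∅ := by
      ext ξ; simp
    rw [h1]
    exact countable_empty
  · intro ξ
    have h1 : {n : ℕ | (none : Option Bool) = none} = Set.univ := by
      ext n; simp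
    rw [h1]
    exact infinite_univ
  · intro ξ η h
    rw [mk_level, mk_level]
    apply beth_strictMono
    exact (add_lt_add_iff_left _).2 ((Ordinal.typein_lt_typein (· < ·)).2 h)
  · intro ξ
    exact (cantor 𝔠).le.trans (not_le.1 (hlt ξ)).le

end Pool.Agent.U775.LG
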