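import Mathlib
import Pool.Agent.R594.Rai.Closure
import Pool.Agent.W876.Two.Gen

set_option autoImplicit false

/-!
# Fusion for the product of a countably closed notion of forcing and a countable support product of
copies of Silver forcing
-/

namespace Pool.Agent.U775.LG

open Set Cardinal Pool.Agent.R594.Rai Pool.Agent.Helper126.Sus.Forc

variable {K : Type} {Q : Type} [Preorder Q]

/-- decreasing sequences have lower bounds -/
def SClosed (Q : Type) [Preorder Q] : Prop := ∀ q : ℕ → Q, Antitone q → ∃ r, ∀ n, r ≤ q n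

theorem exists_limit' {S : Set K} {q : ℕ → SC K} (hq : Antitone q) (hS : ∀ k, In S (q k))
    (hinf : ∀ ξ, {n | ∀ k, (q k).f ξ n = none}.Infinite) :
    ∃ r, In S r ∧ (∀ k, r ≤ q k) ∧ ∀ ξ n, (∀ k, (q k).f ξ n = none) → r.f ξ n = none := by
  classical
  have key : ∀ ξ n k b, (q k).f ξ n = some b → ∀ (h : ∃ k, (q k).f ξ n ≠ none),
      (q h.choose).f ξ n = some b := by
    intro ξ n k b hb h
    have h1 := h.choose_spec
    rcases le_total h.choose k with h2 | h2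
    · cases h3 : (q h.choose).f ξ n with
      | none => exact absurd h3 h1
      | some c =>
        have h4 := hq h2 ξ n c h3
        rw [hb] at h4
        exact h4.symm
    · exact hq h2 ξ n b hb
  refine ⟨⟨fun ξ n => if h : ∃ k, (q k).f ξ n ≠ none then (q h.choose).f ξ n else none,
    ?_, ?_⟩, ?_, ?_, ?_⟩
  · refine (countable_iUnion fun k => (q k).countable).mono ?_
    rintro ξ ⟨n, hn⟩
    by_cases h : ∃ k, (q k).f ξ n ≠ none
    · obtain ⟨k, hk⟩ := h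
      exact mem_iUnion.2 ⟨k, n, hk⟩
    · exact absurd (dif_neg h) hn
  · intro ξ
    refine (hinf ξ).mono ?_
    intro n hn
    show (if h : ∃ k, (q k).f ξ n ≠ none then (q h.choose).f ξ n else none) = none
    rw [dif_neg]
    rintro ⟨k, hk⟩
    exact hk (hn k)
  · intro ξ hξ n
    show (if h : ∃ k, (q k).f ξ n ≠ none then (q h.choose).f ξ n else none) = none
    rw [dif_neg]
    rintro ⟨k, hk⟩
    exact hk (hS k ξ hξ n)
  · intro k ξ n b hb
    show (if h : ∃ k, (q k).f ξ n ≠ none then (q h.choose).f ξ n else none) = some b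
    have h : ∃ k, (q k).f ξ n ≠ none := ⟨k, by rw [hb]; simp⟩
    rw [dif_pos h]
    exact key ξ n k b hb h
  · intro ξ n hn
    show (if h : ∃ k, (q k).f ξ n ≠ none then (q h.choose).f ξ n else none) = none
    rw [dif_neg]
    rintro ⟨k, hk⟩
    exact hk (hn k)

/-- the data of a step of a fusion -/
structure St (Q K X : Type) where
  /-- the first coordinate of the condition -/
  c : Q
  /-- the second coordinate of the condition -/
  p : SC K
  /-- free points -/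
  W : Finset (K × ℕ)
  /-- free points which remain free -/
  E : Finset (K × ℕ)
  /-- other data -/
  x : X

theorem scheme [Nonempty K] (hQ : SClosed Q) {S : Set K} {X : Type}
    (I : ℕ → St Q K X → Prop) (R : ℕ → St Q K X → St Q K X → Prop)
    (hI : ∀ k s, I k s → In S s.p ∧ (∀ w ∈ s.W, w.1 ∈ S) ∧ Free s.W s.p ∧ s.E ⊆ s.W)
    (hR : ∀ k s t, R k s t → t.c ≤ s.c ∧ t.p ≤ s.p ∧ s.W ⊆ t.W ∧ s.E ⊆ t.E)
    (step : ∀ k s (ξ : K), I k s → ∃ t, I (k + 1) t ∧ R k s t ∧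
      (ξ ∈ S → ∃ m, (ξ, m) ∈ t.E ∧ (ξ, m) ∉ s.W)) {s0 : St Q K X} (h0 : I 0 s0) :
    ∃ (s : ℕ → St Q K X) (c : Q) (p : SC K), s 0 = s0 ∧
      (∀ k, I k (s k) ∧ R k (s k) (s (k + 1))) ∧
      (∀ k, c ≤ (s k).c ∧ p ≤ (s k).p ∧ Free (s k).W p) ∧ In S p ∧
      (∀ ξ n, (∀ k, (s k).p.f ξ n = none) → p.f ξ n = none) ∧
      ∀ ξ, ((∃ n, p.f ξ n ≠ none) ∨ ∃ k n, (ξ, n) ∈ (s k).W) →
        {n | ∃ k, (ξ, n) ∈ (s k).E}.Infinite := by
  classical
  -- enumerations of the coordinates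
  have henum : ∀ s : St Q K X, ∃ e : ℕ → K, ∀ ξ, ((∃ n, s.p.f ξ n ≠ none) ∨ ∃ n, (ξ, n) ∈ s.W) →
      ∃ i, e i = ξ := by
    intro s
    obtain ⟨e, he⟩ := countable_iff_exists_subset_range.1
      (s.p.countable.union (s.W.image Prod.fst).countable_toSet)
    refine ⟨e, fun ξ hξ => he ?_⟩
    rcases hξ with h | ⟨n, h⟩
    · exact Or.inl h
    · refine Or.inr ?_
      rw [Finset.mem_coe, Finset.mem_image]
      exact ⟨_, h, rfl⟩
  choose en hen using henum
  let I' : ℕ → St Q K X × (ℕ → ℕ → K) → Prop := fun n a => I n a.1 ∧ a.2 n = en a.1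
  let R' : ℕ → St Q K X × (ℕ → ℕ → K) → St Q K X × (ℕ → ℕ → K) → Prop := fun n a b =>
    R n a.1 b.1 ∧ (∀ j ≤ n, b.2 j = a.2 j) ∧
      (a.2 (Nat.unpair (Nat.unpair n).1).1 (Nat.unpair (Nat.unpair n).1).2 ∈ S → ∃ m,
        (a.2 (Nat.unpair (Nat.unpair n).1).1 (Nat.unpair (Nat.unpair n).1).2, m) ∈ b.1.E ∧
        (a.2 (Nat.unpair (Nat.unpair n).1).1 (Nat.unpair (Nat.unpair n).1).2, m) ∉ a.1.W)
  obtain ⟨s, hs0, hs⟩ := exists_chain I' R' (a := (s0, fun _ => en s0)) ⟨h0, rfl⟩ (by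
    rintro n ⟨t, F⟩ ⟨h1, h2⟩
    obtain ⟨t', h3, h4, h5⟩ := step n t
      (F (Nat.unpair (Nat.unpair n).1).1 (Nat.unpair (Nat.unpair n).1).2) h1
    refine ⟨(t', Function.update F (n + 1) (en t')), ⟨h3, ?_⟩, h4, ?_, h5⟩
    · simp only [Function.update_self]
    · intro j hj
      simp only
      rw [Function.update_of_ne (by omega)])
  have hstep : ∀ k, (s (k + 1)).1.c ≤ (s k).1.c ∧ (s (k + 1)).1.p ≤ (s k).1.p ∧
      (s k).1.W ⊆ (s (k + 1)).1.W ∧ (s k).1.E ⊆ (s (k + 1)).1.E := fun k =>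
    hR k _ _ (hs k).2.1
  have hinv : ∀ k, In S (s k).1.p ∧ (∀ w ∈ (s k).1.W, w.1 ∈ S) ∧ Free (s k).1.W (s k).1.p ∧
      (s k).1.E ⊆ (s k).1.W := fun k => hI k _ (hs k).1.1
  have hantiC : Antitone fun n => (s n).1.c := antitone_nat_of_succ_le fun n => (hstep n).1
  have hanti : Antitone fun n => (s n).1.p := antitone_nat_of_succ_le fun n => (hstep n).2.1
  have hWmono : Monotone fun n => (s n).1.W := monotone_nat_of_le_succ fun n => (hstep n).2.2.1
  have hEmono : Monotone fun n => (s n).1.E := monotone_nat_of_le_succ fun n => (hstep n).2.2.2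
  have hE : ∀ k n, k ≤ n → (s n).2 k = en (s k).1 := by
    intro k n hkn
    induction n, hkn using Nat.le_induction with
    | base => exact (hs k).1.2
    | succ n hkn ih => rw [(hs n).2.2.1 k hkn, ih]
  have hfree : ∀ k ξ n, (ξ, n) ∈ (s k).1.W → ∀ j, (s j).1.p.f ξ n = none := by
    intro k ξ n hn j
    have h4 := (hinv (max j k)).2.2.1 (ξ, n) (hWmono (le_max_right _ _) hn)
    exact none_of_le (hanti (le_max_left j k)) h4
  -- infinitely many points at the coordinates which occur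
  have hocc : ∀ ξ, (∃ k, (∃ n, (s k).1.p.f ξ n ≠ none) ∨ ∃ n, (ξ, n) ∈ (s k).1.W) →
      {n | ∃ k, (ξ, n) ∈ (s k).1.E}.Infinite := by
    rintro ξ ⟨k, hk⟩
    obtain ⟨i, hi⟩ := hen (s k).1 ξ hk
    have hξS : ξ ∈ S := by
      rcases hk with ⟨n, hn⟩ | ⟨n, hn⟩
      · by_contra hcon
        exact hn ((hinv k).1 ξ hcon n)
      · exact (hinv k).2.1 _ hn
    have h1 : ∀ l, ∃ m, (ξ, m) ∈ (s (Nat.pair (Nat.pair k i) l + 1)).1.E ∧
        (ξ, m) ∉ (s (Nat.pair (Nat.pair k i) l)).1.W := by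
      intro l
      have h2 : k ≤ Nat.pair (Nat.pair k i) l :=
        (Nat.left_le_pair k i).trans (Nat.left_le_pair _ l)
      have h3 := (hs (Nat.pair (Nat.pair k i) l)).2.2.2
      simp only [Nat.unpair_pair] at h3
      rw [hE k _ h2, hi] at h3
      exact h3 hξS
    choose m hm1 hm2 using h1
    refine Set.infinite_of_injective_forall_mem (f := m) ?_ (fun l => ⟨_, hm1 l⟩)
    have hlt : ∀ l l', l < l' → m l ≠ m l' := by
      intro l l' hll heq
      apply hm2 l'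
      rw [← heq]
      have h4 := (hinv _).2.2.2 (hm1 l)
      refine hWmono ?_ h4
      have := Nat.pair_lt_pair_right (Nat.pair k i) hll
      omega
    intro l l' heq
    rcases lt_trichotomy l l' with h | h | h
    · exact absurd heq (hlt _ _ h)
    · exact h
    · exact absurd heq.symm (hlt _ _ h)
  obtain ⟨c, hc⟩ := hQ _ hantiC
  obtain ⟨p, hp1, hp2, hp3⟩ := exists_limit' (S := S) hanti (fun k => (hinv k).1) (by
    intro ξ
    by_cases hξ : ∀ k n, (s k).1.p.f ξ n = none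
    · have h1 : {n | ∀ k, (s k).1.p.f ξ n = none} = Set.univ :=
        Set.eq_univ_of_forall fun n k => hξ k n
      rw [h1]
      exact infinite_univ
    · push Not at hξ
      obtain ⟨k, n, hkn⟩ := hξ
      refine (hocc ξ ⟨k, Or.inl ⟨n, hkn⟩⟩).mono ?_
      rintro m ⟨j, hj⟩ l
      exact hfree j ξ m ((hinv j).2.2.2 hj) l)
  refine ⟨fun k => (s k).1, c, p, by simp only; rw [hs0], fun k => ⟨(hs k).1.1, (hs k).2.1⟩,
    fun k => ⟨hc k, hp2 k, fun w hw => hp3 _ _ (hfree k w.1 w.2 hw)⟩, hp1, hp3, ?_⟩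
  rintro ξ (⟨n, hn⟩ | ⟨k, n, hn⟩)
  · have h1 : ∃ k, (s k).1.p.f ξ n ≠ none := by
      by_contra hcon
      push Not at hcon
      exact hn (hp3 ξ n hcon)
    obtain ⟨k, hk⟩ := h1
    exact hocc ξ ⟨k, Or.inl ⟨n, hk⟩⟩
  · exact hocc ξ ⟨k, Or.inr ⟨n, hn⟩⟩

/-! ### Processing the nodes -/

/-- an extension of a node gives an extension of the condition -/
theorem lift {p r : SC K} {W A : Finset (K × ℕ)} (hW : Free W p) (hr : r ≤ fx p W A) :
    fr r W ≤ p ∧ Free W (fr r W) ∧ fx (fr r W) W A ≤ r := by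
  refine ⟨?_, fun w hw => fr_f_of hw, ?_⟩
  · intro ξ n b hb
    have h : (ξ, n) ∉ W := fun h => by rw [hW _ h] at hb; exact absurd hb (by simp)
    rw [fr_f_of_not h]
    apply hr
    rw [fx_f_of_not h]
    exact hb
  · intro ξ n b hb
    by_cases hw : (ξ, n) ∈ W
    · by_cases hA2 : (ξ, n) ∈ A
      · have h11 := hr ξ n true (fx_f_of hw hA2)
        rw [h11] at hb
        rw [fx_f_of hw hA2]
        exact hb
      · have h11 := hr ξ n false (fx_f_of' hw hA2)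
        rw [h11] at hb
        rw [fx_f_of' hw hA2]
        exact hb
    · rw [fx_f_of_not hw, fr_f_of_not hw]
      exact hb

theorem finite_step' {S : Set K} {Y : Type} {φ : Y → Set (Q × SC K)}
    (hdown : ∀ y, ∀ p ∈ φ y, ∀ q ≤ p, q ∈ φ y) {w0 : Q × SC K}
    (hdense : ∀ w ≤ w0, In S w.2 → ∃ r ≤ w, In S r.2 ∧ ∃ y, r ∈ φ y) {W : Finset (K × ℕ)}
    (hWS : ∀ w ∈ W, w.1 ∈ S) (𝒜 : Finset (Finset (K × ℕ))) {w : Q × SC K} (hw : w ≤ w0)
    (hS : In S w.2) (hW : Free W w.2) :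
    ∃ w' ≤ w, In S w'.2 ∧ Free W w'.2 ∧ ∀ A ∈ 𝒜, ∃ y, (w'.1, fx w'.2 W A) ∈ φ y := by
  classical
  induction 𝒜 using Finset.induction_on with
  | empty => exact ⟨w, le_rfl, hS, hW, fun A hA => absurd hA (Finset.notMem_empty A)⟩
  | insert A 𝒜 hA ih =>
    obtain ⟨w1, h1, h2, h3, h5⟩ := ih
    have h6 : (w1.1, fx w1.2 W A) ≤ w1 := ⟨le_rfl, fx_le h3 A⟩
    obtain ⟨r, h7, h8, y, h9⟩ := hdense _ (h6.trans (h1.trans hw)) (in_fx h2 hWS A)
    obtain ⟨h10, h11, h12⟩ := lift h3 h7.2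
    refine ⟨(r.1, fr r.2 W), (show (r.1, fr r.2 W) ≤ w1 from ⟨h7.1, h10⟩).trans h1, in_fr h8 W,
      h11, ?_⟩
    intro A' hA'
    rcases Finset.mem_insert.1 hA' with rfl | hA'
    · exact ⟨y, hdown y r h9 _ ⟨le_rfl, h12⟩⟩
    · obtain ⟨y', h13⟩ := h5 A' hA'
      exact ⟨y', hdown _ _ h13 _ ⟨h7.1, fx_mono h10 W A'⟩⟩

/-- the finite set of the true points of `W` -/
theorem exists_node (W : Finset (K × ℕ)) (r : SC K) : ∃ A ⊆ W, fx r W A ≤ r ∧
    ∀ w ∈ W, (r.f w.1 w.2 = some true → w ∈ A) ∧ (r.f w.1 w.2 = some false → w ∉ A) ∧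
      (r.f w.1 w.2 = none → w ∉ A) := by
  classical
  refine ⟨W.filter fun w => r.f w.1 w.2 = some true, Finset.filter_subset _ _, ?_, ?_⟩
  · intro ξ n b hb
    by_cases hw : (ξ, n) ∈ W
    · cases b with
      | true => exact fx_f_of hw (Finset.mem_filter.2 ⟨hw, hb⟩)
      | false =>
        refine fx_f_of' hw (fun hA => ?_)
        have h2 : r.f ξ n = some true := (Finset.mem_filter.1 hA).2
        rw [hb] at h2
        exact absurd h2 (by simp)
    · rw [fx_f_of_not hw]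
      exact hb
  · intro w hw
    refine ⟨fun h => Finset.mem_filter.2 ⟨hw, h⟩, fun h h' => ?_, fun h h' => ?_⟩
    · rw [(Finset.mem_filter.1 h').2] at h
      exact absurd h (by simp)
    · rw [(Finset.mem_filter.1 h').2] at h
      exact absurd h (by simp)

/-- **Fusion.** -/
theorem fus [Nonempty K] (hQ : SClosed Q) {S : Set K} {Y : Type} {φ : ℕ → Y → Set (Q × SC K)}
    (hdown : ∀ n y, ∀ p ∈ φ n y, ∀ q ≤ p, q ∈ φ n y) {w : Q × SC K} (hw : In S w.2)
    (hdense : ∀ n, ∀ q ≤ w, In S q.2 → ∃ r ≤ q, In S r.2 ∧ ∃ y, r ∈ φ n y) :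
    ∃ q ≤ w, In S q.2 ∧ ∃ W : ℕ → Finset (K × ℕ), (∀ n, (W n).card ≤ n) ∧
      (∀ n, Free (W n) q.2) ∧ ∀ n, ∀ A ⊆ W n, ∃ y, (q.1, fx q.2 (W n) A) ∈ φ n y := by
  classical
  let I : ℕ → St Q K Unit → Prop := fun n s =>
    In S s.p ∧ (∀ w ∈ s.W, w.1 ∈ S) ∧ Free s.W s.p ∧ s.E = s.W ∧ (s.c, s.p) ≤ w ∧ s.W.card ≤ n
  let R : ℕ → St Q K Unit → St Q K Unit → Prop := fun n s t =>
    t.c ≤ s.c ∧ t.p ≤ s.p ∧ s.W ⊆ t.W ∧ s.E ⊆ t.E ∧ ∀ A ⊆ s.W, ∃ y, (t.c, fx t.p s.W A) ∈ φ n y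
  obtain ⟨s, c, p, hs0, hs, hcp, hpS, -, -⟩ := scheme hQ (S := S) I R
    (fun k s h => ⟨h.1, h.2.1, h.2.2.1, h.2.2.2.1.le⟩)
    (fun k s t h => ⟨h.1, h.2.1, h.2.2.1, h.2.2.2.1⟩) (by
      rintro n ⟨c, p, W, E, x⟩ ξ ⟨h1, h2, h3, h4, h5, h6⟩
      simp only at h1 h2 h3 h4 h5 h6
      subst h4
      obtain ⟨w', h7, h8, h9, h10⟩ := finite_step' (hdown n) (hdense n) h2 E.powerset
        (w := (c, p)) h5 h1 h3
      obtain ⟨m, hm1, hm2⟩ : ∃ m, w'.2.f ξ m = none ∧ (ξ, m) ∉ E := by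
        obtain ⟨m, hm, hm'⟩ := ((w'.2.infinite ξ).sdiff (E.image Prod.snd).finite_toSet).nonempty
        refine ⟨m, hm, fun h => hm' ?_⟩
        rw [Finset.mem_coe, Finset.mem_image]
        exact ⟨_, h, rfl⟩
      refine ⟨⟨w'.1, w'.2, if ξ ∈ S then insert (ξ, m) E else E,
        if ξ ∈ S then insert (ξ, m) E else E, ()⟩, ⟨h8, ?_, ?_, rfl, ?_, ?_⟩,
        ⟨h7.1, h7.2, ?_, ?_, ?_⟩, ?_⟩
      · intro w hw
        simp only at hw
        split_ifs at hw with hS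
        · rcases Finset.mem_insert.1 hw with rfl | hw
          · exact hS
          · exact h2 w hw
        · exact h2 w hw
      · intro w hw
        simp only at hw
        split_ifs at hw with hS
        · rcases Finset.mem_insert.1 hw with rfl | hw
          · exact hm1
          · exact h9 w hw
        · exact h9 w hw
      · exact (show (w'.1, w'.2) ≤ (c, p) from h7).trans h5
      · simp only
        split_ifs with hS
        · exact (Finset.card_insert_le _ _).trans (by omega)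
        · omega
      · simp only
        split_ifs with hS
        · exact Finset.subset_insert _ _
        · exact Finset.Subset.refl _
      · simp only
        split_ifs with hS
        · exact Finset.subset_insert _ _
        · exact Finset.Subset.refl _
      · intro A hA
        exact h10 A (Finset.mem_powerset.2 hA)
      · intro hS
        simp only
        rw [if_pos hS]
        exact ⟨m, Finset.mem_insert_self _ _, hm2⟩) (s0 := ⟨w.1, w.2, ∅, ∅, ()⟩)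
    ⟨hw, fun w hw => absurd hw (Finset.notMem_empty w), fun w hw => absurd hw
      (Finset.notMem_empty w), rfl, le_rfl, by simp⟩
  refine ⟨(c, p), ?_, hpS, fun n => (s n).W, fun n => (hs n).1.2.2.2.2.2, fun n => (hcp n).2.2,
    fun n A hA => ?_⟩
  · have h1 := hcp 0
    rw [hs0] at h1
    exact ⟨h1.1, h1.2.1⟩
  · obtain ⟨y, hy⟩ := (hs n).2.2.2.2.2 A hA
    exact ⟨y, hdown _ _ _ hy _ ⟨(hcp (n + 1)).1, fx_mono (hcp (n + 1)).2.1 _ _⟩⟩

/-- **The Sacks property.** -/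
theorem sacks [Nonempty K] (hQ : SClosed Q) {S : Set K} {Y : Type} {φ : ℕ → Y → Set (Q × SC K)}
    (hdown : ∀ n y, ∀ p ∈ φ n y, ∀ q ≤ p, q ∈ φ n y) {w : Q × SC K} (hw : In S w.2)
    (hdense : ∀ n, ∀ q ≤ w, In S q.2 → ∃ r ≤ q, In S r.2 ∧ ∃ y, r ∈ φ n y) :
    ∃ q ≤ w, In S q.2 ∧ ∃ C : ℕ → Finset Y, (∀ n, (C n).card ≤ 2 ^ n) ∧
      ∀ n, ∀ r ≤ q, ∃ s ≤ r, ∃ y ∈ C n, s ∈ φ n y := by
  classical
  obtain ⟨q, h1, h2, W, h3, h4, h5⟩ := fus hQ hdown hw hdense
  have h6 : ∀ n (A : {A : Finset (K × ℕ) // A ∈ (W n).powerset}), ∃ y,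
      (q.1, fx q.2 (W n) A.1) ∈ φ n y := fun n A => h5 n A.1 (Finset.mem_powerset.1 A.2)
  choose y hy using h6
  refine ⟨q, h1, h2, fun n => (W n).powerset.attach.image (y n), fun n => ?_, fun n r hr => ?_⟩
  · refine Finset.card_image_le.trans ?_
    rw [Finset.card_attach, Finset.card_powerset]
    exact Nat.pow_le_pow_right (by norm_num) (h3 n)
  · obtain ⟨A, hA, h7, -⟩ := exists_node (W n) r.2
    refine ⟨(r.1, fx r.2 (W n) A), ⟨le_rfl, h7⟩, y n ⟨A, Finset.mem_powerset.2 hA⟩,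
      Finset.mem_image_of_mem _ (Finset.mem_attach _ _), ?_⟩
    exact hdown _ _ _ (hy n ⟨A, Finset.mem_powerset.2 hA⟩) _ ⟨hr.1, fx_mono hr.2 _ _⟩

end Pool.Agent.U775.LG
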