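import Pool.Agent.U775.LG.Group

set_option autoImplicit false

/-!
# A map from the Cantor space to `ℝⁿ`
-/

namespace Pool.Agent.U775.LG

open Set Cardinal Filter Topology

/-- the natural number with the first `m` bits -/
def vb : ℕ → (ℕ → Bool) → ℕ
  | 0, _ => 0
  | m + 1, x => 2 * vb m x + (if x m then 1 else 0)

theorem vb_congr {m : ℕ} {x y : ℕ → Bool} (h : ∀ i < m, x i = y i) : vb m x = vb m y := by
  induction m with
  | zero => rfl
  | succ m ih => rw [vb, vb, ih (fun i hi => h i (by omega)), h m (by omega)]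

theorem vb_inj {m : ℕ} {x y : ℕ → Bool} (h : vb m x = vb m y) : ∀ i < m, x i = y i := by
  induction m with
  | zero => intro i hi; omega
  | succ m ih =>
    rw [vb, vb] at h
    have h1 : vb m x = vb m y ∧ x m = y m := by
      cases hx : x m <;> cases hy : y m <;> simp [hx, hy] at h ⊢ <;> omega
    intro i hi
    rcases Nat.lt_succ_iff_lt_or_eq.1 hi with h2 | h2
    · exact ih h1.1 i h2
    · rw [h2]; exact h1.2

theorem vb_lt (m : ℕ) (x : ℕ → Bool) : vb m x < 2 ^ m := by
  induction m with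
  | zero => simp [vb]
  | succ m ih =>
    rw [vb, pow_succ]
    split_ifs <;> omega

/-- the dyadic approximations -/
noncomputable def ap (m : ℕ) (x : ℕ → Bool) : ℝ := (vb m x : ℝ) / 2 ^ m

theorem ap_mono (x : ℕ → Bool) : Monotone fun m => ap m x := by
  apply monotone_nat_of_le_succ
  intro m
  show (vb m x : ℝ) / 2 ^ m ≤ (vb (m + 1) x : ℝ) / 2 ^ (m + 1)
  rw [div_le_div_iff₀ (by positivity) (by positivity), vb]
  push_cast
  have h1 : (0 : ℝ) ≤ if x m = true then 1 else 0 := by split_ifs <;> norm_num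
  have h2 : (0 : ℝ) < 2 ^ m := by positivity
  rw [pow_succ]
  nlinarith

theorem ap_anti (x : ℕ → Bool) : Antitone fun m => ap m x + 1 / 2 ^ m := by
  apply antitone_nat_of_succ_le
  intro m
  show (vb (m + 1) x : ℝ) / 2 ^ (m + 1) + 1 / 2 ^ (m + 1) ≤ (vb m x : ℝ) / 2 ^ m + 1 / 2 ^ m
  rw [← add_div, ← add_div, div_le_div_iff₀ (by positivity) (by positivity), vb]
  push_cast
  have h1 : (if x m = true then (1 : ℝ) else 0) ≤ 1 := by split_ifs <;> norm_num
  have h2 : (0 : ℝ) < 2 ^ m := by positivity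
  rw [pow_succ]
  nlinarith

theorem ap_le (m m' : ℕ) (x : ℕ → Bool) : ap m x ≤ ap m' x + 1 / 2 ^ m' := by
  have h1 := ap_mono x (le_max_left m m')
  have h2 := ap_anti x (le_max_right m m')
  simp only at h1 h2
  have h3 : (0 : ℝ) < 1 / 2 ^ (max m m') := by positivity
  linarith

/-- the number with the given binary digits -/
noncomputable def ph (x : ℕ → Bool) : ℝ := ⨆ m, ap m x

theorem ph_bounds (m : ℕ) (x : ℕ → Bool) :
    (vb m x : ℝ) ≤ 2 ^ m * ph x ∧ 2 ^ m * ph x ≤ vb m x + 1 := by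
  have h1 : ap m x ≤ ph x := le_ciSup (f := fun m => ap m x) ⟨ap 0 x + 1 / 2 ^ 0, by
    rintro _ ⟨m', rfl⟩
    exact ap_le m' 0 x⟩ m
  have h2 : ph x ≤ ap m x + 1 / 2 ^ m := ciSup_le fun m' => ap_le m' m x
  have hpos : (0 : ℝ) < 2 ^ m := by positivity
  unfold ap at h1 h2
  constructor
  · rw [div_le_iff₀ hpos] at h1
    linarith
  · rw [← add_div, le_div_iff₀ hpos] at h2
    linarith

theorem continuous_vb (m : ℕ) : Continuous fun x => (vb m x : ℝ) := by
  induction m with
  | zero => simpa [vb] using continuous_const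
  | succ m ih =>
    have h1 : Continuous fun x : ℕ → Bool => (if x m = true then (1 : ℝ) else 0) :=
      (continuous_of_discreteTopology (f := fun b : Bool => if b = true then (1 : ℝ) else 0)).comp
        (continuous_apply m)
    have h2 : (fun x => (vb (m + 1) x : ℝ)) =
        fun x => 2 * (vb m x : ℝ) + (if x m = true then (1 : ℝ) else 0) := by
      funext x
      rw [vb]
      push_cast
      rfl
    rw [h2]
    exact (continuous_const.mul ih).add h1

theorem continuous_ph : Continuous ph := by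
  refine TendstoUniformly.continuous (F := fun m x => ap m x) (p := atTop) ?_
    (Eventually.frequently (Eventually.of_forall fun m => (continuous_vb m).div_const _))
  rw [Metric.tendstoUniformly_iff]
  intro ε hε
  obtain ⟨k, hk⟩ := exists_pow_lt_of_lt_one hε (by norm_num : (1 / 2 : ℝ) < 1)
  filter_upwards [eventually_ge_atTop k] with m hm x
  obtain ⟨h1, h2⟩ := ph_bounds m x
  have hpos : (0 : ℝ) < 2 ^ m := by positivity
  have h3 : (1 / 2 : ℝ) ^ m ≤ (1 / 2) ^ k := pow_le_pow_of_le_one (by norm_num) (by norm_num) hm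
  have h4 : |ph x - ap m x| ≤ (1 / 2) ^ m := by
    have e : ph x - ap m x = (2 ^ m * ph x - vb m x) / 2 ^ m := by
      unfold ap
      field_simp
    rw [e, abs_div, abs_of_pos hpos, one_div_pow]
    apply div_le_div_of_nonneg_right _ hpos.le
    rw [abs_le]
    constructor <;> linarith
  rw [Real.dist_eq]
  linarith

theorem eq_ph {x : ℕ → Bool} {y : ℝ} (h : ∀ m : ℕ, |2 ^ m * y - vb m x| ≤ 1) : ph x = y := by
  by_contra hne
  have h2 : 0 < |ph x - y| := abs_pos.2 (sub_ne_zero.2 hne)
  obtain ⟨n, hn⟩ := pow_unbounded_of_one_lt (2 / |ph x - y|) (one_lt_two)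
  rw [div_lt_iff₀ h2] at hn
  have h3 := h n
  obtain ⟨h4, h5⟩ := ph_bounds n x
  have h6 : 2 ^ n * |ph x - y| ≤ 2 := by
    have e : 2 ^ n * |ph x - y| = |2 ^ n * ph x - 2 ^ n * y| := by
      rw [← mul_sub, abs_mul, abs_of_pos (by positivity : (0 : ℝ) < 2 ^ n)]
    rw [e]
    rw [abs_le] at h3 ⊢
    constructor <;> linarith [h3.1, h3.2]
  linarith

/-- the sequence of bits of a real number -/
noncomputable def bt (y : ℝ) (i : ℕ) : Bool := by
  classical
  exact decide (dg y i)

theorem val_eq_vb (m : ℕ) (σ : Finset ℕ) (x : ℕ → Bool) (h : ∀ i < m, x i = true ↔ i ∈ σ) :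
    val m σ = vb m x := by
  induction m with
  | zero => rfl
  | succ m ih =>
    rw [val, vb, ih (fun i hi => h i (by omega))]
    have := h m (by omega)
    by_cases h1 : m ∈ σ
    · rw [if_pos h1, if_pos (this.2 h1)]
    · rw [if_neg h1, if_neg (fun h2 => h1 (this.1 h2))]

theorem vb_bt {y : ℝ} (h0 : 0 ≤ y) (h1 : y < 1) (m : ℕ) : (vb m (bt y) : ℤ) = ⌊2 ^ m * y⌋ := by
  classical
  have h2 : ⌊2 ^ m * Int.fract y⌋ = val m ((Finset.range m).filter fun i => dg y i) :=
    floor_eq_val fun i hi => by simp [hi]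
  rw [Int.fract_eq_self.2 ⟨h0, h1⟩] at h2
  rw [h2, val_eq_vb m _ (bt y) (fun i hi => by simp [hi, bt])]

theorem ph_bt {y : ℝ} (h0 : 0 ≤ y) (h1 : y < 1) : ph (bt y) = y := by
  refine eq_ph fun m => ?_
  have h2 := vb_bt h0 h1 m
  have h3 := Int.floor_le (2 ^ m * y)
  have h4 := Int.lt_floor_add_one (2 ^ m * y)
  rw [← h2] at h3 h4
  push_cast at h3 h4
  rw [abs_le]
  constructor <;> linarith

/-- the sequence is eventually true -/
def ET (x : ℕ → Bool) : Prop := ∃ m, ∀ j ≥ m, x j = true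

theorem ph_inj_aux {x x' : ℕ → Bool} (h : ph x = ph x') {m : ℕ} (hm : vb m x < vb m x') :
    ET x ∧ ¬ ET x' := by
  have key : ∀ j, vb (m + j) x + 1 = vb (m + j) x' := by
    intro j
    have h1 : ∀ m, vb m x' ≤ vb m x + 1 := by
      intro m
      have h2 := (ph_bounds m x').1
      have h3 := (ph_bounds m x).2
      rw [h] at h3
      exact_mod_cast h2.trans h3
    have h2 : ∀ j, vb (m + j) x < vb (m + j) x' := by
      intro j
      induction j with
      | zero => exact hm
      | succ j ih =>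
        rw [← add_assoc, vb, vb]
        have h3 := h1 (m + j + 1)
        rw [vb, vb] at h3
        split_ifs at h3 ⊢ <;> omega
    have := h1 (m + j)
    have := h2 j
    omega
  have h2 : ∀ j, x (m + j) = true ∧ x' (m + j) = false := by
    intro j
    have h3 := key j
    have h4 := key (j + 1)
    rw [← add_assoc, vb, vb] at h4
    cases hx : x (m + j) <;> cases hx' : x' (m + j) <;> simp [hx, hx'] at h4 ⊢ <;> omega
  refine ⟨⟨m, fun j hj => ?_⟩, ?_⟩
  · have := (h2 (j - m)).1
    rwa [Nat.add_sub_cancel' hj] at this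
  · rintro ⟨k, hk⟩
    have h3 := (h2 k).2
    rw [hk (m + k) (by omega)] at h3
    exact absurd h3 (by simp)

theorem ph_inj {x x' : ℕ → Bool} (h : ph x = ph x') (he : ET x ↔ ET x') : x = x' := by
  by_contra hne
  have h1 : ∃ m, vb m x ≠ vb m x' := by
    by_contra hcon
    push Not at hcon
    exact hne (funext fun i => vb_inj (hcon (i + 1)) i (by omega))
  obtain ⟨m, hm⟩ := h1
  rcases lt_or_gt_of_ne hm with h2 | h2
  · have := ph_inj_aux h h2
    tauto
  · have := ph_inj_aux h.symm h2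
    tauto

/-- every `n`-th bit, starting with the bit with the index `i` -/
def sl (n i : ℕ) (x : ℕ → Bool) (j : ℕ) : Bool := x (n * j + i)

/-- the map to `ℝⁿ` -/
noncomputable def phn (n : ℕ) (x : ℕ → Bool) (i : Fin n) : ℝ := ph (sl n i x)

theorem continuous_sl (n i : ℕ) : Continuous (sl n i) :=
  continuous_pi fun j => continuous_apply (n * j + i)

theorem continuous_phn (n : ℕ) : Continuous (phn n) :=
  continuous_pi fun i => continuous_ph.comp (continuous_sl n i)

theorem phn_inj {n : ℕ} (hn : 0 < n) {x x' : ℕ → Bool} (h : phn n x = phn n x')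
    (he : ∀ i : Fin n, ET (sl n i x) ↔ ET (sl n i x')) : x = x' := by
  funext k
  have h1 : sl n (k % n) x = sl n (k % n) x' :=
    ph_inj (congrFun h ⟨k % n, Nat.mod_lt _ hn⟩) (he ⟨k % n, Nat.mod_lt _ hn⟩)
  have h2 := congrFun h1 (k / n)
  unfold sl at h2
  rwa [Nat.div_add_mod] at h2

/-- The set and its image have the same size. -/
theorem mk_image_phn {n : ℕ} (hn : 0 < n) {A : Set (ℕ → Bool)} (hA : A.Infinite) :
    #A ≤ #(phn n '' A) := by
  let f : A → (phn n '' A) × (Fin n → Prop) := fun x => (⟨phn n x.1, x.1, x.2, rfl⟩,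
    fun i => ET (sl n i x.1))
  have hf : Function.Injective f := by
    intro x x' h
    apply Subtype.ext
    have h1 : phn n x.1 = phn n x'.1 := congrArg (fun p => p.1.1) h
    have h2 : (fun i : Fin n => ET (sl n i x.1)) = fun i : Fin n => ET (sl n i x'.1) :=
      congrArg Prod.snd h
    exact phn_inj hn h1 fun i => iff_of_eq (congrFun h2 i)
  have hA' : ℵ₀ ≤ #A := by
    have := hA.to_subtype
    exact aleph0_le_mk A
  have h1 := mk_le_of_injective hf
  rw [mk_prod, lift_id, lift_id] at h1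
  have h2 : #(Fin n → Prop) < ℵ₀ := lt_aleph0_of_finite _
  have h3 : ℵ₀ ≤ #(phn n '' A) := by
    by_contra hcon
    rw [not_le] at hcon
    exact absurd (hA'.trans h1) (not_le.2 (mul_lt_aleph0 hcon h2))
  exact h1.trans ((mul_le_mul_right (h2.le.trans h3) _).trans (mul_eq_self h3).le)

/-- The image of a cylinder contains an open box. -/
theorem box_subset {n : ℕ} (hn : 0 < n) (z : ℕ → Bool) (N : ℕ) :
    {y : Fin n → ℝ | ∀ i : Fin n, (vb N (sl n i z) : ℝ) < 2 ^ N * y i ∧
      2 ^ N * y i < vb N (sl n i z) + 1} ⊆ phn n '' {x | ∀ k < N, x k = z k} := by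
  intro y hy
  have hpos : (0 : ℝ) < 2 ^ N := by positivity
  have h0 : ∀ i, 0 ≤ y i ∧ y i < 1 := by
    intro i
    obtain ⟨h1, h2⟩ := hy i
    have h3 : (vb N (sl n i z) : ℝ) + 1 ≤ 2 ^ N := by
      have := vb_lt N (sl n i z)
      exact_mod_cast this
    constructor
    · by_contra hcon
      rw [not_le] at hcon
      have h4 : 2 ^ N * y i < 0 := mul_neg_of_pos_of_neg hpos hcon
      have h5 : (0 : ℝ) ≤ vb N (sl n i z) := by positivity
      linarith
    · by_contra hcon
      rw [not_lt] at hcon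
      have h4 : 2 ^ N * 1 ≤ 2 ^ N * y i := mul_le_mul_of_nonneg_left hcon hpos.le
      linarith
  have h1 : ∀ i : Fin n, ∀ j < N, bt (y i) j = sl n i z j := by
    intro i
    apply vb_inj
    have h2 := vb_bt (h0 i).1 (h0 i).2 N
    have h3 : ⌊2 ^ N * y i⌋ = (vb N (sl n i z) : ℤ) := by
      rw [Int.floor_eq_iff]
      push_cast
      exact ⟨(hy i).1.le, (hy i).2⟩
    rw [h3] at h2
    exact_mod_cast h2
  let x : ℕ → Bool := fun k => bt (y ⟨k % n, Nat.mod_lt _ hn⟩) (k / n)
  have h2 : ∀ i : Fin n, sl n i x = bt (y i) := by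
    intro i
    funext j
    show bt (y ⟨(n * j + i) % n, _⟩) ((n * j + i) / n) = bt (y i) j
    have h3 : (n * j + i) / n = j := by
      rw [Nat.mul_add_div hn, Nat.div_eq_of_lt i.2, add_zero]
    have h4 : (⟨(n * j + i) % n, Nat.mod_lt _ hn⟩ : Fin n) = i := by
      apply Fin.ext
      simp only
      rw [Nat.mul_add_mod, Nat.mod_eq_of_lt i.2]
    rw [h3, h4]
  refine ⟨x, fun k hk => ?_, ?_⟩
  · have h3 := h1 ⟨k % n, Nat.mod_lt _ hn⟩ (k / n) (lt_of_le_of_lt (Nat.div_le_self _ _) hk)
    show bt _ _ = _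
    rw [h3]
    show z _ = _
    simp only
    rw [Nat.div_add_mod]
  · funext i
    show ph (sl n i x) = y i
    rw [h2, ph_bt (h0 i).1 (h0 i).2]

end Pool.Agent.U775.LG
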