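import Pool.Agent.U775.LG.Exist
import Pool.Agent.U775.LG.Phi
import Pool.Agent.U775.LG.CofM

set_option autoImplicit false

/-!
# Luzin sets for the meagre ideal
-/

namespace Pool.Agent.U775.LG

open Set Cardinal Filter Topology

theorem meagre_preimage {n : ℕ} (hn : 0 < n) {B : Set (Fin n → ℝ)} (hB : IsMeagre B) :
    IsMeagre (phn n ⁻¹' B) := by
  rw [isMeagre_iff_countable_union_isNowhereDense] at hB ⊢
  obtain ⟨S, h1, h2, h3⟩ := hB
  refine ⟨(fun t => phn n ⁻¹' (closure t)) '' S, ?_, h2.image _, ?_⟩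
  · rintro _ ⟨t, ht, rfl⟩
    have hcl : IsClosed (phn n ⁻¹' (closure t)) := isClosed_closure.preimage (continuous_phn n)
    rw [IsClosed.isNowhereDense_iff hcl, eq_empty_iff_forall_notMem]
    intro z hz
    obtain ⟨N, hN⟩ := Pool.Agent.U775.MH.exists_cyl isOpen_interior hz
    have h4 : {y : Fin n → ℝ | ∀ i : Fin n, (vb N (sl n i z) : ℝ) < 2 ^ N * y i ∧
        2 ^ N * y i < vb N (sl n i z) + 1} ⊆ closure t := by
      refine (box_subset hn z N).trans ?_
      rintro _ ⟨x, hx, rfl⟩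
      apply interior_subset (hN ?_)
      intro i hi
      rw [Pool.Agent.U775.MH.length_ini] at hi
      rw [Pool.Agent.U775.MH.getD_ini hi]
      exact hx i hi
    have h5 : IsOpen {y : Fin n → ℝ | ∀ i : Fin n, (vb N (sl n i z) : ℝ) < 2 ^ N * y i ∧
        2 ^ N * y i < vb N (sl n i z) + 1} := by
      have e : {y : Fin n → ℝ | ∀ i : Fin n, (vb N (sl n i z) : ℝ) < 2 ^ N * y i ∧
        2 ^ N * y i < vb N (sl n i z) + 1} = ⋂ i : Fin n, {y : Fin n → ℝ |
          (vb N (sl n i z) : ℝ) < 2 ^ N * y i ∧ 2 ^ N * y i < vb N (sl n i z) + 1} := by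
        ext y
        simp
      rw [e]
      refine isOpen_iInter_of_finite fun i => ?_
      have h7 : Continuous fun y : Fin n → ℝ => 2 ^ N * y i := by fun_prop
      exact (isOpen_lt continuous_const h7).inter (isOpen_lt h7 continuous_const)
    have h6 : (fun i : Fin n => ((vb N (sl n i z) : ℝ) + 1 / 2) / 2 ^ N) ∈
        interior (closure t) := by
      refine interior_maximal h4 h5 fun i => ?_
      have hpos : (0 : ℝ) < 2 ^ N := by positivity
      rw [mul_div_cancel₀ _ hpos.ne']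
      constructor <;> linarith
    rw [show interior (closure t) = ∅ from h1 t ht] at h6
    exact h6
  · intro x hx
    obtain ⟨t, ht, h4⟩ := h3 hx
    exact ⟨_, ⟨t, ht, rfl⟩, subset_closure h4⟩

theorem continuum_le_of_xor {Y : Set (ℕ → Bool)}
    (h : ∀ x : ℕ → Bool, ∃ y ∈ Y, (fun i => xor (x i) (y i)) ∈ Y) : 𝔠 ≤ #Y := by
  choose y h1 h2 using h
  let f : (ℕ → Bool) → Y × Y := fun x => (⟨y x, h1 x⟩, ⟨_, h2 x⟩)
  have hf : Function.Injective f := by
    intro x x' hxx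
    have h3 : y x = y x' := congrArg (fun p => p.1.1) hxx
    have h4 : (fun i => xor (x i) (y x i)) = fun i => xor (x' i) (y x' i) :=
      congrArg (fun p => p.2.1) hxx
    funext i
    have h5 := congrFun h4 i
    simp only [h3] at h5
    revert h5
    cases x i <;> cases x' i <;> cases y x' i <;> simp
  have h3 := mk_le_of_injective hf
  rw [← mul_def] at h3
  have h4 : #(ℕ → Bool) = 𝔠 := by simp
  rw [h4] at h3
  have h5 : ℵ₀ ≤ #Y := by
    by_contra hcon
    rw [not_le] at hcon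
    exact absurd (aleph0_le_continuum.trans h3) (not_le.2 (mul_lt_aleph0 hcon hcon))
  exact h3.trans (mul_eq_self h5).le

theorem continuum_le_of_meagre {M : Set (ℕ → Bool)} (hM : IsMeagre M) : 𝔠 ≤ #(↥Mᶜ) := by
  apply continuum_le_of_xor
  intro x
  let e : (ℕ → Bool) ≃ₜ (ℕ → Bool) := 
    { toFun := fun y i => xor (x i) (y i)
      invFun := fun y i => xor (x i) (y i)
      left_inv := fun y => by funext i; simp
      right_inv := fun y => by funext i; simp
      continuous_toFun := continuous_pi fun i =>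
        (continuous_of_discreteTopology (f := fun b => xor (x i) b)).comp (continuous_apply i)
      continuous_invFun := continuous_pi fun i =>
        (continuous_of_discreteTopology (f := fun b => xor (x i) b)).comp (continuous_apply i) }
  have h1 : IsMeagre (e ⁻¹' M) := hM.preimage_of_isOpenMap e.continuous e.isOpenMap
  have h2 : (M ∪ e ⁻¹' M)ᶜ ∈ residual (ℕ → Bool) := hM.union h1
  obtain ⟨y, hy⟩ := (dense_of_mem_residual h2).nonempty
  exact ⟨y, fun h => hy (Or.inl h), fun h => hy (Or.inr h)⟩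

variable {Ω K W H : Type} [LinearOrder Ω] {r : K → Ω} {C : W → ℕ → Finset ℕ}
  {h : H → ℕ → ℕ}

theorem mk_le_continuum (hd : ∃ s : K → ℕ → Prop, ∀ a b, a ≠ b → ∃ i, ¬ (s a i ↔ s b i)) :
    #K ≤ 𝔠 := by
  obtain ⟨s, hs⟩ := hd
  have h1 : Function.Injective s := by
    intro a b hab
    by_contra hne
    obtain ⟨i, hi⟩ := hs a b hne
    rw [hab] at hi
    exact hi Iff.rfl
  have h2 := mk_le_of_injective h1
  simpa using h2

/-- Luzin sets for the meagre ideal in `ℝⁿ` -/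
theorem luzinM [Nonempty Ω] (hΩ : ∀ ξ : Ω, (Iio ξ).Countable) (hmax : ∀ ξ : Ω, ∃ η, ξ < η)
    (hinf : ∀ ξ, {a | r a = ξ}.Infinite) (hC : ∀ w k, (C w k).card ≤ 2 ^ k)
    (hloc : ∃ g : Ω → W, ∀ f : ℕ → ℕ, ∃ ξ, ∀ n, f n ∈ C (g ξ) n)
    (hdist : ∃ s : K → ℕ → Prop, ∀ a b, a ≠ b → ∃ i, ¬ (s a i ↔ s b i))
    (hsize : ∀ ξ η, ξ < η → ∀ F : K → K, ∃ b, r b = η ∧ ∀ a, r a = ξ → F a ≠ b)
    {n : ℕ} (hn : 0 < n) :
    ∃ A : Set (Fin n → ℝ), #K ≤ #A ∧ ∀ B, IsMeagre B → #(↥(A ∩ B)) < #K := by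
  obtain ⟨g, hg⟩ := hloc
  have hlt : ∀ ξ η, ξ < η → #{a | r a = ξ} < #{a | r a = η} :=
    fun ξ η h => level_lt hinf hsize h
  obtain ⟨A, h1, h2⟩ := exists_luzin hΩ hmax hinf hlt (I := fun B : Set (ℕ → Bool) => IsMeagre B)
    (F := fun ξ => meagOf (C (g ξ))) (fun B hB => by
      obtain ⟨f, hf⟩ := exists_codeM hB
      obtain ⟨ξ, h3⟩ := hg f
      exact ⟨ξ, hf _ (hC _) h3⟩) (fun ξ => by
      refine (mk_le_continuum hdist).trans ?_
      have h3 : (Iic ξ).Countable := by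
        have h3 : Iic ξ ⊆ insert ξ (Iio ξ) := fun s hs => (show s ≤ ξ from hs).eq_or_lt
        exact ((hΩ ξ).insert ξ).mono h3
      have h4 : IsMeagre (⋃ η ∈ Iic ξ, meagOf (C (g η))) :=
        isMeagre_biUnion h3 fun η _ => meagOf_meagre (hC _)
      refine (continuum_le_of_meagre h4).trans (mk_le_mk_of_subset ?_)
      intro x hx η hη hcon
      exact hx (mem_biUnion (show η ∈ Iic ξ from hη) hcon))
  have hA : A.Infinite := by
    obtain ⟨ξ⟩ := (inferInstance : Nonempty Ω)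
    have h3 : ℵ₀ ≤ #A := by
      have := (hinf ξ).to_subtype
      exact (aleph0_le_mk _).trans ((mk_set_le {a | r a = ξ}).trans h1)
    rw [← infinite_coe_iff]
    exact aleph0_le_mk_iff.1 h3
  refine ⟨phn n '' A, h1.trans (mk_image_phn hn hA), fun B hB => ?_⟩
  have h3 : phn n '' A ∩ B ⊆ phn n '' (A ∩ phn n ⁻¹' B) := by
    rintro _ ⟨⟨x, hx, rfl⟩, hB'⟩
    exact ⟨x, ⟨hx, hB'⟩, rfl⟩
  exact (mk_le_mk_of_subset h3).trans_lt (mk_image_le.trans_lt (h2 _ (meagre_preimage hn hB)))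

/-- No subgroup is a Luzin set for the meagre ideal. -/
theorem no_luzinM [Nonempty Ω] (hmax : ∀ ξ : Ω, ∃ η, ξ < η)
    (hinf : ∀ ξ, {a | r a = ξ}.Infinite) (hh : ∀ j, StrictMono (h j))
    (hsize : ∀ ξ η, ξ < η → ∀ F : K → K, ∃ b, r b = η ∧ ∀ a, r a = ξ → F a ≠ b)
    (hesc : ∀ ξ, Esc {a | r a = ξ} (fun j => RelM (h j)))
    {n : ℕ} (G : AddSubgroup (Fin n → ℝ)) (hG : #K ≤ #G)
    (hG2 : ∀ A, IsMeagre A → #(↥((G : Set (Fin n → ℝ)) ∩ A)) < #K) : False := by
  obtain ⟨ξ⟩ := (inferInstance : Nonempty Ω)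
  have hlt : ∀ ξ η, ξ < η → #{a | r a = ξ} < #{a | r a = η} :=
    fun ξ η h => level_lt hinf hsize h
  refine no_group (I := fun A => IsMeagre A) (bad := fun j => badM (h j)) (fun j y y' h1 =>
    badM_of h1) (fun j i => ?_) (hesc ξ) (hinf ξ) (level_lt_mk hmax hlt ξ) G hG hG2
  exact (badM_meagre (hh j)).preimage_of_isOpenMap (continuous_apply i) (isOpenMap_eval i)

end Pool.Agent.U775.LG
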