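import Pool.Agent.U775.LG.Cc

set_option autoImplicit false

/-!
# Many values of an undecided name
-/

namespace Pool.Agent.U775.LG

open Set Cardinal Pool.Agent.R594.Rai Pool.Agent.Helper126.Sus.Forc

variable {K : Type} {Q : Type} [Preorder Q]

theorem le_fx {r q : SC K} {W A : Finset (K × ℕ)} (hr : r ≤ q)
    (h1 : ∀ w ∈ W, w ∈ A → r.f w.1 w.2 = some true)
    (h2 : ∀ w ∈ W, w ∉ A → r.f w.1 w.2 = some false) : r ≤ fx q W A := by
  intro ξ n b hb
  by_cases hw : (ξ, n) ∈ W
  · by_cases hA : (ξ, n) ∈ A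
    · rw [fx_f_of hw hA] at hb
      rw [← hb]
      exact h1 _ hw hA
    · rw [fx_f_of' hw hA] at hb
      rw [← hb]
      exact h2 _ hw hA
  · rw [fx_f_of_not hw] at hb
    exact hr ξ n b hb

theorem node_le {p q : SC K} {U V A A' : Finset (K × ℕ)} (hq : q ≤ p) (hV : Free V q) (hUV : U ⊆ V)
    (h : ∀ u ∈ U, u ∈ A' ↔ u ∈ A) : fx q V A' ≤ fx p U A := by
  refine le_fx ((fx_le hV A').trans hq) ?_ ?_
  · intro w hw hA
    exact fx_f_of (hUV hw) ((h w hw).2 hA)
  · intro w hw hA
    exact fx_f_of' (hUV hw) (fun h' => hA ((h w hw).1 h'))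

/-- opposite decisions -/
def Opp {P : Type} [Preorder P] (x : ℕ → Set P) (i : ℕ) (u v : P) : Prop :=
  (u ∈ meets (x i) ∧ v ∈ fnot (meets (x i))) ∨ (u ∈ fnot (meets (x i)) ∧ v ∈ meets (x i))

theorem Opp.symm {P : Type} [Preorder P] {x : ℕ → Set P} {i : ℕ} {u v : P} (h : Opp x i u v) :
    Opp x i v u := h.elim (fun h => Or.inr ⟨h.2, h.1⟩) (fun h => Or.inl ⟨h.2, h.1⟩)

theorem Opp.down {P : Type} [Preorder P] {x : ℕ → Set P} {i : ℕ} {u v u' v' : P}
    (h : Opp x i u v) (hu : u' ≤ u) (hv : v' ≤ v) : Opp x i u' v' :=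
  h.imp (fun h => ⟨meets_down h.1 hu, fnot_down h.2 hv⟩)
    (fun h => ⟨fnot_down h.1 hu, meets_down h.2 hv⟩)

variable {S : Set K} {x : ℕ → Set (Q × SC K)} {w0 : Q × SC K}

theorem flip [Nonempty K] (hQ : SClosed Q) (hU : Und S x w0) {w : Q × SC K} (hw : w ≤ w0) :
    ∃ w' ≤ w, ∃ a : K × ℕ, a.1 ∉ S ∧ Free {a} w'.2 ∧ ∃ i,
      Opp x i (w'.1, fx w'.2 {a} {a}) (w'.1, fx w'.2 {a} ∅) := by
  classical
  obtain ⟨q, hq, -, W, -, hfree, hdec⟩ := fus hQ (S := Set.univ) (Y := Bool)
    (φ := fun n y => {u | if y then u ∈ meets (x n) else u ∈ fnot (meets (x n))})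
    (by
      intro n y p hp q hq
      cases y with
      | true =>
        simp only [mem_ofPred_eq, if_true] at hp ⊢
        exact meets_down hp hq
      | false =>
        simp only [mem_ofPred_eq, Bool.false_eq_true, if_false] at hp ⊢
        exact fnot_down hp hq) (w := w) (in_univ _) (by
      intro n q _ _
      obtain ⟨r, hr, h⟩ := exists_decides (x n) q
      rcases h with h | h
      · exact ⟨r, hr, in_univ _, true, by simpa using h⟩
      · exact ⟨r, hr, in_univ _, false, by simpa using h⟩)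
  obtain ⟨i, c, p1, p2, h1, h2, h3, h4, h5⟩ := hU q (hq.trans hw)
  have hd : ∀ A ⊆ W i, (q.1, fx q.2 (W i) A) ∈ meets (x i) ∨
      (q.1, fx q.2 (W i) A) ∈ fnot (meets (x i)) := by
    intro A hA
    obtain ⟨y, hy⟩ := hdec i A hA
    cases y with
    | true => exact Or.inl (by simpa using hy)
    | false => exact Or.inr (by simpa using hy)
  obtain ⟨A1, hA1, hn1, hs1⟩ := exists_node (W i) p1
  obtain ⟨A2, hA2, hn2, hs2⟩ := exists_node (W i) p2
  have e1 : (q.1, fx q.2 (W i) A1) ∈ meets (x i) := by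
    rcases hd A1 hA1 with h | h
    · exact h
    · exfalso
      have h6 : ((c, fx p1 (W i) A1) : Q × SC K) ≤ (q.1, fx q.2 (W i) A1) :=
        ⟨h1.1, fx_mono h1.2 _ _⟩
      have h7 : ((c, fx p1 (W i) A1) : Q × SC K) ≤ (c, p1) := ⟨le_rfl, hn1⟩
      exact not_both (meets_down h4 h7) (fnot_down h h6)
  have e2 : (q.1, fx q.2 (W i) A2) ∈ fnot (meets (x i)) := by
    rcases hd A2 hA2 with h | h
    · exfalso
      have h6 : ((c, fx p2 (W i) A2) : Q × SC K) ≤ (q.1, fx q.2 (W i) A2) :=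
        ⟨h2.1, fx_mono h2.2 _ _⟩
      have h7 : ((c, fx p2 (W i) A2) : Q × SC K) ≤ (c, p2) := ⟨le_rfl, hn2⟩
      exact not_both (meets_down h h6) (fnot_down h5 h7)
    · exact h
  have hS : ∀ u ∈ W i, u.1 ∈ S → (u ∈ A1 ↔ u ∈ A2) := by
    intro u hu huS
    have h6 := rs_eq_iff.1 h3 u.1 huS u.2
    obtain ⟨a1, a2, a3⟩ := hs1 u hu
    obtain ⟨b1, b2, b3⟩ := hs2 u hu
    cases h7 : p1.f u.1 u.2 with
    | none =>
      rw [h7] at h6
      exact iff_of_false (a3 h7) (b3 h6.symm)
    | some b =>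
      rw [h7] at h6
      cases b with
      | true => exact iff_of_true (a1 h7) (b1 h6.symm)
      | false => exact iff_of_false (a2 h7) (b2 h6.symm)
  -- the path
  have path : ∀ D : Finset (K × ℕ), D ⊆ W i → (∀ u ∈ D, u.1 ∉ S) → ∀ A ⊆ W i,
      (q.1, fx q.2 (W i) A) ∈ meets (x i) →
      (q.1, fx q.2 (W i) (symmDiff A D)) ∈ fnot (meets (x i)) →
      ∃ a ∈ D, ∃ B ⊆ W i, a ∉ B ∧
        Opp x i (q.1, fx q.2 (W i) (insert a B)) (q.1, fx q.2 (W i) B) := by
    intro D
    induction D using Finset.induction_on with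
    | empty =>
      intro _ _ A _ h6 h7
      rw [← Finset.bot_eq_empty, symmDiff_bot] at h7
      exact absurd h7 (fun h => not_both h6 h)
    | insert a D ha ih =>
      intro hD hDS A hA h6 h7
      have hAD : symmDiff A D ⊆ W i := by
        intro u hu
        rcases Finset.mem_symmDiff.1 hu with h | h
        · exact hA h.1
        · exact hD (Finset.mem_insert_of_mem h.1)
      rcases hd _ hAD with h8 | h8
      · have haW : a ∈ W i := hD (Finset.mem_insert_self _ _)
        by_cases haA : a ∈ symmDiff A D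
        · refine ⟨a, Finset.mem_insert_self _ _, (symmDiff A D).erase a,
            (Finset.erase_subset _ _).trans hAD, Finset.notMem_erase _ _, ?_⟩
          rw [Finset.insert_erase haA]
          have e : (symmDiff A D).erase a = symmDiff A (insert a D) := by
            ext u
            simp only [Finset.mem_erase, Finset.mem_symmDiff, Finset.mem_insert] at haA ⊢
            by_cases hu : u = a
            · subst hu
              simp only [ne_eq, not_true_eq_false, false_and, true_or, not_true_eq_false,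
                and_false, or_false, true_and, false_iff, not_not, false_or]
              tauto
            · simp only [ne_eq, hu, not_false_eq_true, true_and, false_or]
          rw [e]
          exact Or.inl ⟨h8, h7⟩
        · refine ⟨a, Finset.mem_insert_self _ _, symmDiff A D, hAD, haA, ?_⟩
          have e : insert a (symmDiff A D) = symmDiff A (insert a D) := by
            ext u
            simp only [Finset.mem_symmDiff, Finset.mem_insert] at haA ⊢
            by_cases hu : u = a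
            · subst hu
              simp only [true_or, true_iff, not_true_eq_false, and_false, true_and, false_or]
              tauto
            · simp only [hu, false_or]
          rw [e]
          exact Or.inr ⟨h7, h8⟩
      · obtain ⟨b, hb, h9⟩ := ih (fun u hu => hD (Finset.mem_insert_of_mem hu))
          (fun u hu => hDS u (Finset.mem_insert_of_mem hu)) A hA h6 h8
        exact ⟨b, Finset.mem_insert_of_mem hb, h9⟩
  obtain ⟨a, ha, B, hB, haB, hopp⟩ := path (symmDiff A1 A2) (by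
      intro u hu
      rcases Finset.mem_symmDiff.1 hu with h | h
      · exact hA1 h.1
      · exact hA2 h.1) (by
      intro u hu huS
      rcases Finset.mem_symmDiff.1 hu with h | h
      · exact h.2 ((hS u (hA1 h.1) huS).1 h.1)
      · exact h.2 ((hS u (hA2 h.1) huS).2 h.1)) A1 hA1 e1 (by
      rw [symmDiff_symmDiff_cancel_left]
      exact e2)
  have haW : a ∈ W i := by
    rcases Finset.mem_symmDiff.1 ha with h | h
    · exact hA1 h.1
    · exact hA2 h.1
  have haS : a.1 ∉ S := by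
    intro huS
    rcases Finset.mem_symmDiff.1 ha with h | h
    · exact h.2 ((hS a (hA1 h.1) huS).1 h.1)
    · exact h.2 ((hS a (hA2 h.1) huS).2 h.1)
  have hfr : Free ((W i).erase a) q.2 := fun u hu => hfree i u (Finset.mem_of_mem_erase hu)
  have hfa : Free {a} (fx q.2 ((W i).erase a) B) := by
    intro u hu
    rw [Finset.mem_singleton] at hu
    subst hu
    rw [fx_f_of_not (by exact Finset.notMem_erase _ _)]
    exact hfree i _ haW
  refine ⟨(q.1, fx q.2 ((W i).erase a) B),
    (show (q.1, fx q.2 ((W i).erase a) B) ≤ q from ⟨le_rfl, fx_le hfr B⟩).trans hq, a, haS, hfa, i,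
    hopp.down ⟨le_rfl, ?_⟩ ⟨le_rfl, ?_⟩⟩
  · refine le_fx ((fx_le hfa _).trans (fx_le hfr B)) ?_ ?_
    · intro u hu huA
      by_cases hua : u = a
      · subst hua
        exact fx_f_of (Finset.mem_singleton_self _) (Finset.mem_singleton_self _)
      · have h6 := (Finset.mem_insert.1 huA).resolve_left hua
        show (fx (fx q.2 ((W i).erase a) B) {a} {a}).f u.1 u.2 = some true
        rw [fx_f_of_not (by rw [Finset.mem_singleton]; exact hua)]
        exact fx_f_of (Finset.mem_erase.2 ⟨hua, hu⟩) h6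
    · intro u hu huA
      have hua : u ≠ a := fun h => huA (h ▸ Finset.mem_insert_self _ _)
      show (fx (fx q.2 ((W i).erase a) B) {a} {a}).f u.1 u.2 = some false
      rw [fx_f_of_not (by rw [Finset.mem_singleton]; exact hua)]
      exact fx_f_of' (Finset.mem_erase.2 ⟨hua, hu⟩) (fun h => huA (Finset.mem_insert_of_mem h))
  · refine le_fx ((fx_le hfa _).trans (fx_le hfr B)) ?_ ?_
    · intro u hu huA
      have hua : u ≠ a := fun h => haB (h ▸ huA)
      show (fx (fx q.2 ((W i).erase a) B) {a} ∅).f u.1 u.2 = some true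
      rw [fx_f_of_not (by rw [Finset.mem_singleton]; exact hua)]
      exact fx_f_of (Finset.mem_erase.2 ⟨hua, hu⟩) huA
    · intro u hu huA
      by_cases hua : u = a
      · subst hua
        exact fx_f_of' (Finset.mem_singleton_self _) (Finset.notMem_empty _)
      · show (fx (fx q.2 ((W i).erase a) B) {a} ∅).f u.1 u.2 = some false
        rw [fx_f_of_not (by rw [Finset.mem_singleton]; exact hua)]
        exact fx_f_of' (Finset.mem_erase.2 ⟨hua, hu⟩) huA

theorem many [Nonempty K] (hQ : SClosed Q) (hU : Und S x w0) (m : ℕ) : ∀ {w : Q × SC K},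
    w ≤ w0 → ∃ w' ≤ w, ∃ B : Finset (K × ℕ), B.card = m ∧ (∀ b ∈ B, b.1 ∉ S) ∧ Free B w'.2 ∧
      ∃ n0, ∀ a ∈ B, ∀ b ∈ B, a ≠ b → ∃ i < n0,
        Opp x i (w'.1, fx w'.2 B {a}) (w'.1, fx w'.2 B {b}) := by
  classical
  induction m with
  | zero =>
    intro w hw
    exact ⟨w, le_rfl, ∅, rfl, fun b hb => absurd hb (Finset.notMem_empty b),
      fun b hb => absurd hb (Finset.notMem_empty b), 0, fun b hb => absurd hb
      (Finset.notMem_empty b)⟩
  | succ m ih =>
    intro w hw
    obtain ⟨w1, h1, a, haS, hfa, i, hopp⟩ := flip hQ hU hw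
    have h2 : ((w1.1, fx w1.2 {a} ∅) : Q × SC K) ≤ w1 := ⟨le_rfl, fx_le hfa _⟩
    obtain ⟨w3, h3, B, hB1, hB2, hB3, n0, h4⟩ := ih (h2.trans (h1.trans hw))
    obtain ⟨h5, h6, h7⟩ := lift hfa h3.2
    have haB : a ∉ B := by
      intro h
      have h8 := hB3 a h
      rw [h3.2 a.1 a.2 false (fx_f_of' (Finset.mem_singleton_self _) (Finset.notMem_empty _))] at h8
      exact absurd h8 (by simp)
    have hfree : Free (insert a B) (fr w3.2 {a}) := by
      intro u hu
      by_cases hua : u = a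
      · subst hua
        exact fr_f_of (Finset.mem_singleton_self _)
      · rw [fr_f_of_not (by rw [Finset.mem_singleton]; exact hua)]
        exact hB3 u ((Finset.mem_insert.1 hu).resolve_left hua)
    have hb : ∀ b ∈ B, fx (fr w3.2 {a}) (insert a B) {b} ≤ fx w3.2 B {b} := by
      intro b hb
      have hab : b ≠ a := fun h => haB (h ▸ hb)
      have h8 : fx (fr w3.2 {a}) (insert a B) {b} ≤ fx (fr w3.2 {a}) {a} ∅ := by
        refine node_le le_rfl hfree (by simp) ?_
        intro u hu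
        rw [Finset.mem_singleton] at hu
        subst hu
        simp [hab.symm]
      refine le_fx (h8.trans h7) ?_ ?_
      · intro u hu hub
        exact fx_f_of (Finset.mem_insert_of_mem hu) hub
      · intro u hu hub
        exact fx_f_of' (Finset.mem_insert_of_mem hu) hub
    refine ⟨(w3.1, fr w3.2 {a}), ?_, insert a B, ?_, ?_, hfree, max n0 (i + 1), ?_⟩
    · exact (show ((w3.1, fr w3.2 {a}) : Q × SC K) ≤ w1 from ⟨h3.1, h5⟩).trans h1
    · rw [Finset.card_insert_of_notMem haB, hB1]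
    · intro b hb'
      rcases Finset.mem_insert.1 hb' with rfl | hb'
      · exact haS
      · exact hB2 b hb'
    · have hA : ∀ b ∈ B, Opp x i (w3.1, fx (fr w3.2 {a}) (insert a B) {a})
          (w3.1, fx (fr w3.2 {a}) (insert a B) {b}) := by
        intro b hb'
        refine hopp.down ⟨h3.1, ?_⟩ ⟨h3.1, ?_⟩
        · refine node_le h5 hfree (by simp) ?_
          intro u hu
          rfl
        · exact (hb b hb').trans ((fx_le hB3 _).trans h3.2)
      intro c hc d hd hcd
      rcases Finset.mem_insert.1 hc with rfl | hc'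
      · have hd' := (Finset.mem_insert.1 hd).resolve_left (Ne.symm hcd)
        exact ⟨i, lt_max_of_lt_right (Nat.lt_succ_self i), hA d hd'⟩
      · rcases Finset.mem_insert.1 hd with rfl | hd'
        · exact ⟨i, lt_max_of_lt_right (Nat.lt_succ_self i), (hA c hc').symm⟩
        · obtain ⟨j, hj, h9⟩ := h4 c hc' d hd' hcd
          exact ⟨j, lt_max_of_lt_left hj, h9.down ⟨le_rfl, hb c hc'⟩ ⟨le_rfl, hb d hd'⟩⟩

theorem decAg (x : ℕ → Set (Q × SC K)) (n : ℕ) (w : Q × SC K) :
    ∃ q ≤ w, In Set.univ q.2 ∧ ∃ σ, q ∈ {u | u ∈ Ag x n σ ∧ σ ⊆ Finset.range n} := by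
  obtain ⟨q, h1, h2, σ, h3, h4⟩ := exists_Ag (S := Set.univ) (x := x) (by
    intro i w _
    obtain ⟨q, hq, h⟩ := exists_decides (x i) w
    exact ⟨q, hq, in_univ _, h⟩) n (w := w) (in_univ _)
  exact ⟨q, h1, h2, σ, h4, h3⟩

theorem many' [Nonempty K] (hQ : SClosed Q) (hU : Und S x w0) (m g : ℕ) {w : Q × SC K}
    (hw : w ≤ w0) : ∃ w' ≤ w, ∃ B : Finset (K × ℕ), B.card = m ∧ (∀ b ∈ B, b.1 ∉ S) ∧
      Free B w'.2 ∧ ∃ n ≥ g, ∃ σ : K × ℕ → Finset ℕ, (∀ a ∈ B, ∀ b ∈ B, σ a = σ b → a = b) ∧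
        ∀ b ∈ B, σ b ⊆ Finset.range n ∧ (w'.1, fx w'.2 B {b}) ∈ Ag x n (σ b) := by
  classical
  obtain ⟨w1, h1, B, hB1, hB2, hB3, n0, h2⟩ := many hQ hU m hw
  obtain ⟨w2, h3, -, h4, h5⟩ := finite_step' (S := Set.univ)
    (φ := fun σ => {u | u ∈ Ag x (max n0 g) σ ∧ σ ⊆ Finset.range (max n0 g)})
    (fun σ p hp q hq => ⟨Ag_down hp.1 hq, hp.2⟩) (w0 := w1)
    (fun w _ _ => decAg x _ w) (fun w _ => mem_univ _) (B.image fun b => {b}) le_rfl
    (in_univ _) hB3
  have h6 : ∀ b : B, ∃ σ, (w2.1, fx w2.2 B {b.1}) ∈ Ag x (max n0 g) σ ∧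
      σ ⊆ Finset.range (max n0 g) := fun b => h5 {b.1} (Finset.mem_image_of_mem _ b.2)
  choose σ hσ1 hσ2 using h6
  refine ⟨w2, h3.trans h1, B, hB1, hB2, h4, max n0 g, le_max_right _ _,
    fun b => if h : b ∈ B then σ ⟨b, h⟩ else ∅, ?_, ?_⟩
  · intro a ha b hb hab
    simp only [dif_pos ha, dif_pos hb] at hab
    by_contra hne
    obtain ⟨i, hi, hopp⟩ := h2 a ha b hb hne
    have hopp' : Opp x i (w2.1, fx w2.2 B {a}) (w2.1, fx w2.2 B {b}) :=
      hopp.down ⟨h3.1, fx_mono h3.2 _ _⟩ ⟨h3.1, fx_mono h3.2 _ _⟩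
    have ha' := hσ1 ⟨a, ha⟩ i (lt_max_of_lt_left hi)
    have hb' := hσ1 ⟨b, hb⟩ i (lt_max_of_lt_left hi)
    rw [← hab] at hb'
    by_cases hin : i ∈ σ ⟨a, ha⟩
    · rcases hopp' with h | h
      · exact not_both (hb'.1 hin) h.2
      · exact not_both (ha'.1 hin) h.1
    · rcases hopp' with h | h
      · exact not_both h.1 (ha'.2 hin)
      · exact not_both h.2 (hb'.2 hin)
  · intro b hb
    simp only [dif_pos hb]
    exact ⟨hσ2 ⟨b, hb⟩, hσ1 ⟨b, hb⟩⟩

end Pool.Agent.U775.LG
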