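import Pool.Agent.U775.LG.Menu

set_option autoImplicit false

/-!
# The menu
-/

namespace Pool.Agent.U775.LG

open Set Cardinal Pool.Agent.R594.Rai Pool.Agent.Helper126.Sus.Forc

variable {K : Type} {Q : Type} [Preorder Q] {S : Set K} {x : ℕ → Set (Q × SC K)} {w0 : Q × SC K}

/-- an entry of the menu: a length and a finite set of sequences of this length -/
abbrev Entry : Type := ℕ × Finset (Finset ℕ)

/-- the entry has at least `m` members, which coincide below `g` -/
def Ok (m g : ℕ) (e : Entry) : Prop :=
  m ≤ e.2.card ∧ g ≤ e.1 ∧ (∀ σ ∈ e.2, σ ⊆ Finset.range e.1) ∧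
    ∀ σ ∈ e.2, ∀ τ ∈ e.2, σ ∩ Finset.range g = τ ∩ Finset.range g

open Classical in
theorem menu [Nonempty K] (hQ : SClosed Q) (hU : Und S x w0) (m : ℕ → ℕ) (g : ℕ)
    (L : List (Finset (K × ℕ))) : ∀ (LP : List (Finset (K × ℕ))) (T : ℕ) {w : Q × SC K},
    w ≤ w0 → ∀ {U : Finset (K × ℕ)}, Free U w.2 → (∀ e ∈ L, e ⊆ U) → (∀ A ∈ LP, A ⊆ U) →
    (∀ e ∈ L, ∀ A ∈ LP, ∃ σ, (w.1, fx w.2 U (e ∪ A)) ∈ Ag x g σ) →
    ∃ w' ≤ w, Free U w'.2 ∧ ∃ V : Finset (K × ℕ), Disjoint V U ∧ Free V w'.2 ∧
      (∀ v ∈ V, v.1 ∉ S) ∧ ∃ T' ≥ T, ∃ ent : ℕ → Entry,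
      (∀ i, T ≤ i → i < T' → Ok (m i) g (ent i)) ∧
      ∀ χ : ℕ → Finset ℕ, (∀ i, T ≤ i → i < T' → χ i ∈ (ent i).2) → ∀ A ∈ LP, ∃ β ⊆ V,
        ∀ e ∈ L, ∃ i, T ≤ i ∧ i < T' ∧
          (w'.1, fx w'.2 (U ∪ V) (e ∪ A ∪ β)) ∈ Ag x (ent i).1 (χ i) := by
  induction L with
  | nil =>
    intro LP T w hw U hfree _ _ _
    refine ⟨w, le_rfl, hfree, ∅, Finset.disjoint_empty_left _,
      fun v hv => absurd hv (Finset.notMem_empty v), fun v hv => absurd hv
      (Finset.notMem_empty v), T, le_rfl, fun _ => (0, ∅), fun i h h' => absurd h (by omega),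
      fun χ _ A _ => ⟨∅, Finset.Subset.refl _, fun e he => absurd he (by simp)⟩⟩
  | cons e L ihL =>
    intro LP
    induction LP with
    | nil =>
      intro T w hw U hfree _ _ _
      refine ⟨w, le_rfl, hfree, ∅, Finset.disjoint_empty_left _,
        fun v hv => absurd hv (Finset.notMem_empty v), fun v hv => absurd hv
        (Finset.notMem_empty v), T, le_rfl, fun _ => (0, ∅), fun i h h' => absurd h (by omega),
        fun χ _ A hA => absurd hA (by simp)⟩
    | cons A LP ihP =>
      intro T w hw U hfree hL hP hdec
      have heU : e ⊆ U := hL e (by simp)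
      have hAU : A ⊆ U := hP A (by simp)
      -- the first entry
      have h0 : ((w.1, fx w.2 U (e ∪ A)) : Q × SC K) ≤ w := ⟨le_rfl, fx_le hfree _⟩
      obtain ⟨v, h1, B, hB1, hB2, hB3, n, hn, σ, hσ1, hσ2⟩ :=
        many' hQ hU (m T) g (h0.trans hw)
      obtain ⟨h2, h3, h4⟩ := lift hfree h1.2
      have hBU : ∀ b ∈ B, b ∉ U := by
        intro b hb hbU
        have h5 := hB3 b hb
        by_cases hbA : b ∈ e ∪ A
        · rw [h1.2 b.1 b.2 true (fx_f_of hbU hbA)] at h5
          exact absurd h5 (by simp)
        · rw [h1.2 b.1 b.2 false (fx_f_of' hbU hbA)] at h5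
          exact absurd h5 (by simp)
      have hBfree : Free B (fr v.2 U) := by
        intro b hb
        rw [fr_f_of_not (hBU b hb)]
        exact hB3 b hb
      set w1 : Q × SC K := (v.1, fr v.2 U) with hw1
      have hw1w : w1 ≤ w := ⟨h1.1, h2⟩
      have hfree1 : Free (U ∪ B) w1.2 := by
        intro u hu
        rcases Finset.mem_union.1 hu with h | h
        · exact h3 u h
        · exact hBfree u h
      have hnode1 : ∀ b ∈ B, ((w1.1, fx w1.2 (U ∪ B) (e ∪ A ∪ {b})) : Q × SC K) ≤
          (v.1, fx v.2 B {b}) := by
        intro b hb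
        refine ⟨le_rfl, ?_⟩
        have h5 : fx w1.2 (U ∪ B) (e ∪ A ∪ {b}) ≤ fx w1.2 U (e ∪ A) := by
          refine node_le le_rfl hfree1 Finset.subset_union_left ?_
          intro u hu
          have : u ≠ b := fun h => hBU b hb (h ▸ hu)
          simp [this]
        refine le_fx (h5.trans h4) ?_ ?_
        · intro u hu hub
          exact fx_f_of (Finset.mem_union_right _ hu) (Finset.mem_union_right _ hub)
        · intro u hu hub
          refine fx_f_of' (Finset.mem_union_right _ hu) (fun h => ?_)
          rcases Finset.mem_union.1 h with h | h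
          · exact hBU u hu ((Finset.union_subset heU hAU) h)
          · exact hub h
      have hAg1 : ∀ b ∈ B, (w1.1, fx w1.2 (U ∪ B) (e ∪ A ∪ {b})) ∈ Ag x n (σ b) :=
        fun b hb => Ag_down (hσ2 b hb).2 (hnode1 b hb)
      -- the decisions of the nodes are inherited
      have hinh : ∀ {w' : Q × SC K} {U' : Finset (K × ℕ)}, w' ≤ w → Free U' w'.2 → U ⊆ U' →
          ∀ {a a' : Finset (K × ℕ)}, (∀ u ∈ U, u ∈ a' ↔ u ∈ a) →
          ∀ {τ : Finset ℕ}, (w.1, fx w.2 U a) ∈ Ag x g τ → (w'.1, fx w'.2 U' a') ∈ Ag x g τ := by
        intro w' U' hw' hf hUU a a' haa τ hτ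
        exact Ag_down hτ ⟨hw'.1, node_le hw'.2 hf hUU haa⟩
      -- the other nodes
      obtain ⟨w2, h5, h6, V2, h7, h8, h9, T2, h10, ent2, h11, h12⟩ :=
        ihL (B.toList.map fun b => A ∪ {b}) (T + 1) (w := w1) (hw1w.trans hw) (U := U ∪ B) hfree1
          (fun e' he' => (hL e' (List.mem_cons_of_mem _ he')).trans Finset.subset_union_left) (by
            intro A' hA'
            obtain ⟨b, hb, rfl⟩ := List.mem_map.1 hA'
            refine Finset.union_subset (hAU.trans Finset.subset_union_left) ?_
            rw [Finset.singleton_subset_iff]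
            exact Finset.mem_union_right _ (Finset.mem_toList.1 hb)) (by
            intro e' he' A' hA'
            obtain ⟨b, hb, rfl⟩ := List.mem_map.1 hA'
            obtain ⟨τ, hτ⟩ := hdec e' (List.mem_cons_of_mem _ he') A (by simp)
            refine ⟨τ, hinh hw1w hfree1 Finset.subset_union_left ?_ hτ⟩
            intro u hu
            have : u ≠ b := fun h => hBU b (Finset.mem_toList.1 hb) (h ▸ hu)
            simp [this])
      have hfree2 : Free (U ∪ B ∪ V2) w2.2 := by
        intro u hu
        rcases Finset.mem_union.1 hu with h | h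
        · exact h6 u h
        · exact h8 u h
      have hUU2 : U ⊆ U ∪ B ∪ V2 := Finset.subset_union_left.trans Finset.subset_union_left
      -- the other patterns
      obtain ⟨w3, h13, h14, V3, h15, h16, h17, T3, h18, ent3, h19, h20⟩ :=
        ihP T2 (w := w2) (h5.trans (hw1w.trans hw)) (U := U ∪ B ∪ V2) hfree2
          (fun e' he' => (hL e' he').trans hUU2)
          (fun A' hA' => (hP A' (List.mem_cons_of_mem _ hA')).trans hUU2) (by
            intro e' he' A' hA'
            obtain ⟨τ, hτ⟩ := hdec e' he' A' (List.mem_cons_of_mem _ hA')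
            exact ⟨τ, hinh (h5.trans hw1w) hfree2 hUU2 (fun u _ => Iff.rfl) hτ⟩)
      have hfree3 : Free (U ∪ (B ∪ V2 ∪ V3)) w3.2 := by
        intro u hu
        rw [← Finset.union_assoc, ← Finset.union_assoc] at hu
        rcases Finset.mem_union.1 hu with h | h
        · exact h14 u h
        · exact h16 u h
      refine ⟨w3, h13.trans (h5.trans hw1w), fun u hu => hfree3 u (Finset.mem_union_left _ hu),
        B ∪ V2 ∪ V3, ?_, fun u hu => hfree3 u (Finset.mem_union_right _ hu), ?_, T3,
        by omega, fun i => if i = T then (n, B.image σ) else if i < T2 then ent2 i else ent3 i,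
        ?_, ?_⟩
      · rw [Finset.disjoint_left]
        intro u hu huU
        rcases Finset.mem_union.1 hu with hu | hu
        · rcases Finset.mem_union.1 hu with hu | hu
          · exact hBU u hu huU
          · exact Finset.disjoint_left.1 h7 hu (Finset.mem_union_left _ huU)
        · exact Finset.disjoint_left.1 h15 hu (hUU2 huU)
      · intro u hu
        rcases Finset.mem_union.1 hu with hu | hu
        · rcases Finset.mem_union.1 hu with hu | hu
          · exact hB2 u hu
          · exact h9 u hu
        · exact h17 u hu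
      · intro i hi hi'
        beta_reduce
        split_ifs with h21 h22
        · subst h21
          refine ⟨?_, hn, ?_, ?_⟩
          · rw [Finset.card_image_of_injOn (fun a ha b hb hab => hσ1 a ha b hb hab), hB1]
          · intro s hs
            obtain ⟨b, hb, rfl⟩ := Finset.mem_image.1 hs
            exact (hσ2 b hb).1
          · intro s hs t ht
            obtain ⟨b, hb, rfl⟩ := Finset.mem_image.1 hs
            obtain ⟨c, hc, rfl⟩ := Finset.mem_image.1 ht
            obtain ⟨τ, hτ⟩ := hdec e (by simp) A (by simp)
            have key : ∀ b ∈ B, ∀ j < g, j ∈ σ b ↔ j ∈ τ := by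
              intro b hb j hj
              refine Ag_iff (hAg1 b hb) (hinh hw1w hfree1 Finset.subset_union_left ?_ hτ)
                (le_refl (w1.1, fx w1.2 (U ∪ B) (e ∪ A ∪ {b}))) le_rfl (hj.trans_le hn) hj
              intro u hu
              have : u ≠ b := fun h => hBU b hb (h ▸ hu)
              simp [this]
            ext j
            simp only [Finset.mem_inter, Finset.mem_range]
            constructor
            · rintro ⟨hj, hj'⟩
              exact ⟨(key c hc j hj').2 ((key b hb j hj').1 hj), hj'⟩
            · rintro ⟨hj, hj'⟩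
              exact ⟨(key b hb j hj').2 ((key c hc j hj').1 hj), hj'⟩
        · exact h11 i (by omega) h22
        · exact h19 i (by omega) hi'
      · intro χ hχ A' hA'
        have hχT : χ T ∈ B.image σ := by
          have := hχ T le_rfl (by omega)
          simpa using this
        obtain ⟨b, hb, hbχ⟩ := Finset.mem_image.1 hχT
        have hχ2 : ∀ i, T + 1 ≤ i → i < T2 → χ i ∈ (ent2 i).2 := by
          intro i hi hi'
          have := hχ i (by omega) (by omega)
          beta_reduce at this
          rwa [if_neg (by omega), if_pos hi'] at this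
        have hχ3 : ∀ i, T2 ≤ i → i < T3 → χ i ∈ (ent3 i).2 := by
          intro i hi hi'
          have := hχ i (by omega) hi'
          beta_reduce at this
          rwa [if_neg (by omega), if_neg (by omega)] at this
        rcases List.mem_cons.1 hA' with rfl | hA'
        · obtain ⟨β2, hβ2, h21⟩ := h12 χ hχ2 (A' ∪ {b})
            (List.mem_map.2 ⟨b, Finset.mem_toList.2 hb, rfl⟩)
          have hβU : ∀ u ∈ U ∪ B, u ∉ β2 := fun u hu hu' =>
            Finset.disjoint_left.1 h7 (hβ2 hu') hu
          refine ⟨{b} ∪ β2, ?_, ?_⟩
          · intro u hu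
            rcases Finset.mem_union.1 hu with h | h
            · rw [Finset.mem_singleton] at h
              subst h
              exact Finset.mem_union_left _ (Finset.mem_union_left _ hb)
            · exact Finset.mem_union_left _ (Finset.mem_union_right _ (hβ2 h))
          · intro e' he'
            rcases List.mem_cons.1 he' with rfl | he'
            · refine ⟨T, le_rfl, by omega, ?_⟩
              beta_reduce
              rw [if_pos rfl, ← hbχ]
              refine Ag_down (hAg1 b hb) ⟨h13.1.trans h5.1, ?_⟩
              refine node_le (h13.2.trans h5.2) hfree3 ?_ ?_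
              · exact Finset.union_subset_union le_rfl
                  (Finset.subset_union_left.trans Finset.subset_union_left)
              · intro u hu
                have := hβU u hu
                simp only [Finset.mem_union, Finset.mem_singleton]
                tauto
            · obtain ⟨i, hi, hi', h22⟩ := h21 e' he'
              refine ⟨i, by omega, by omega, ?_⟩
              beta_reduce
              rw [if_neg (by omega), if_pos hi']
              refine Ag_down h22 ⟨h13.1, ?_⟩
              refine node_le h13.2 hfree3 ?_ ?_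
              · rw [← Finset.union_assoc, ← Finset.union_assoc]
                exact Finset.subset_union_left
              · intro u hu
                simp only [Finset.mem_union, Finset.mem_singleton]
                tauto
        · obtain ⟨β3, hβ3, h21⟩ := h20 χ hχ3 A' hA'
          refine ⟨β3, hβ3.trans Finset.subset_union_right, ?_⟩
          intro e' he'
          obtain ⟨i, hi, hi', h22⟩ := h21 e' he'
          refine ⟨i, by omega, hi', ?_⟩
          beta_reduce
          rw [if_neg (by omega), if_neg (by omega)]
          rw [Finset.union_assoc, Finset.union_assoc, ← Finset.union_assoc B] at h22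
          exact h22

end Pool.Agent.U775.LG
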