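import Pool.Agent.U775.LG.Menu2

set_option autoImplicit false

/-!
# A condition with a menu
-/

namespace Pool.Agent.U775.LG

open Set Cardinal Pool.Agent.R594.Rai Pool.Agent.Helper126.Sus.Forc

variable {K : Type} {Q : Type} [Preorder Q] {S : Set K} {x : ℕ → Set (Q × SC K)} {w0 : Q × SC K}

open Classical in
theorem phase1 [Nonempty K] (hQ : SClosed Q) (hU : Und S x w0) (m : ℕ → ℕ → ℕ) :
    ∃ w ≤ w0, ∃ (W V : ℕ → Finset (K × ℕ)) (g T : ℕ → ℕ) (ent : ℕ → ℕ → Entry),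
      StrictMono g ∧ g 0 = 0 ∧ (∀ k, V k ⊆ W (k + 1)) ∧ Monotone W ∧
      (∀ k, ∀ v ∈ V k, v.1 ∉ S) ∧ (∀ k, Free (W k) w.2) ∧ (∀ k, Disjoint (V k) (W k)) ∧
      (∀ ξ, {n | w.2.f ξ n = none ∧ ∀ k, (ξ, n) ∉ V k}.Infinite) ∧
      (∀ k, ∀ i < T k, Ok (m k i) (g k) (ent k i) ∧ (ent k i).1 ≤ g (k + 1)) ∧
      ∀ k, ∀ χ : ℕ → Finset ℕ, (∀ i < T k, χ i ∈ (ent k i).2) → ∃ β ⊆ V k, ∀ e ⊆ W k,
        ∃ i < T k, (w.1, fx w.2 (W k ∪ V k) (e ∪ β)) ∈ Ag x (ent k i).1 (χ i) := by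
  let I : ℕ → St Q K ℕ → Prop := fun k s =>
    Free s.W s.p ∧ s.E ⊆ s.W ∧ ((s.c, s.p) : Q × SC K) ≤ w0 ∧
      ∀ e ⊆ s.W, ∃ σ, (s.c, fx s.p s.W e) ∈ Ag x s.x σ
  let R : ℕ → St Q K ℕ → St Q K ℕ → Prop := fun k s t =>
    t.c ≤ s.c ∧ t.p ≤ s.p ∧ s.W ⊆ t.W ∧ s.E ⊆ t.E ∧ s.x < t.x ∧ (∀ u ∈ t.E, u ∈ s.E ∨ u ∉ s.W) ∧
      ∃ V : Finset (K × ℕ), Disjoint V s.W ∧ V ⊆ t.W ∧ Disjoint V t.E ∧ (∀ v ∈ V, v.1 ∉ S) ∧
      ∃ (T : ℕ) (ent : ℕ → Entry), (∀ i < T, Ok (m k i) s.x (ent i) ∧ (ent i).1 ≤ t.x) ∧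
      ∀ χ : ℕ → Finset ℕ, (∀ i < T, χ i ∈ (ent i).2) → ∃ β ⊆ V, ∀ e ⊆ s.W, ∃ i < T,
        (t.c, fx t.p (s.W ∪ V) (e ∪ β)) ∈ Ag x (ent i).1 (χ i)
  obtain ⟨s, c, p, hs0, hs, hcp, -, -, hinf⟩ := scheme hQ (S := Set.univ) I R
    (fun k s h => ⟨in_univ _, fun w _ => mem_univ _, h.1, h.2.1⟩)
    (fun k s t h => ⟨h.1, h.2.1, h.2.2.1, h.2.2.2.1⟩) (by
      rintro k ⟨c, p, W, E, g⟩ ξ ⟨h1, h2, h3, h4⟩
      simp only at h1 h2 h3 h4
      obtain ⟨w', h5, h6, V, h7, h8, h9, T, -, ent, h10, h11⟩ := menu hQ hU (m k) g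
        W.powerset.toList [∅] 0 (w := (c, p)) h3 (U := W) h1
        (fun e he => Finset.mem_powerset.1 (Finset.mem_toList.1 he))
        (fun A hA => by
          rw [List.mem_singleton] at hA
          subst hA
          exact Finset.empty_subset _) (fun e he A hA => by
          rw [List.mem_singleton] at hA
          subst hA
          rw [Finset.union_empty]
          exact h4 e (Finset.mem_powerset.1 (Finset.mem_toList.1 he)))
      obtain ⟨a, ha1, ha2⟩ : ∃ a, w'.2.f ξ a = none ∧ (ξ, a) ∉ W ∪ V := by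
        obtain ⟨a, ha, ha'⟩ := ((w'.2.infinite ξ).sdiff
          ((W ∪ V).image Prod.snd).finite_toSet).nonempty
        refine ⟨a, ha, fun h => ha' ?_⟩
        rw [Finset.mem_coe, Finset.mem_image]
        exact ⟨_, h, rfl⟩
      have hfree : Free (insert (ξ, a) (W ∪ V)) w'.2 := by
        intro u hu
        rcases Finset.mem_insert.1 hu with rfl | hu
        · exact ha1
        · rcases Finset.mem_union.1 hu with hu | hu
          · exact h6 u hu
          · exact h8 u hu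
      obtain ⟨w'', h12, -, h13, h14⟩ := finite_step' (S := Set.univ)
        (φ := fun σ => {u | u ∈ Ag x (g + 1 + ∑ i ∈ Finset.range T, (ent i).1) σ ∧
          σ ⊆ Finset.range (g + 1 + ∑ i ∈ Finset.range T, (ent i).1)})
        (fun σ p hp q hq => ⟨Ag_down hp.1 hq, hp.2⟩) (w0 := w')
        (fun w _ _ => decAg x _ w) (fun w _ => mem_univ _) (insert (ξ, a) (W ∪ V)).powerset le_rfl
        (in_univ _) hfree
      refine ⟨⟨w''.1, w''.2, insert (ξ, a) (W ∪ V), insert (ξ, a) E,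
        g + 1 + ∑ i ∈ Finset.range T, (ent i).1⟩, ⟨h13, ?_, ?_, ?_⟩, ⟨?_, ?_, ?_, ?_, ?_, ?_,
        V, h7, ?_, ?_, h9, T, ent, ?_, ?_⟩, ?_⟩
      · exact Finset.insert_subset_insert _ (h2.trans Finset.subset_union_left)
      · exact h12.trans (h5.trans h3)
      · intro e he
        obtain ⟨σ, hσ⟩ := h14 e (Finset.mem_powerset.2 he)
        exact ⟨σ, hσ.1⟩
      · exact h12.1.trans h5.1
      · exact h12.2.trans h5.2
      · exact Finset.subset_union_left.trans (Finset.subset_insert _ _)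
      · exact Finset.subset_insert _ _
      · simp only
        omega
      · intro u hu
        rcases Finset.mem_insert.1 hu with rfl | hu
        · exact Or.inr fun h => ha2 (Finset.mem_union_left _ h)
        · exact Or.inl hu
      · exact Finset.subset_union_right.trans (Finset.subset_insert _ _)
      · rw [Finset.disjoint_left]
        intro u hu hu'
        rcases Finset.mem_insert.1 hu' with rfl | hu'
        · exact ha2 (Finset.mem_union_right _ hu)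
        · exact Finset.disjoint_left.1 h7 hu (h2 hu')
      · intro i hi
        refine ⟨h10 i (Nat.zero_le _) hi, ?_⟩
        have := Finset.single_le_sum (f := fun i => (ent i).1) (fun _ _ => Nat.zero_le _)
          (Finset.mem_range.2 hi)
        simp only at this ⊢
        omega
      · intro χ hχ
        obtain ⟨β, hβ, h15⟩ := h11 χ (fun i _ hi => hχ i hi) ∅ (by simp)
        refine ⟨β, hβ, fun e he => ?_⟩
        obtain ⟨i, -, hi, h16⟩ := h15 e (Finset.mem_toList.2 (Finset.mem_powerset.2 he))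
        rw [Finset.union_empty] at h16
        exact ⟨i, hi, Ag_down h16 ⟨h12.1, fx_mono h12.2 _ _⟩⟩
      · intro _
        exact ⟨a, Finset.mem_insert_self _ _, fun h => ha2 (Finset.mem_union_left _ h)⟩)
    (s0 := ⟨w0.1, w0.2, ∅, ∅, 0⟩) ⟨fun u hu => absurd hu (Finset.notMem_empty u),
      Finset.Subset.refl _, le_rfl, fun e he => ⟨∅, fun i hi => absurd hi (by simp)⟩⟩
  have hWm : Monotone fun k => (s k).W := monotone_nat_of_le_succ fun k => (hs k).2.2.2.1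
  choose V hV1 hV2 hV3 hV4 T ent hent hχ using fun k => (hs k).2.2.2.2.2.2.2
  have hE : ∀ k j, k < j → Disjoint (V k) (s j).E := by
    intro k j hkj
    induction j, hkj using Nat.le_induction with
    | base => exact hV3 k
    | succ j hkj ih =>
      rw [Finset.disjoint_left] at ih ⊢
      intro u hu hu'
      rcases (hs j).2.2.2.2.2.2.1 u hu' with h | h
      · exact ih hu h
      · exact h (hWm (show k + 1 ≤ j from hkj) (hV2 k hu))
  have hE' : ∀ k j, Disjoint (V k) (s j).E := by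
    intro k j
    rcases lt_or_ge k j with h | h
    · exact hE k j h
    · rw [Finset.disjoint_left]
      intro u hu hu'
      exact Finset.disjoint_left.1 (hV1 k) hu (hWm h ((hs j).1.2.1 hu'))
  refine ⟨(c, p), ?_, fun k => (s k).W, V, fun k => (s k).x, T, ent,
    strictMono_nat_of_lt_succ fun k => (hs k).2.2.2.2.2.1, by simp only [hs0], hV2, hWm, hV4,
    fun k => (hcp k).2.2, hV1, ?_, fun k i hi => hent k i hi, ?_⟩
  · have h1 := hcp 0
    rw [hs0] at h1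
    exact ⟨h1.1, h1.2.1⟩
  · intro ξ
    by_cases hξ : (∃ n, p.f ξ n ≠ none) ∨ ∃ k n, (ξ, n) ∈ (s k).W
    · refine (hinf ξ hξ).mono ?_
      rintro n ⟨k, hk⟩
      refine ⟨(hcp k).2.2 _ ((hs k).1.2.1 hk), fun j hj => ?_⟩
      exact Finset.disjoint_left.1 (hE' j k) hj hk
    · push Not at hξ
      have h1 : {n | p.f ξ n = none ∧ ∀ k, (ξ, n) ∉ V k} = Set.univ :=
        Set.eq_univ_of_forall fun n => ⟨hξ.1 n, fun k hk => hξ.2 (k + 1) n (hV2 k hk)⟩
      simp only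
      rw [h1]
      exact infinite_univ
  · intro k χ h1
    obtain ⟨β, hβ, h2⟩ := hχ k χ h1
    refine ⟨β, hβ, fun e he => ?_⟩
    obtain ⟨i, hi, h3⟩ := h2 e he
    exact ⟨i, hi, Ag_down h3 ⟨(hcp (k + 1)).1, fx_mono (hcp (k + 1)).2.1 _ _⟩⟩

end Pool.Agent.U775.LG
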