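import Pool.Agent.U775.LG.Esc

set_option autoImplicit false

/-!
# Binary numbers, the selection property for the first relation
-/

namespace Pool.Agent.U775.LG

theorem val_lt (n : ℕ) (σ : Finset ℕ) : val n σ < 2 ^ n := by
  induction n with
  | zero => simp [val]
  | succ n ih =>
    rw [val, pow_succ]
    split_ifs <;> omega

theorem val_succ_div (n : ℕ) (σ : Finset ℕ) : val (n + 1) σ / 2 = val n σ := by
  rw [val]
  split_ifs <;> omega

theorem val_div (g d : ℕ) (σ : Finset ℕ) : val (g + d) σ / 2 ^ d = val g σ := by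
  induction d with
  | zero => simp
  | succ d ih => rw [pow_succ', ← Nat.div_div_eq_div_mul, ← add_assoc, val_succ_div, ih]

theorem val_congr {n : ℕ} {σ τ : Finset ℕ} (h : ∀ i < n, i ∈ σ ↔ i ∈ τ) : val n σ = val n τ := by
  induction n with
  | zero => rfl
  | succ n ih =>
    rw [val, val, ih (fun i hi => h i (by omega))]
    congr 1
    by_cases h1 : n ∈ σ
    · rw [if_pos h1, if_pos ((h n (by omega)).1 h1)]
    · rw [if_neg h1, if_neg (fun h2 => h1 ((h n (by omega)).2 h2))]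

theorem val_inj {n : ℕ} {σ τ : Finset ℕ} (h : val n σ = val n τ) : ∀ i < n, i ∈ σ ↔ i ∈ τ := by
  induction n with
  | zero => intro i hi; omega
  | succ n ih =>
    rw [val, val] at h
    have h1 : val n σ = val n τ := by split_ifs at h <;> omega
    intro i hi
    rcases Nat.lt_succ_iff_lt_or_eq.1 hi with h2 | rfl
    · exact ih h1 i h2
    · split_ifs at h with h3 h4 h4
      · exact iff_of_true h3 h4
      · omega
      · omega
      · exact iff_of_false h3 h4

theorem val_inj' {n : ℕ} {σ τ : Finset ℕ} (h : val n σ = val n τ) (hσ : σ ⊆ Finset.range n)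
    (hτ : τ ⊆ Finset.range n) : σ = τ := by
  ext i
  constructor
  · intro hi
    exact (val_inj h i (Finset.mem_range.1 (hσ hi))).1 hi
  · intro hi
    exact (val_inj h i (Finset.mem_range.1 (hτ hi))).2 hi

/-- the strictly increasing functions -/
abbrev HT : Type := {h : ℕ → ℕ // StrictMono h ∧ h 0 = 0}

theorem selM : Sel (fun k _ => 3 * 2 ^ k + 1) (fun j : HT => RelM j.1) := by
  classical
  intro g T ent hg hg0 hent
  refine ⟨⟨g, hg, hg0⟩, fun k i hi C hC hCn => ?_⟩
  obtain ⟨⟨h1, h2, h3, h4⟩, h5⟩ := hent k i hi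
  by_contra hcon
  push Not at hcon
  have hbad : ∀ σ ∈ (ent k i).2, ∃ p : Finset ℕ × ℤ, p ∈ C ×ˢ ({-1, 0, 1} : Finset ℤ) ∧
      (2 : ℤ) ^ ((ent k i).1 - g k) ∣ (val (ent k i).1 p.1 : ℤ) - val (ent k i).1 σ - p.2 := by
    intro σ hσ
    obtain ⟨τ, hτ, h6⟩ := hcon σ hσ
    simp only [RelM, not_and, not_forall, not_not] at h6
    obtain ⟨j, hj, h7⟩ := h6 h2 h5
    refine ⟨(τ, j), Finset.mem_product.2 ⟨hτ, ?_⟩, h7⟩
    rw [abs_le] at hj
    simp only [Finset.mem_insert, Finset.mem_singleton]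
    omega
  choose! f hf1 hf2 using hbad
  have hcard : (C ×ˢ ({-1, 0, 1} : Finset ℤ)).card < (ent k i).2.card := by
    rw [Finset.card_product]
    have : ({-1, 0, 1} : Finset ℤ).card = 3 := rfl
    rw [this]
    nlinarith
  obtain ⟨σ, hσ, σ', hσ', hne, heq⟩ := Finset.exists_ne_map_eq_of_card_lt_of_maps_to hcard
    (fun σ hσ => hf1 σ hσ)
  have h6 := hf2 σ hσ
  have h7 := hf2 σ' hσ'
  rw [← heq] at h7
  have h8 : (2 : ℤ) ^ ((ent k i).1 - g k) ∣ (val (ent k i).1 σ' : ℤ) - val (ent k i).1 σ := by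
    have h9 := dvd_sub h6 h7
    have e : (val (ent k i).1 (f σ).1 : ℤ) - val (ent k i).1 σ - (f σ).2 -
        ((val (ent k i).1 (f σ).1 : ℤ) - val (ent k i).1 σ' - (f σ).2) =
        (val (ent k i).1 σ' : ℤ) - val (ent k i).1 σ := by ring
    rwa [e] at h9
  apply hne
  refine val_inj' ?_ (h3 σ hσ) (h3 σ' hσ')
  obtain ⟨d, hd⟩ : ∃ d, (ent k i).1 = g k + d := ⟨(ent k i).1 - g k, by omega⟩
  have h9 : val (ent k i).1 σ / 2 ^ d = val (ent k i).1 σ' / 2 ^ d := by
    rw [hd, val_div, val_div]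
    refine val_congr fun l hl => ?_
    have h10 := h4 σ hσ σ' hσ'
    have h11 : l ∈ σ ∩ Finset.range (g k) ↔ l ∈ σ' ∩ Finset.range (g k) := by rw [h10]
    simpa [hl] using h11
  have h10 : (val (ent k i).1 σ : ℤ) ≡ val (ent k i).1 σ' [ZMOD ((2 ^ d : ℕ) : ℤ)] := by
    rw [Int.modEq_iff_dvd]
    have e : (ent k i).1 - g k = d := by omega
    rw [e] at h8
    push_cast
    exact h8
  have h11 : val (ent k i).1 σ % 2 ^ d = val (ent k i).1 σ' % 2 ^ d :=
    (Int.natCast_modEq_iff.1 h10)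
  rw [← Nat.div_add_mod (val (ent k i).1 σ) (2 ^ d), h9, h11, Nat.div_add_mod]

end Pool.Agent.U775.LG
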